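import Mathlib
import Pool.Agent.H484R3.Circ

set_option autoImplicit false

namespace Pool.Agent.TH351.Shift

open Pool.Agent.H484R3.Circ Finset

variable {V : Type*}

/-- two pairs of vertices are disjoint and joined by an edge -/
def Good (G : SimpleGraph V) (p q : V × V) : Prop :=
  p.1 ≠ q.1 ∧ p.1 ≠ q.2 ∧ p.2 ≠ q.1 ∧ p.2 ≠ q.2 ∧
    (G.Adj p.1 q.1 ∨ G.Adj p.1 q.2 ∨ G.Adj p.2 q.1 ∨ G.Adj p.2 q.2)

theorem Good.symm {G : SimpleGraph V} {p q : V × V} (h : Good G p q) : Good G q p := by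
  obtain ⟨a, b, c, d, e⟩ := h
  refine ⟨a.symm, c.symm, b.symm, d.symm, ?_⟩
  rcases e with e | e | e | e
  · exact Or.inl e.symm
  · exact Or.inr (Or.inr (Or.inl e.symm))
  · exact Or.inr (Or.inl e.symm)
  · exact Or.inr (Or.inr (Or.inr e.symm))

theorem minor_of_pairs {G : SimpleGraph V} (F : Finset (V × V))
    (h1 : ∀ p ∈ F, G.Adj p.1 p.2) (h2 : ∀ p ∈ F, ∀ q ∈ F, p ≠ q → Good G p q)
    {k : ℕ} (hk : k ≤ F.card) : CliqueMinor G k := by
  classical
  have hcard : Fintype.card (Fin k) ≤ Fintype.card F := by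
    rw [Fintype.card_fin, Fintype.card_coe]; exact hk
  obtain ⟨g⟩ := Function.Embedding.nonempty_of_card_le hcard
  have hne : ∀ i j : Fin k, i ≠ j → (g i).1 ≠ (g j).1 :=
    fun i j hij h => hij (g.injective (Subtype.ext h))
  refine ⟨fun i => {(g i).1.1, (g i).1.2},
    fun i => induce_pair_connected G (h1 _ (g i).2), ?_, ?_⟩
  · intro i j hij
    obtain ⟨a, b, c, d, -⟩ := h2 _ (g i).2 _ (g j).2 (hne i j hij)
    rw [Set.disjoint_left]
    rintro z hz hz'
    simp only [Set.mem_insert_iff, Set.mem_singleton_iff] at hz hz'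
    rcases hz with rfl | rfl <;> rcases hz' with h | h
    · exact a h
    · exact b h
    · exact c h
    · exact d h
  · intro i j hij
    obtain ⟨-, -, -, -, h⟩ := h2 _ (g i).2 _ (g j).2 (hne i j hij)
    rcases h with h | h | h | h
    · exact ⟨_, by simp, _, by simp, h⟩
    · exact ⟨_, Set.mem_insert _ _, _, by simp, h⟩
    · exact ⟨_, by simp, _, Set.mem_insert _ _, h⟩
    · exact ⟨_, by simp, _, by simp, h⟩

theorem CliqueMinor.mono {G : SimpleGraph V} {k l : ℕ} (hkl : k ≤ l) (h : CliqueMinor G l) :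
    CliqueMinor G k := by
  obtain ⟨f, h1, h2, h3⟩ := h
  refine ⟨fun i => f (Fin.castLE hkl i), fun i => h1 _, fun i j hij => h2 _ _ ?_,
    fun i j hij => h3 _ _ ?_⟩
  · exact fun h => hij (Fin.castLE_injective hkl h)
  · exact fun h => hij (Fin.castLE_injective hkl h)

theorem tri {G : SimpleGraph V} (hα : AlphaTwo G) {x y z : V} (h1 : Gᶜ.Adj x y)
    (h2 : Gᶜ.Adj y z) (h3 : Gᶜ.Adj x z) : False := by
  rw [SimpleGraph.compl_adj] at h1 h2 h3
  rcases hα x y z h1.1 h2.1 h3.1 with h | h | h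
  · exact h1.2 h
  · exact h2.2 h
  · exact h3.2 h

/-- `g` preserves adjacency and nonadjacency -/
def IsAut (G : SimpleGraph V) (g : Equiv.Perm V) : Prop := ∀ x y, G.Adj (g x) (g y) ↔ G.Adj x y

theorem IsAut.pow {G : SimpleGraph V} {g : Equiv.Perm V} (hg : IsAut G g) (n : ℕ) :
    IsAut G (g ^ n) := by
  induction n with
  | zero => intro x y; simp
  | succ n ih => intro x y; rw [pow_succ, Equiv.Perm.mul_apply, Equiv.Perm.mul_apply, ih, hg]

theorem compl_map {G : SimpleGraph V} {g : Equiv.Perm V} (hg : IsAut G g) {x y : V} :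
    Gᶜ.Adj (g x) (g y) ↔ Gᶜ.Adj x y := by
  rw [SimpleGraph.compl_adj, SimpleGraph.compl_adj, g.injective.ne_iff, hg]

theorem adj_of_not_compl {G : SimpleGraph V} {x y : V} (hne : x ≠ y) (h : ¬ Gᶜ.Adj x y) :
    G.Adj x y := by
  rw [SimpleGraph.compl_adj] at h
  by_contra hc
  exact h ⟨hne, hc⟩

section shift

variable {G : SimpleGraph V} (hα : AlphaTwo G) {g : Equiv.Perm V} (hg : IsAut G g)
  (h2 : ∀ x, Gᶜ.Adj x (g (g x)))

include h2 in
theorem ne_shift (x : V) : x ≠ g x := by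
  intro h
  have := h2 x
  rw [← h, ← h] at this
  exact Gᶜ.loopless.irrefl x this

include hα hg h2 in
theorem adj_shift (x : V) : G.Adj x (g x) := by
  refine adj_of_not_compl (ne_shift h2 x) fun h => ?_
  exact tri hα h ((compl_map hg).mpr h) (h2 x)

include hα hg h2 in
theorem good_shift {x y : V} (hxy : x ≠ y) (h3 : x ≠ g y) (h4 : g x ≠ y) :
    Good G (x, g x) (y, g y) := by
  refine ⟨hxy, h3, h4, g.injective.ne hxy, ?_⟩
  by_contra hcon
  push Not at hcon
  obtain ⟨-, b, c, -⟩ := hcon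
  have hb : Gᶜ.Adj x (g y) := ⟨h3, b⟩
  have hc : Gᶜ.Adj (g x) y := ⟨h4, c⟩
  exact tri hα (h2 x) ((compl_map hg).mpr hc) hb

include hα hg in
/-- the extra pair -/
theorem good_extra {u w v y : V} (huw : Gᶜ.Adj u w) (hv : v = g w ∨ g v = w)
    (h1 : y ≠ u) (h3 : g y ≠ u) (h4 : y ≠ v) (h5 : g y ≠ v) :
    Good G (y, g y) (u, v) := by
  refine ⟨h1, h4, h3, h5, ?_⟩
  by_contra hcon
  push Not at hcon
  obtain ⟨a, b, c, d⟩ := hcon
  have ha : Gᶜ.Adj y u := ⟨h1, a⟩
  have hb : Gᶜ.Adj y v := ⟨h4, b⟩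
  have hc : Gᶜ.Adj (g y) u := ⟨h3, c⟩
  have hd : Gᶜ.Adj (g y) v := ⟨h5, d⟩
  rcases hv with rfl | rfl
  · rw [compl_map hg] at hd
    exact tri hα ha huw hd
  · exact tri hα hc huw ((compl_map hg).mpr hb)

include hα h2 in
theorem exists_sign (u w : V) :
    ∃ v, (v = g w ∨ g v = w) ∧ ¬ Gᶜ.Adj u v := by
  by_cases h : Gᶜ.Adj u (g w)
  · refine ⟨g.symm w, Or.inr (g.apply_symm_apply w), fun h' => ?_⟩
    have := h2 (g.symm w)
    rw [g.apply_symm_apply] at this
    exact tri hα h' this h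
  · exact ⟨g w, Or.inl rfl, h⟩

end shift

section alt

/-- Alternating choice along the cycles of a permutation, relative to a set meeting all cycles. -/
theorem exists_alt (g : Equiv.Perm V) (T : Set V) (hT : ∀ x, ∃ m : ℕ, (g ^ m) x ∈ T) :
    ∃ P : Set V, (∀ x ∈ P, g x ∉ P) ∧
      ∀ x, (x ∉ P ∧ ∀ y ∈ P, g y ≠ x) ↔
        (x ∈ T ∧ ∃ m : ℕ, Even m ∧ (g ^ m) (g x) ∈ T ∧ ∀ j < m, (g ^ j) (g x) ∉ T) := by
  classical
  let δ : V → ℕ := fun x => Nat.find (hT x)
  have hδ : ∀ x, (g ^ δ x) x ∈ T := fun x => Nat.find_spec (hT x)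
  have hmin : ∀ x j, j < δ x → (g ^ j) x ∉ T := fun x j hj => Nat.find_min (hT x) hj
  have h0 : ∀ x, δ x = 0 ↔ x ∈ T := by
    intro x
    rw [Nat.find_eq_zero]
    simp
  have hstep : ∀ x, x ∉ T → δ x = δ (g x) + 1 := by
    intro x hx
    have hpow : ∀ j : ℕ, (g ^ (j + 1)) x = (g ^ j) (g x) := by
      intro j
      rw [pow_succ]; rfl
    apply le_antisymm
    · apply Nat.find_min' (hT x)
      rw [hpow]
      exact hδ (g x)
    · have hpos : δ x ≠ 0 := fun h => hx ((h0 x).mp h)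
      obtain ⟨m, hm⟩ := Nat.exists_eq_succ_of_ne_zero hpos
      have : δ (g x) ≤ m := by
        apply Nat.find_min' (hT (g x))
        rw [← hpow]
        have := hδ x
        rw [hm] at this
        exact this
      omega
  refine ⟨{x | Even (δ x) ∧ Odd (δ (g x))}, ?_, ?_⟩
  · rintro x ⟨-, hx⟩ ⟨hx', -⟩
    exact Nat.not_even_iff_odd.mpr hx hx'
  · intro x
    constructor
    · rintro ⟨hx, hy⟩
      have he : Even (δ x) := by
        by_contra ho
        rw [Nat.not_even_iff_odd] at ho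
        have h1 : ¬ (Even (δ (g.symm x)) ∧ Odd (δ (g (g.symm x)))) :=
          fun h => hy (g.symm x) h (by simp)
        rw [Equiv.apply_symm_apply] at h1
        have h3 : ¬ Even (δ (g.symm x)) := fun h => h1 ⟨h, ho⟩
        have h4 : g.symm x ∉ T := by
          intro h
          rw [← h0] at h
          rw [h] at h3
          exact h3 Even.zero
        have h5 := hstep _ h4
        rw [Equiv.apply_symm_apply] at h5
        rw [h5] at h3
        exact h3 ho.add_one
      have ho : ¬ Odd (δ (g x)) := fun h => hx ⟨he, h⟩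
      rw [Nat.not_odd_iff_even] at ho
      have hxT : x ∈ T := by
        by_contra hxT
        have := hstep x hxT
        rw [this] at he
        exact (Nat.not_even_iff_odd.mpr ho.add_one) he
      exact ⟨hxT, δ (g x), ho, hδ _, hmin _⟩
    · rintro ⟨hxT, m, hm, hm1, hm2⟩
      have hxm : δ (g x) = m := by
        apply le_antisymm
        · exact Nat.find_min' _ hm1
        · by_contra hlt
          exact hm2 _ (not_le.mp hlt) (hδ _)
      constructor
      · rintro ⟨-, h⟩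
        rw [hxm] at h
        exact Nat.not_even_iff_odd.mpr h hm
      · rintro y ⟨-, hy⟩ rfl
        rw [(h0 _).mpr hxT] at hy
        exact absurd hy (by decide)

/-- A choice of one vertex in every cycle. -/
theorem exists_transversal (g : Equiv.Perm V) :
    ∃ ρ : V → V, (∀ x, g.SameCycle x (ρ x)) ∧ ∀ x y, g.SameCycle x y → ρ x = ρ y := by
  let s := Equiv.Perm.SameCycle.setoid g
  refine ⟨fun x => (Quotient.mk s x).out, ?_, ?_⟩
  · intro x
    have : s.r ((Quotient.mk s x).out) x := Quotient.mk_out x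
    exact Equiv.Perm.SameCycle.symm this
  · intro x y hxy
    have : Quotient.mk s x = Quotient.mk s y := Quotient.sound hxy
    simp only [this]

theorem exists_transversal₂ (g : Equiv.Perm V) (u v : V) (huv : ¬ g.SameCycle u v) :
    ∃ ρ : V → V, (∀ x, g.SameCycle x (ρ x)) ∧ (∀ x y, g.SameCycle x y → ρ x = ρ y) ∧
      ρ u = u ∧ ρ v = v := by
  classical
  obtain ⟨ρ, h1, h2⟩ := exists_transversal g
  refine ⟨fun x => if g.SameCycle x u then u else if g.SameCycle x v then v else ρ x,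
    ?_, ?_, ?_, ?_⟩
  · intro x
    by_cases hx : g.SameCycle x u
    · simp only [hx, if_true]
    · by_cases hx' : g.SameCycle x v
      · simp only [hx, hx', if_true, if_false]
      · simp only [hx, hx', if_false]
        exact h1 x
  · intro x y hxy
    have e1 : g.SameCycle x u ↔ g.SameCycle y u := ⟨fun h => hxy.symm.trans h, fun h => hxy.trans h⟩
    have e2 : g.SameCycle x v ↔ g.SameCycle y v := ⟨fun h => hxy.symm.trans h, fun h => hxy.trans h⟩
    simp only [e1, e2, h2 x y hxy]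
  · simp only [Equiv.Perm.SameCycle.refl, if_true]
  · have : ¬ g.SameCycle v u := fun h => huv h.symm
    simp only [this, Equiv.Perm.SameCycle.refl, if_true, if_false]

theorem exists_alt' [Fintype V] (g : Equiv.Perm V) {ρ : V → V}
    (h1 : ∀ x, g.SameCycle x (ρ x)) (h2 : ∀ x y, g.SameCycle x y → ρ x = ρ y) :
    ∃ P L : Finset V, (∀ x ∈ P, g x ∉ P) ∧ (∀ x ∈ L, x ∉ P ∧ ∀ y ∈ P, g y ≠ x) ∧
      (∀ x, x ∈ L ↔ ρ x = x ∧ Odd (Function.minimalPeriod g x)) ∧
      Fintype.card V = 2 * P.card + L.card := by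
  classical
  have hT : ∀ x, ∃ m : ℕ, (g ^ m) x ∈ {x | ρ x = x} := by
    intro x
    obtain ⟨m, hm⟩ := (h1 x).exists_nat_pow_eq
    refine ⟨m, ?_⟩
    rw [hm]
    exact (h2 x (ρ x) (h1 x)).symm
  obtain ⟨P, hP1, hP2⟩ := exists_alt g {x | ρ x = x} hT
  let Pf : Finset V := univ.filter (· ∈ P)
  let gP : Finset V := Pf.map g.toEmbedding
  have hdisj : Disjoint Pf gP := by
    rw [Finset.disjoint_left]
    intro x hx hx'
    obtain ⟨y, hy, hyx⟩ := Finset.mem_map.mp hx'
    have hy' : y ∈ P := (Finset.mem_filter.mp hy).2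
    have hx'' : x ∈ P := (Finset.mem_filter.mp hx).2
    apply hP1 y hy'
    rw [← hyx] at hx''
    exact hx''
  have hpw : ∀ (j : ℕ) x, (g ^ j) (g x) = (g ^ (j + 1)) x := by
    intro j x
    rw [pow_succ]; rfl
  have hsame : ∀ (j : ℕ) x, ρ ((g ^ j) x) = ρ x := by
    intro j x
    exact (h2 x _ ⟨j, by simp⟩).symm
  have hper : ∀ (j : ℕ) x, (g ^ j) x = x ↔ Function.IsPeriodicPt g j x := by
    intro j x
    rw [Function.IsPeriodicPt, Function.IsFixedPt, Equiv.Perm.iterate_eq_pow]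
  have hL : ∀ x, x ∈ (Pf ∪ gP)ᶜ ↔ (x ∉ P ∧ ∀ y ∈ P, g y ≠ x) := by
    intro x
    rw [Finset.mem_compl, Finset.mem_union, not_or]
    refine and_congr ?_ ?_
    · simp [Pf]
    · constructor
      · intro h y hy hyx
        exact h (Finset.mem_map.mpr ⟨y, by simp [Pf, hy], hyx⟩)
      · intro h h'
        obtain ⟨y, hy, hyx⟩ := Finset.mem_map.mp h'
        exact h y (Finset.mem_filter.mp hy).2 hyx
  refine ⟨Pf, (Pf ∪ gP)ᶜ, ?_, ?_, ?_, ?_⟩
  · intro x hx hx'
    exact hP1 x (Finset.mem_filter.mp hx).2 (Finset.mem_filter.mp hx').2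
  · intro x hx
    obtain ⟨h3, h4⟩ := (hL x).mp hx
    exact ⟨fun h => h3 (Finset.mem_filter.mp h).2, fun y hy => h4 y (Finset.mem_filter.mp hy).2⟩
  · intro x
    rw [hL, hP2]
    constructor
    · rintro ⟨hx, m, hm, hm1, -⟩
      refine ⟨hx, ?_⟩
      rw [hpw] at hm1
      have h3 : (g ^ (m + 1)) x = x := by
        have h4 : ρ ((g ^ (m + 1)) x) = (g ^ (m + 1)) x := hm1
        rw [hsame] at h4
        rw [← h4]; exact hx
      rw [hper] at h3
      exact Odd.of_dvd_nat hm.add_one h3.minimalPeriod_dvd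
    · rintro ⟨hx, hodd⟩
      refine ⟨hx, ?_⟩
      obtain ⟨r, hr⟩ := hodd
      refine ⟨2 * r, even_two_mul r, ?_, ?_⟩
      · rw [hpw, ← hr]
        have : (g ^ Function.minimalPeriod g x) x = x :=
          (hper _ _).mpr (Function.isPeriodicPt_minimalPeriod g x)
        rw [this]
        exact hx
      · intro j hj hj'
        rw [hpw] at hj'
        have h4 : ρ ((g ^ (j + 1)) x) = (g ^ (j + 1)) x := hj'
        rw [hsame] at h4
        have h5 : (g ^ (j + 1)) x = x := by rw [← h4]; exact hx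
        rw [hper] at h5
        have := h5.minimalPeriod_le (Nat.succ_pos j)
        omega
  · have h5 : (Pf ∪ gP).card = Pf.card + Pf.card := by
      rw [Finset.card_union_of_disjoint hdisj]
      simp [gP]
    have h6 := Finset.card_add_card_compl (Pf ∪ gP)
    omega

end alt

section main

variable [Fintype V] {G : SimpleGraph V} (hα : AlphaTwo G) {g : Equiv.Perm V} (hg : IsAut G g)
  (h2 : ∀ x, Gᶜ.Adj x (g (g x)))

include hα hg h2 in
theorem minor_P (P : Finset V) (hP : ∀ x ∈ P, g x ∉ P) : CliqueMinor G P.card := by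
  classical
  refine minor_of_pairs (P.image fun x => (x, g x)) ?_ ?_ (le_of_eq ?_)
  · intro p hp
    obtain ⟨x, -, rfl⟩ := Finset.mem_image.mp hp
    exact adj_shift hα hg h2 x
  · intro p hp q hq hpq
    obtain ⟨x, hx, rfl⟩ := Finset.mem_image.mp hp
    obtain ⟨y, hy, rfl⟩ := Finset.mem_image.mp hq
    refine good_shift hα hg h2 (fun h => hpq (by rw [h])) ?_ ?_
    · rintro rfl
      exact hP y hy hx
    · rintro rfl
      exact hP x hx hy
  · rw [Finset.card_image_of_injective]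
    intro x y hxy
    exact (Prod.mk.inj hxy).1

include hα hg h2 in
theorem minor_P_extra (P : Finset V) (hP : ∀ x ∈ P, g x ∉ P) {u v : V} (huv : u ≠ v)
    (hadj : ¬ Gᶜ.Adj u v) (hu : u ∉ P ∧ ∀ y ∈ P, g y ≠ u) (hv : v ∉ P ∧ ∀ y ∈ P, g y ≠ v)
    (hcomp : ∀ y, y ≠ u → g y ≠ u → y ≠ v → g y ≠ v → Good G (y, g y) (u, v)) :
    CliqueMinor G (P.card + 1) := by
  classical
  have hnot : (u, v) ∉ P.image fun x => (x, g x) := by
    intro h
    obtain ⟨x, hx, hxu⟩ := Finset.mem_image.mp h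
    exact hu.1 ((Prod.mk.inj hxu).1 ▸ hx)
  have hgd : ∀ p ∈ P.image (fun x => (x, g x)), Good G p (u, v) := by
    intro p hp
    obtain ⟨x, hx, rfl⟩ := Finset.mem_image.mp hp
    exact hcomp x (fun h => hu.1 (h ▸ hx)) (hu.2 x hx) (fun h => hv.1 (h ▸ hx)) (hv.2 x hx)
  refine minor_of_pairs (insert (u, v) (P.image fun x => (x, g x))) ?_ ?_ (le_of_eq ?_)
  · intro p hp
    rcases Finset.mem_insert.mp hp with rfl | hp
    · exact adj_of_not_compl huv hadj
    · obtain ⟨x, -, rfl⟩ := Finset.mem_image.mp hp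
      exact adj_shift hα hg h2 x
  · intro p hp q hq hpq
    rcases Finset.mem_insert.mp hp with rfl | hp
    · rcases Finset.mem_insert.mp hq with rfl | hq
      · exact absurd rfl hpq
      · exact (hgd q hq).symm
    · rcases Finset.mem_insert.mp hq with rfl | hq
      · exact hgd p hp
      · obtain ⟨x, hx, rfl⟩ := Finset.mem_image.mp hp
        obtain ⟨y, hy, rfl⟩ := Finset.mem_image.mp hq
        refine good_shift hα hg h2 (fun h => hpq (by rw [h])) ?_ ?_
        · rintro rfl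
          exact hP y hy hx
        · rintro rfl
          exact hP x hx hy
  · rw [Finset.card_insert_of_notMem hnot, Finset.card_image_of_injective]
    intro x y hxy
    exact (Prod.mk.inj hxy).1

include hα hg h2 in
/-- At most one odd cycle. -/
theorem minor_one (hodd : ∀ x y, Odd (Function.minimalPeriod g x) →
    Odd (Function.minimalPeriod g y) → g.SameCycle x y) :
    CliqueMinor G (Fintype.card V / 2) := by
  obtain ⟨ρ, hρ1, hρ2⟩ := exists_transversal g
  obtain ⟨P, L, hP, -, hL, hc⟩ := exists_alt' g hρ1 hρ2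
  refine CliqueMinor.mono ?_ (minor_P hα hg h2 P hP)
  have : L.card ≤ 1 := by
    rw [Finset.card_le_one]
    intro a ha b hb
    obtain ⟨ha1, ha2⟩ := (hL a).mp ha
    obtain ⟨hb1, hb2⟩ := (hL b).mp hb
    rw [← ha1, ← hb1]
    exact hρ2 a b (hodd a b ha2 hb2)
  omega

include hα hg h2 in
/-- All cycles odd and at most three cycles. -/
theorem minor_three (hodd : ∀ x, Odd (Function.minimalPeriod g x))
    (hthree : ∀ f : Fin 4 → V, ∃ i j, i ≠ j ∧ g.SameCycle (f i) (f j)) :
    CliqueMinor G (Fintype.card V / 2) := by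
  classical
  have key : ∀ (ρ : V → V), (∀ x, g.SameCycle x (ρ x)) → (∀ x y, g.SameCycle x y → ρ x = ρ y) →
      ∀ L : Finset V, (∀ x, x ∈ L ↔ ρ x = x ∧ Odd (Function.minimalPeriod g x)) →
      L.card ≤ 3 := by
    intro ρ hρ1 hρ2 L hL
    by_contra hlt
    have hc4 : Fintype.card (Fin 4) ≤ Fintype.card L := by
      rw [Fintype.card_fin, Fintype.card_coe]; omega
    obtain ⟨f⟩ := Function.Embedding.nonempty_of_card_le hc4
    obtain ⟨i, j, hij, hs⟩ := hthree (fun i => (f i).1)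
    apply hij
    apply f.injective
    apply Subtype.ext
    rw [← ((hL _).mp (f i).2).1, ← ((hL _).mp (f j).2).1]
    exact hρ2 _ _ hs
  obtain ⟨ρ, hρ1, hρ2⟩ := exists_transversal g
  obtain ⟨P, L, hP, hLP, hL, hc⟩ := exists_alt' g hρ1 hρ2
  have hL3 := key ρ hρ1 hρ2 L hL
  by_cases hL1 : L.card ≤ 1
  · exact CliqueMinor.mono (by omega) (minor_P hα hg h2 P hP)
  obtain ⟨a, ha, b, hb, hab⟩ := Finset.one_lt_card.mp (not_le.mp hL1)
  have hsab : ¬ g.SameCycle a b := by
    intro h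
    apply hab
    rw [← ((hL a).mp ha).1, ← ((hL b).mp hb).1]
    exact hρ2 a b h
  by_cases hex : ∃ u w, ¬ g.SameCycle u w ∧ Gᶜ.Adj u w
  · obtain ⟨u, w, huw, hadj⟩ := hex
    obtain ⟨v, hv, hv'⟩ := exists_sign hα h2 u w
    have hvw : g.SameCycle v w := by
      rcases hv with rfl | rfl
      · exact Equiv.Perm.SameCycle.symm ⟨1, by simp⟩
      · exact ⟨1, by simp⟩
    have huv : ¬ g.SameCycle u v := fun h => huw (h.trans hvw)
    obtain ⟨τ, hτ1, hτ2, hτu, hτv⟩ := exists_transversal₂ g u v huv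
    obtain ⟨P', L', hP', hLP', hL', hc'⟩ := exists_alt' g hτ1 hτ2
    have hL3' := key τ hτ1 hτ2 L' hL'
    have hu : u ∈ L' := (hL' u).mpr ⟨hτu, hodd u⟩
    have hv2 : v ∈ L' := (hL' v).mpr ⟨hτv, hodd v⟩
    have hne : u ≠ v := by
      rintro rfl
      exact huv (Equiv.Perm.SameCycle.refl _ _)
    refine CliqueMinor.mono ?_ (minor_P_extra hα hg h2 P' hP' hne hv' (hLP' u hu) (hLP' v hv2)
      (fun y e1 e2 e3 e4 => good_extra hα hg hadj hv e1 e2 e3 e4))
    omega
  · push Not at hex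
    refine CliqueMinor.mono ?_ (minor_P_extra hα hg h2 P hP hab (hex a b hsab) (hLP a ha)
      (hLP b hb) ?_)
    · omega
    · intro y e1 e2 e3 e4
      refine ⟨e1, e3, e2, e4, ?_⟩
      by_contra hcon
      push Not at hcon
      obtain ⟨c1, c2, -, -⟩ := hcon
      have s1 : g.SameCycle y a := by
        by_contra h
        exact hex y a h ⟨e1, c1⟩
      have s2 : g.SameCycle y b := by
        by_contra h
        exact hex y b h ⟨e3, c2⟩
      exact hsab (s1.symm.trans s2)

end main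

end Pool.Agent.TH351.Shift
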