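import Mathlib
import Pool.Agent.TH351.Shift

set_option autoImplicit false

namespace Pool.Agent.TH351.Shift

open Pool.Agent.H484R3.Circ Finset

variable {V : Type*}

theorem exists_transversal_set (g : Equiv.Perm V) (W : Set V)
    (hW : ∀ u ∈ W, ∀ v ∈ W, g.SameCycle u v → u = v) :
    ∃ ρ : V → V, (∀ x, g.SameCycle x (ρ x)) ∧ (∀ x y, g.SameCycle x y → ρ x = ρ y) ∧
      ∀ u ∈ W, ρ u = u := by
  classical
  obtain ⟨ρ, h1, h2⟩ := exists_transversal g
  let τ : V → V := fun x => if h : ∃ t ∈ W, g.SameCycle x t then h.choose else ρ x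
  have hτ : ∀ x, (∃ t ∈ W, g.SameCycle x t) → τ x ∈ W ∧ g.SameCycle x (τ x) := by
    intro x h
    have : τ x = h.choose := dif_pos h
    rw [this]
    exact h.choose_spec
  have hτ' : ∀ x, (¬ ∃ t ∈ W, g.SameCycle x t) → τ x = ρ x := fun x h => dif_neg h
  refine ⟨τ, ?_, ?_, ?_⟩
  · intro x
    by_cases h : ∃ t ∈ W, g.SameCycle x t
    · exact (hτ x h).2
    · rw [hτ' x h]; exact h1 x
  · intro x y hxy
    by_cases h : ∃ t ∈ W, g.SameCycle x t
    · have h' : ∃ t ∈ W, g.SameCycle y t := by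
        obtain ⟨t, ht, hs⟩ := h
        exact ⟨t, ht, hxy.symm.trans hs⟩
      obtain ⟨a1, a2⟩ := hτ x h
      obtain ⟨b1, b2⟩ := hτ y h'
      exact hW _ a1 _ b1 ((a2.symm.trans hxy).trans b2)
    · have h' : ¬ ∃ t ∈ W, g.SameCycle y t := by
        rintro ⟨t, ht, hs⟩
        exact h ⟨t, ht, hxy.trans hs⟩
      rw [hτ' x h, hτ' y h']
      exact h2 x y hxy
  · intro u hu
    obtain ⟨a1, a2⟩ := hτ u ⟨u, hu, Equiv.Perm.SameCycle.refl _ _⟩
    exact (hW _ hu _ a1 a2).symm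

/-- A proper colouring from disjoint nonadjacent pairs. -/
theorem colorable_of_pairs [Fintype V] {G : SimpleGraph V} (F : Finset (V × V))
    (h1 : ∀ p ∈ F, p.1 ≠ p.2 ∧ ¬ G.Adj p.1 p.2)
    (h2 : ∀ p ∈ F, ∀ q ∈ F, p ≠ q → p.1 ≠ q.1 ∧ p.1 ≠ q.2 ∧ p.2 ≠ q.1 ∧ p.2 ≠ q.2)
    {k : ℕ} (hk : Fintype.card V ≤ k + F.card) : G.Colorable k := by
  classical
  let S : Finset V := F.image Prod.snd
  have hS : S.card = F.card := by
    apply Finset.card_image_of_injOn
    intro p hp q hq hpq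
    by_contra hne
    exact (h2 p hp q hq hne).2.2.2 hpq
  have hfst : ∀ p ∈ F, p.1 ∈ Sᶜ := by
    intro p hp
    rw [Finset.mem_compl]
    intro h
    obtain ⟨q, hq, hqp⟩ := Finset.mem_image.mp h
    by_cases hpq : p = q
    · subst hpq
      exact (h1 p hp).1 hqp.symm
    · exact (h2 p hp q hq hpq).2.1 hqp.symm
  let c : V → {z // z ∈ Sᶜ} := fun x =>
    if h : ∃ p ∈ F, p.2 = x then ⟨h.choose.1, hfst _ h.choose_spec.1⟩
    else ⟨x, by
      rw [Finset.mem_compl]
      intro h'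
      obtain ⟨q, hq, hqp⟩ := Finset.mem_image.mp h'
      exact h ⟨q, hq, hqp⟩⟩
  have hc1 : ∀ x, (∃ p ∈ F, p.2 = x) → ∃ p ∈ F, p.2 = x ∧ (c x).1 = p.1 := by
    intro x h
    refine ⟨h.choose, h.choose_spec.1, h.choose_spec.2, ?_⟩
    simp only [c]
    rw [dif_pos h]
  have hc2 : ∀ x, (¬ ∃ p ∈ F, p.2 = x) → (c x).1 = x := by
    intro x h
    simp only [c]
    rw [dif_neg h]
  have hcol : G.Coloring {z // z ∈ Sᶜ} := by
    refine SimpleGraph.Coloring.mk c ?_
    intro x y hxy hcc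
    have hcc' : (c x).1 = (c y).1 := by rw [hcc]
    by_cases hx : ∃ p ∈ F, p.2 = x <;> by_cases hy : ∃ p ∈ F, p.2 = y
    · obtain ⟨p, hp, hp1, hp2⟩ := hc1 x hx
      obtain ⟨q, hq, hq1, hq2⟩ := hc1 y hy
      by_cases hpq : p = q
      · subst hpq
        exact hxy.ne (hp1.symm.trans hq1)
      · exact (h2 p hp q hq hpq).1 (by rw [← hp2, ← hq2, hcc'])
    · obtain ⟨p, hp, hp1, hp2⟩ := hc1 x hx
      rw [hc2 y hy, hp2] at hcc'
      apply (h1 p hp).2
      rw [hcc', hp1]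
      exact hxy.symm
    · obtain ⟨q, hq, hq1, hq2⟩ := hc1 y hy
      rw [hc2 x hx, hq2] at hcc'
      apply (h1 q hq).2
      rw [← hcc', hq1]
      exact hxy
    · rw [hc2 x hx, hc2 y hy] at hcc'
      exact hxy.ne hcc'
  have hcard : Fintype.card {z // z ∈ Sᶜ} ≤ k := by
    rw [Fintype.card_coe, Finset.card_compl, hS]
    omega
  exact hcol.colorable.mono hcard

section ext

variable [Fintype V] {G : SimpleGraph V} (hα : AlphaTwo G) {g : Equiv.Perm V} (hg : IsAut G g)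
  (h2 : ∀ x, Gᶜ.Adj x (g (g x)))

/-- All pairs along `g` and a few extra pairs. -/
theorem card_PE (g : Equiv.Perm V) (E : Finset (V × V))
    (hW : ∀ p ∈ E, ∀ q ∈ E, (g.SameCycle p.1 q.1 → p.1 = q.1) ∧
      (g.SameCycle p.1 q.2 → p.1 = q.2) ∧ (g.SameCycle p.2 q.2 → p.2 = q.2))
    (hodd : ∀ x, Odd (Function.minimalPeriod g x))
    (hcyc : ∀ f : Fin (2 * E.card + 2) → V, ∃ i j, i ≠ j ∧ g.SameCycle (f i) (f j)) :
    ∃ P : Finset V, (∀ x ∈ P, g x ∉ P) ∧
      (∀ p ∈ E, (p.1 ∉ P ∧ ∀ y ∈ P, g y ≠ p.1) ∧ (p.2 ∉ P ∧ ∀ y ∈ P, g y ≠ p.2)) ∧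
      Fintype.card V ≤ 2 * (P.card + E.card) + 1 := by
  classical
  let W : Set V := {x | ∃ p ∈ E, x = p.1 ∨ x = p.2}
  have hWW : ∀ u ∈ W, ∀ v ∈ W, g.SameCycle u v → u = v := by
    rintro u ⟨p, hp, rfl | rfl⟩ v ⟨q, hq, rfl | rfl⟩ hs
    · exact (hW p hp q hq).1 hs
    · exact (hW p hp q hq).2.1 hs
    · exact ((hW q hq p hp).2.1 hs.symm).symm
    · exact (hW p hp q hq).2.2 hs
  obtain ⟨ρ, hρ1, hρ2, hρW⟩ := exists_transversal_set g W hWW
  obtain ⟨P, L, hP, hLP, hL, hc⟩ := exists_alt' g hρ1 hρ2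
  have hWL : ∀ x ∈ W, x ∈ L := fun x hx => (hL x).mpr ⟨hρW x hx, hodd x⟩
  refine ⟨P, hP, ?_, ?_⟩
  · intro p hp
    exact ⟨hLP _ (hWL _ ⟨p, hp, Or.inl rfl⟩), hLP _ (hWL _ ⟨p, hp, Or.inr rfl⟩)⟩
  · have hL3 : L.card ≤ 2 * E.card + 1 := by
      by_contra hlt
      have hc4 : Fintype.card (Fin (2 * E.card + 2)) ≤ Fintype.card L := by
        rw [Fintype.card_fin, Fintype.card_coe]; omega
      obtain ⟨f⟩ := Function.Embedding.nonempty_of_card_le hc4
      obtain ⟨i, j, hij, hs⟩ := hcyc (fun i => (f i).1)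
      apply hij
      apply f.injective
      apply Subtype.ext
      rw [← ((hL _).mp (f i).2).1, ← ((hL _).mp (f j).2).1]
      exact hρ2 _ _ hs
    omega

include hα hg h2 in
theorem minor_E (E : Finset (V × V)) (hE1 : ∀ p ∈ E, G.Adj p.1 p.2)
    (hE2 : ∀ p ∈ E, ∀ q ∈ E, p ≠ q → Good G p q)
    (hE3 : ∀ p ∈ E, ∀ y, y ≠ p.1 → g y ≠ p.1 → y ≠ p.2 → g y ≠ p.2 → Good G (y, g y) p)
    (hW : ∀ p ∈ E, ∀ q ∈ E, (g.SameCycle p.1 q.1 → p.1 = q.1) ∧
      (g.SameCycle p.1 q.2 → p.1 = q.2) ∧ (g.SameCycle p.2 q.2 → p.2 = q.2))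
    (hodd : ∀ x, Odd (Function.minimalPeriod g x))
    (hcyc : ∀ f : Fin (2 * E.card + 2) → V, ∃ i j, i ≠ j ∧ g.SameCycle (f i) (f j)) :
    CliqueMinor G (Fintype.card V / 2) := by
  classical
  obtain ⟨P, hP, hPE, hc⟩ := card_PE g E hW hodd hcyc
  have hgd : ∀ q ∈ E, ∀ p ∈ P.image (fun x => (x, g x)), Good G p q := by
    intro q hq p hp
    obtain ⟨x, hx, rfl⟩ := Finset.mem_image.mp hp
    obtain ⟨hu, hv⟩ := hPE q hq
    exact hE3 q hq x (fun h => hu.1 (h ▸ hx)) (hu.2 x hx) (fun h => hv.1 (h ▸ hx)) (hv.2 x hx)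
  have hdisj : Disjoint (P.image fun x => (x, g x)) E := by
    rw [Finset.disjoint_left]
    intro p hp hpE
    obtain ⟨x, hx, rfl⟩ := Finset.mem_image.mp hp
    exact (hPE _ hpE).1.1 hx
  refine minor_of_pairs ((P.image fun x => (x, g x)) ∪ E) ?_ ?_ ?_
  · intro p hp
    rcases Finset.mem_union.mp hp with hp | hp
    · obtain ⟨x, -, rfl⟩ := Finset.mem_image.mp hp
      exact adj_shift hα hg h2 x
    · exact hE1 p hp
  · intro p hp q hq hpq
    rcases Finset.mem_union.mp hp with hp | hp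
    · rcases Finset.mem_union.mp hq with hq | hq
      · obtain ⟨x, hx, rfl⟩ := Finset.mem_image.mp hp
        obtain ⟨y, hy, rfl⟩ := Finset.mem_image.mp hq
        refine good_shift hα hg h2 (fun h => hpq (by rw [h])) ?_ ?_
        · rintro rfl
          exact hP y hy hx
        · rintro rfl
          exact hP x hx hy
      · exact hgd q hq p hp
    · rcases Finset.mem_union.mp hq with hq | hq
      · exact (hgd p hp q hq).symm
      · exact hE2 p hp q hq hpq
  · rw [Finset.card_union_of_disjoint hdisj, Finset.card_image_of_injective]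
    · omega
    · intro x y hxy
      exact (Prod.mk.inj hxy).1

/-- the shape of an extra pair -/
def Extra (G : SimpleGraph V) (g : Equiv.Perm V) (p : V × V) : Prop :=
  ¬ Gᶜ.Adj p.1 p.2 ∧ ∃ w, Gᶜ.Adj p.1 w ∧ (p.2 = g w ∨ g p.2 = w)

include hα hg h2 in
/-- at most one of three consecutive shifts is bad -/
theorem window {p : V × V} (hp : Extra G g p) {t : V} {i j : ℕ} (hij : i < j) (hj : j ≤ i + 2)
    (h1 : Gᶜ.Adj p.1 ((g ^ i) t)) (h1' : Gᶜ.Adj p.2 ((g ^ i) t))
    (h3 : Gᶜ.Adj p.1 ((g ^ j) t)) (h3' : Gᶜ.Adj p.2 ((g ^ j) t)) : False := by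
  obtain ⟨-, w, hw, hv⟩ := hp
  have e1 : (g ^ (i + 1)) t = g ((g ^ i) t) := by rw [pow_succ']; rfl
  have e2 : (g ^ (i + 2)) t = g (g ((g ^ i) t)) := by rw [pow_succ', pow_succ']; rfl
  have hcase : j = i + 1 ∨ j = i + 2 := by omega
  rcases hcase with rfl | rfl
  · rw [e1] at h3 h3'
    rcases hv with hv | hv
    · rw [hv, compl_map hg] at h3'
      exact tri hα h1 h3'.symm hw
    · have h5 : Gᶜ.Adj w (g ((g ^ i) t)) := by
        rw [← hv]
        exact (compl_map hg).mpr h1'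
      exact tri hα h3 h5.symm hw
  · rw [e2] at h3
    exact tri hα h1 (h2 _) h3

theorem extra_shift (hg : IsAut G g) {p : V × V} (hp : Extra G g p) (j : ℕ) :
    Extra G g ((g ^ j) p.1, (g ^ j) p.2) := by
  obtain ⟨h1, w, hw, hv⟩ := hp
  have hgj := hg.pow j
  have hcomm : ∀ x, (g ^ j) (g x) = g ((g ^ j) x) := by
    intro x
    rw [← Equiv.Perm.mul_apply, ← Equiv.Perm.mul_apply, ← pow_succ, ← pow_succ']
  refine ⟨fun h => h1 ((compl_map hgj).mp h), (g ^ j) w, (compl_map hgj).mpr hw, ?_⟩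
  rcases hv with hv | hv
  · left
    show (g ^ j) p.2 = g ((g ^ j) w)
    rw [hv, hcomm]
  · right
    show g ((g ^ j) p.2) = (g ^ j) w
    rw [← hcomm, hv]

include hα hg h2 in
theorem exists_ext {q : ℕ} (hq : q ≤ 3) (u w : ℕ → V) (hadj : ∀ i < q, Gᶜ.Adj (u i) (w i))
    (c1 : ∀ i < q, ∀ j < q, g.SameCycle (u i) (u j) → i = j)
    (c2 : ∀ i < q, ∀ j < q, g.SameCycle (w i) (w j) → i = j)
    (c3 : ∀ i < q, ∀ j < q, ¬ g.SameCycle (u i) (w j)) :
    ∀ m ≤ q, ∃ p : ℕ → V × V,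
      (∀ i < m, g.SameCycle (u i) (p i).1 ∧ g.SameCycle (w i) (p i).2 ∧ Extra G g (p i)) ∧
      ∀ i < m, ∀ j < m, i ≠ j → Good G (p i) (p j) := by
  classical
  intro m
  induction m with
  | zero =>
    intro _
    exact ⟨fun _ => (u 0, u 0), fun i hi => absurd hi (Nat.not_lt_zero i),
      fun i hi => absurd hi (Nat.not_lt_zero i)⟩
  | succ m ih =>
    intro hm
    obtain ⟨p, hp1, hp2⟩ := ih (by omega)
    have hmq : m < q := by omega
    obtain ⟨v, hv, hv'⟩ := exists_sign hα h2 (u m) (w m)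
    have hvw : g.SameCycle (w m) v := by
      rcases hv with rfl | h
      · exact ⟨1, by simp⟩
      · exact Equiv.Perm.SameCycle.symm ⟨1, by simpa using h⟩
    have hex0 : Extra G g (u m, v) := ⟨hv', w m, hadj m hmq, hv⟩
    -- the new pair, shifted
    obtain ⟨s, hs⟩ : ∃ s : ℕ, ∀ i < m, Good G (p i) ((g ^ s) (u m), (g ^ s) v) := by
      by_contra hcon
      push Not at hcon
      choose I hI1 hI2 using hcon
      have hbad : ∀ s : ℕ, Gᶜ.Adj (p (I s)).1 ((g ^ s) (u m)) ∧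
          Gᶜ.Adj (p (I s)).2 ((g ^ s) (u m)) := by
        intro s
        have hlt := hI1 s
        obtain ⟨a1, a2, -⟩ := hp1 (I s) hlt
        have hs1 : g.SameCycle (u m) ((g ^ s) (u m)) := ⟨s, by simp⟩
        have hs2 : g.SameCycle v ((g ^ s) v) := ⟨s, by simp⟩
        have n1 : (p (I s)).1 ≠ (g ^ s) (u m) := by
          intro h
          have : g.SameCycle (u (I s)) (u m) := a1.trans (h ▸ hs1.symm)
          have := c1 _ (by omega) _ hmq this
          omega
        have n2 : (p (I s)).1 ≠ (g ^ s) v := by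
          intro h
          exact c3 (I s) (by omega) m hmq (a1.trans ((h ▸ hs2.symm : g.SameCycle _ v).trans hvw.symm))
        have n3 : (p (I s)).2 ≠ (g ^ s) (u m) := by
          intro h
          exact c3 m hmq (I s) (by omega) ((a2.trans (h ▸ hs1.symm)).symm)
        have n4 : (p (I s)).2 ≠ (g ^ s) v := by
          intro h
          have : g.SameCycle (w (I s)) (w m) := a2.trans ((h ▸ hs2.symm : g.SameCycle _ v).trans hvw.symm)
          have := c2 _ (by omega) _ hmq this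
          omega
        have hng := hI2 s
        constructor
        · refine ⟨n1, fun h => hng ⟨n1, n2, n3, n4, Or.inl h⟩⟩
        · refine ⟨n3, fun h => hng ⟨n1, n2, n3, n4, Or.inr (Or.inr (Or.inl h))⟩⟩
      have hinj : Function.Injective (fun s : Fin 3 => (⟨I s, hI1 s⟩ : Fin m)) := by
        intro s t hst
        have hst' : I s = I t := by simpa using hst
        by_contra hne
        have hne' : (s : ℕ) ≠ t := fun h => hne (Fin.ext h)
        obtain ⟨b1, b2⟩ := hbad s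
        obtain ⟨b3, b4⟩ := hbad t
        rw [hst'] at b1 b2
        have hX := (hp1 (I t) (hI1 t)).2.2
        rcases lt_or_gt_of_ne hne' with h | h
        · exact window hα hg h2 hX h (by omega) b1 b2 b3 b4
        · exact window hα hg h2 hX h (by omega) b3 b4 b1 b2
      have := Fintype.card_le_of_injective _ hinj
      rw [Fintype.card_fin, Fintype.card_fin] at this
      omega
    refine ⟨fun i => if i = m then ((g ^ s) (u m), (g ^ s) v) else p i, ?_, ?_⟩
    · intro i hi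
      by_cases him : i = m
      · subst him
        simp only [if_true]
        exact ⟨⟨s, by simp⟩, hvw.trans ⟨s, by simp⟩, extra_shift hg hex0 s⟩
      · simp only [him, if_false]
        exact hp1 i (by omega)
    · intro i hi j hj hij
      by_cases him : i = m
      · have hjm : j ≠ m := fun h => hij (him.trans h.symm)
        simp only [him, hjm, if_true, if_false]
        exact (hs j (by omega)).symm
      · by_cases hjm : j = m
        · simp only [him, hjm, if_true, if_false]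
          exact hs i (by omega)
        · simp only [him, hjm, if_false]
          exact hp2 i (by omega) j (by omega) hij

include hα hg h2 in
/-- All cycles odd, at most `2q+1` of them (`q ≤ 3`), `2q` of which are paired by edges of the
complement. -/
theorem minor_ext {q : ℕ} (hq : q ≤ 3) (u w : ℕ → V) (hadj : ∀ i < q, Gᶜ.Adj (u i) (w i))
    (c1 : ∀ i < q, ∀ j < q, g.SameCycle (u i) (u j) → i = j)
    (c2 : ∀ i < q, ∀ j < q, g.SameCycle (w i) (w j) → i = j)
    (c3 : ∀ i < q, ∀ j < q, ¬ g.SameCycle (u i) (w j))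
    (hodd : ∀ x, Odd (Function.minimalPeriod g x))
    (hcyc : ∀ f : Fin (2 * q + 2) → V, ∃ i j, i ≠ j ∧ g.SameCycle (f i) (f j)) :
    CliqueMinor G (Fintype.card V / 2) := by
  classical
  obtain ⟨p, hp1, hp2⟩ := exists_ext hα hg h2 hq u w hadj c1 c2 c3 q le_rfl
  let E : Finset (V × V) := (Finset.range q).image p
  have hE : E.card = q := by
    rw [Finset.card_image_of_injOn, Finset.card_range]
    intro i hi j hj hij
    by_contra hne
    exact (hp2 i (by simpa using hi) j (by simpa using hj) hne).1 (by rw [hij])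
  have hmem : ∀ x ∈ E, ∃ i < q, p i = x := by
    intro x hx
    obtain ⟨i, hi, rfl⟩ := Finset.mem_image.mp hx
    exact ⟨i, by simpa using hi, rfl⟩
  refine minor_E hα hg h2 E ?_ ?_ ?_ ?_ hodd ?_
  · intro x hx
    obtain ⟨i, hi, rfl⟩ := hmem x hx
    obtain ⟨a1, a2, a3⟩ := hp1 i hi
    refine adj_of_not_compl ?_ a3.1
    intro h
    exact c3 i hi i hi (a1.trans (h ▸ a2.symm))
  · intro x hx y hy hxy
    obtain ⟨i, hi, rfl⟩ := hmem x hx
    obtain ⟨j, hj, rfl⟩ := hmem y hy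
    exact hp2 i hi j hj (fun h => hxy (by rw [h]))
  · intro x hx y e1 e2 e3 e4
    obtain ⟨i, hi, rfl⟩ := hmem x hx
    obtain ⟨-, -, -, w', hw', hv'⟩ := hp1 i hi
    exact good_extra hα hg hw' hv' e1 e2 e3 e4
  · intro x hx y hy
    obtain ⟨i, hi, rfl⟩ := hmem x hx
    obtain ⟨j, hj, rfl⟩ := hmem y hy
    obtain ⟨a1, a2, -⟩ := hp1 i hi
    obtain ⟨b1, b2, -⟩ := hp1 j hj
    refine ⟨?_, ?_, ?_⟩
    · intro h
      have := c1 i hi j hj ((a1.trans h).trans b1.symm)
      rw [this]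
    · intro h
      exact absurd ((a1.trans h).trans b2.symm) (c3 i hi j hj)
    · intro h
      have := c2 i hi j hj ((a2.trans h).trans b2.symm)
      rw [this]
  · rw [hE]; exact hcyc

end ext

end Pool.Agent.TH351.Shift
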