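import Mathlib
import Pool.Agent.TH351.ShiftB

set_option autoImplicit false

namespace Pool.Agent.TH351.Shift

open Pool.Agent.H484R3.Circ Finset

section color

variable {V : Type*} [Fintype V] {G : SimpleGraph V}

theorem color_E {h : Equiv.Perm V} (hh : ∀ x, x ≠ h x ∧ ¬ G.Adj x (h x)) (E : Finset (V × V))
    (hE1 : ∀ p ∈ E, p.1 ≠ p.2 ∧ ¬ G.Adj p.1 p.2)
    (hE2 : ∀ p ∈ E, ∀ q ∈ E, p ≠ q → p.1 ≠ q.1 ∧ p.1 ≠ q.2 ∧ p.2 ≠ q.1 ∧ p.2 ≠ q.2)
    (hW : ∀ p ∈ E, ∀ q ∈ E, (h.SameCycle p.1 q.1 → p.1 = q.1) ∧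
      (h.SameCycle p.1 q.2 → p.1 = q.2) ∧ (h.SameCycle p.2 q.2 → p.2 = q.2))
    (hodd : ∀ x, Odd (Function.minimalPeriod h x))
    (hcyc : ∀ f : Fin (2 * E.card + 2) → V, ∃ i j, i ≠ j ∧ h.SameCycle (f i) (f j)) :
    G.Colorable (Fintype.card V / 2 + 1) := by
  classical
  obtain ⟨P, hP, hPE, hc⟩ := card_PE h E hW hodd hcyc
  have hdisj : Disjoint (P.image fun x => (x, h x)) E := by
    rw [Finset.disjoint_left]
    intro p hp hpE
    obtain ⟨x, hx, rfl⟩ := Finset.mem_image.mp hp
    exact (hPE _ hpE).1.1 hx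
  have hgd : ∀ q ∈ E, ∀ x ∈ P, x ≠ q.1 ∧ x ≠ q.2 ∧ h x ≠ q.1 ∧ h x ≠ q.2 := by
    intro q hq x hx
    obtain ⟨hu, hv⟩ := hPE q hq
    exact ⟨fun e => hu.1 (e ▸ hx), fun e => hv.1 (e ▸ hx), hu.2 x hx, hv.2 x hx⟩
  have hcard : ((P.image fun x => (x, h x)) ∪ E).card = P.card + E.card := by
    rw [Finset.card_union_of_disjoint hdisj, Finset.card_image_of_injective]
    intro x y hxy
    exact (Prod.mk.inj hxy).1
  refine colorable_of_pairs ((P.image fun x => (x, h x)) ∪ E) ?_ ?_ ?_
  · intro p hp
    rcases Finset.mem_union.mp hp with hp | hp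
    · obtain ⟨x, -, rfl⟩ := Finset.mem_image.mp hp
      exact hh x
    · exact hE1 p hp
  · intro p hp q hq hpq
    rcases Finset.mem_union.mp hp with hp | hp
    · obtain ⟨x, hx, rfl⟩ := Finset.mem_image.mp hp
      rcases Finset.mem_union.mp hq with hq | hq
      · obtain ⟨y, hy, rfl⟩ := Finset.mem_image.mp hq
        have hxy : x ≠ y := fun e => hpq (by rw [e])
        refine ⟨hxy, ?_, ?_, h.injective.ne hxy⟩
        · intro e
          have e' : x = h y := e
          exact hP y hy (e' ▸ hx)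
        · intro e
          have e' : h x = y := e
          exact hP x hx (e' ▸ hy)
      · exact hgd q hq x hx
    · rcases Finset.mem_union.mp hq with hq | hq
      · obtain ⟨x, hx, rfl⟩ := Finset.mem_image.mp hq
        obtain ⟨a, b, c, d⟩ := hgd p hp x hx
        exact ⟨a.symm, c.symm, b.symm, d.symm⟩
      · exact hE2 p hp q hq hpq
  · rw [hcard]
    omega

end color

section cay

variable {A : Type*} [AddCommGroup A]

theorem pow_addRight (d : A) (j : ℕ) (x : A) : ((Equiv.addRight d) ^ j) x = x + j • d := by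
  induction j with
  | zero => simp
  | succ j ih =>
    rw [pow_succ', Equiv.Perm.mul_apply, ih, Equiv.coe_addRight, succ_nsmul]
    abel

theorem isAut_addRight {G : SimpleGraph A} (hG : TransInv G) (d : A) :
    IsAut G (Equiv.addRight d) := by
  intro x y
  exact hG x y d

theorem sameCycle_iff [Finite A] {d b : A} (hdb : d + d = b) (hd : d ∈ AddSubgroup.zmultiples b)
    (x y : A) : (Equiv.addRight d).SameCycle x y ↔ y - x ∈ AddSubgroup.zmultiples b := by
  constructor
  · intro h
    obtain ⟨m, hm⟩ := h.exists_nat_pow_eq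
    rw [pow_addRight] at hm
    rw [← hm, add_sub_cancel_left]
    exact AddSubgroup.nsmul_mem _ hd m
  · intro h
    obtain ⟨m, hm⟩ := (AddSubgroup.mem_zmultiples_iff).mp h
    obtain ⟨m', hm'⟩ : ∃ m' : ℕ, m' • b = m • b := by
      have : m • b ∈ AddSubmonoid.multiples b := by
        rw [mem_multiples_iff_mem_zmultiples]
        exact ⟨m, rfl⟩
      exact (AddSubmonoid.mem_multiples_iff _ _).mp this
    refine ⟨((2 * m' : ℕ) : ℤ), ?_⟩
    rw [zpow_natCast, pow_addRight, mul_comm, mul_smul, two_smul, hdb, hm', hm]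
    abel

theorem sameCycle_iff' [Finite A] {b : A} (x y : A) :
    (Equiv.addRight b).SameCycle x y ↔ y - x ∈ AddSubgroup.zmultiples b := by
  constructor
  · intro h
    obtain ⟨m, hm⟩ := h.exists_nat_pow_eq
    rw [pow_addRight] at hm
    rw [← hm, add_sub_cancel_left]
    exact AddSubgroup.nsmul_mem _ (AddSubgroup.mem_zmultiples b) m
  · intro h
    obtain ⟨m, hm⟩ := (AddSubgroup.mem_zmultiples_iff).mp h
    obtain ⟨m', hm'⟩ : ∃ m' : ℕ, m' • b = m • b := by
      have : m • b ∈ AddSubmonoid.multiples b := by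
        rw [mem_multiples_iff_mem_zmultiples]
        exact ⟨m, rfl⟩
      exact (AddSubmonoid.mem_multiples_iff _ _).mp this
    refine ⟨(m' : ℤ), ?_⟩
    rw [zpow_natCast, pow_addRight, hm', hm]
    abel

theorem odd_period [Fintype A] (hodd : Odd (Fintype.card A)) (d x : A) :
    Odd (Function.minimalPeriod (Equiv.addRight d) x) := by
  refine Odd.of_dvd_nat hodd (Function.IsPeriodicPt.minimalPeriod_dvd ?_)
  rw [Function.IsPeriodicPt, Function.IsFixedPt, Equiv.Perm.iterate_eq_pow, pow_addRight,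
    card_nsmul_eq_zero, add_zero]

theorem odd_index [Fintype A] {G : SimpleGraph A} (hG : TransInv G) (hα : AlphaTwo G)
    (hodd : Odd (Fintype.card A)) {b c : A} (hb0 : b ≠ 0) (hb : ¬ G.Adj 0 b)
    (hc : ¬ G.Adj 0 c) (hcb : c ∉ AddSubgroup.zmultiples b)
    (hidx : Fintype.card A ≤ 7 * addOrderOf b) :
    CliqueMinor G (Fintype.card A / 2) ∧ G.Colorable (Fintype.card A / 2 + 1) := by
  classical
  -- the index
  let D := AddSubgroup.zmultiples b
  have hcardD : Nat.card D = addOrderOf b := Nat.card_zmultiples b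
  have hmul : addOrderOf b * D.index = Fintype.card A := by
    rw [← hcardD, AddSubgroup.card_mul_index, Nat.card_eq_fintype_card]
  have hordpos : 0 < addOrderOf b := addOrderOf_pos b
  have hr7 : D.index ≤ 7 := by
    have : addOrderOf b * D.index ≤ addOrderOf b * 7 := by rw [hmul]; omega
    exact Nat.le_of_mul_le_mul_left this hordpos
  have hrodd : Odd D.index := Odd.of_dvd_nat hodd ⟨addOrderOf b, by rw [← hmul, mul_comm]⟩
  have hr1 : D.index ≠ 1 := by
    intro h
    rw [AddSubgroup.index_eq_one] at h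
    apply hcb
    show c ∈ D
    rw [h]; trivial
  obtain ⟨q, hq⟩ := hrodd
  have hq3 : q ≤ 3 := by omega
  have hrprime : (D.index).Prime := by
    have : q = 1 ∨ q = 2 ∨ q = 3 := by omega
    rcases this with rfl | rfl | rfl <;> rw [hq] <;> norm_num
  have hcardQ : Nat.card (A ⧸ D) = D.index := rfl
  have hord : addOrderOf (QuotientAddGroup.mk c : A ⧸ D) = D.index := by
    have h1 : addOrderOf (QuotientAddGroup.mk c : A ⧸ D) ∣ D.index := by
      rw [← hcardQ]; exact addOrderOf_dvd_natCard _
    rcases (Nat.dvd_prime hrprime).mp h1 with h | h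
    · rw [AddMonoid.addOrderOf_eq_one_iff, QuotientAddGroup.eq_zero_iff] at h
      exact absurd h hcb
    · exact h
  have key : ∀ m : ℤ, m • c ∈ AddSubgroup.zmultiples b → (D.index : ℤ) ∣ m := by
    intro m hm
    rw [← hord, addOrderOf_dvd_iff_zsmul_eq_zero]
    have : (QuotientAddGroup.mk (m • c) : A ⧸ D) = 0 := (QuotientAddGroup.eq_zero_iff _).mpr hm
    exact this
  have hc0 : c ≠ 0 := by
    rintro rfl
    exact hcb (AddSubgroup.zero_mem _)
  -- the half of b
  obtain ⟨r, hr⟩ := hodd
  have hcbz : (2 * r + 1) • b = 0 := by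
    rw [← hr]; exact card_nsmul_eq_zero
  obtain ⟨d, hdd, hdmem⟩ : ∃ d : A, d + d = b ∧ d ∈ AddSubgroup.zmultiples b := by
    refine ⟨(r + 1) • b, ?_, AddSubgroup.nsmul_mem _ (AddSubgroup.mem_zmultiples b) _⟩
    have : (r + 1) • b + (r + 1) • b = (2 * r + 1) • b + b := by
      rw [← add_smul, ← succ_nsmul]
      congr 1
      ring
    rw [this, hcbz, zero_add]
  have hodd : Odd (Fintype.card A) := ⟨r, hr⟩
  -- pairs of cosets
  have hcH : ∀ x y : A, y - x = c → Gᶜ.Adj x y := by
    intro x y hxy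
    refine ⟨?_, ?_⟩
    · rintro rfl
      exact hc0 (by rw [← hxy, sub_self])
    · rw [adj_iff_sub hG, hxy]
      exact hc
  let u : ℕ → A := fun i => ((2 * i : ℕ) : ℤ) • c
  let w : ℕ → A := fun i => ((2 * i + 1 : ℕ) : ℤ) • c
  have huw : ∀ i, w i - u i = c := by
    intro i
    show ((2 * i + 1 : ℕ) : ℤ) • c - ((2 * i : ℕ) : ℤ) • c = c
    rw [← sub_smul]
    have : ((2 * i + 1 : ℕ) : ℤ) - ((2 * i : ℕ) : ℤ) = 1 := by push_cast; ring
    rw [this, one_smul]
  have k1 : ∀ i < q, ∀ j < q, u j - u i ∈ AddSubgroup.zmultiples b → i = j := by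
    intro i hi j hj h
    have h1 : u j - u i = (((2 * j : ℕ) : ℤ) - ((2 * i : ℕ) : ℤ)) • c := by
      rw [sub_smul]
    rw [h1] at h
    have h3 := key _ h
    rw [hq] at h3
    obtain ⟨t, ht⟩ := h3
    have hb1 : t < 1 := by
      by_contra hcon
      push Not at hcon
      push_cast at ht
      nlinarith
    have hb2 : -1 < t := by
      by_contra hcon
      push Not at hcon
      push_cast at ht
      nlinarith
    have : t = 0 := by omega
    subst this
    omega
  have k2 : ∀ i < q, ∀ j < q, w j - w i ∈ AddSubgroup.zmultiples b → i = j := by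
    intro i hi j hj h
    apply k1 i hi j hj
    have : w j - w i = u j - u i := by
      have e1 := huw i
      have e2 := huw j
      have e1' : w i = c + u i := by rw [← e1]; abel
      have e2' : w j = c + u j := by rw [← e2]; abel
      rw [e1', e2']; abel
    rwa [this] at h
  have k3 : ∀ i < q, ∀ j < q, ¬ w j - u i ∈ AddSubgroup.zmultiples b := by
    intro i hi j hj h
    have h1 : w j - u i = (((2 * j + 1 : ℕ) : ℤ) - ((2 * i : ℕ) : ℤ)) • c := by
      rw [sub_smul]
    rw [h1] at h
    have h3 := key _ h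
    rw [hq] at h3
    obtain ⟨t, ht⟩ := h3
    have hb1 : t < 1 := by
      by_contra hcon
      push Not at hcon
      push_cast at ht
      nlinarith
    have hb2 : -1 < t := by
      by_contra hcon
      push Not at hcon
      push_cast at ht
      nlinarith
    have : t = 0 := by omega
    subst this
    push_cast at ht
    omega
  have hpig : ∀ f : Fin (2 * q + 2) → A, ∃ i j, i ≠ j ∧
      f j - f i ∈ AddSubgroup.zmultiples b := by
    intro f
    have hfin : Finite (A ⧸ D) := inferInstance
    have : Fintype (A ⧸ D) := Fintype.ofFinite _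
    have hlt : Fintype.card (A ⧸ D) < Fintype.card (Fin (2 * q + 2)) := by
      rw [Fintype.card_fin, ← Nat.card_eq_fintype_card, hcardQ, hq]
      omega
    obtain ⟨i, j, hij, h⟩ := Fintype.exists_ne_map_eq_of_card_lt
      (fun i => (QuotientAddGroup.mk (f i) : A ⧸ D)) hlt
    refine ⟨i, j, hij, ?_⟩
    have h' := QuotientAddGroup.eq.mp h
    have : f j - f i = -f i + f j := by abel
    rw [this]
    exact h'
  constructor
  · refine minor_ext (g := Equiv.addRight d) hα (isAut_addRight hG d) ?_ hq3 u w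
      (fun i _ => hcH _ _ (huw i)) ?_ ?_ ?_ (fun x => odd_period hodd d x) ?_
    · intro x
      have hx : (Equiv.addRight d) ((Equiv.addRight d) x) = x + b := by
        show x + d + d = x + b
        rw [add_assoc, hdd]
      rw [hx]
      refine ⟨fun h => hb0 ?_, ?_⟩
      · have : x + 0 = x + b := by rw [add_zero]; exact h
        exact (add_left_cancel this).symm
      · rw [adj_iff_sub hG, add_sub_cancel_left]
        exact hb
    · intro i hi j hj h
      exact k1 i hi j hj ((sameCycle_iff hdd hdmem _ _).mp h)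
    · intro i hi j hj h
      exact k2 i hi j hj ((sameCycle_iff hdd hdmem _ _).mp h)
    · intro i hi j hj h
      exact k3 i hi j hj ((sameCycle_iff hdd hdmem _ _).mp h)
    · intro f
      obtain ⟨i, j, hij, h⟩ := hpig f
      exact ⟨i, j, hij, (sameCycle_iff hdd hdmem _ _).mpr h⟩
  · let E : Finset (A × A) := (Finset.range q).image fun i => (u i, w i)
    have hE : E.card = q := by
      rw [Finset.card_image_of_injOn, Finset.card_range]
      intro i hi j hj hij
      have : u i = u j := (Prod.mk.inj hij).1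
      exact k1 i (by simpa using hi) j (by simpa using hj)
        (by rw [this, sub_self]; exact AddSubgroup.zero_mem _)
    have hmem : ∀ x ∈ E, ∃ i < q, (u i, w i) = x := by
      intro x hx
      obtain ⟨i, hi, rfl⟩ := Finset.mem_image.mp hx
      exact ⟨i, by simpa using hi, rfl⟩
    have hz : ∀ x y : A, x = y → y - x ∈ AddSubgroup.zmultiples b := by
      rintro x y rfl
      rw [sub_self]; exact AddSubgroup.zero_mem _
    refine color_E (h := Equiv.addRight b) ?_ E ?_ ?_ ?_ (fun x => odd_period hodd b x) ?_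
    · intro x
      refine ⟨fun h => hb0 ?_, ?_⟩
      · have : x + 0 = x + b := by rw [add_zero]; exact h
        exact (add_left_cancel this).symm
      · show ¬ G.Adj x (x + b)
        rw [adj_iff_sub hG, add_sub_cancel_left]
        exact hb
    · intro p hp
      obtain ⟨i, hi, rfl⟩ := hmem p hp
      exact hcH _ _ (huw i)
    · intro p hp p' hp' hpp
      obtain ⟨i, hi, rfl⟩ := hmem p hp
      obtain ⟨j, hj, rfl⟩ := hmem p' hp'
      have hij : i ≠ j := fun h => hpp (by rw [h])
      refine ⟨fun h => hij (k1 i hi j hj (hz _ _ h)), fun h => k3 i hi j hj (hz _ _ h),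
        fun h => k3 j hj i hi (hz _ _ h.symm), fun h => hij (k2 i hi j hj (hz _ _ h))⟩
    · intro p hp p' hp'
      obtain ⟨i, hi, rfl⟩ := hmem p hp
      obtain ⟨j, hj, rfl⟩ := hmem p' hp'
      refine ⟨fun h => ?_, fun h => ?_, fun h => ?_⟩
      · rw [k1 i hi j hj ((sameCycle_iff' _ _).mp h)]
      · exact absurd ((sameCycle_iff' _ _).mp h) (k3 i hi j hj)
      · rw [k2 i hi j hj ((sameCycle_iff' _ _).mp h)]
    · rw [hE]
      intro f
      obtain ⟨i, j, hij, h⟩ := hpig f
      exact ⟨i, j, hij, (sameCycle_iff' _ _).mpr h⟩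

end cay

end Pool.Agent.TH351.Shift
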