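import Mathlib
import Pool.Agent.TH351.CayShift

set_option autoImplicit false

namespace Pool.Agent.TH351.Shift

open Pool.Agent.H484R3.Circ Finset

section cay

variable {A : Type*} [AddCommGroup A] [Fintype A]

theorem exists_half (hodd : Odd (Fintype.card A)) (b : A) :
    ∃ d : A, d + d = b ∧ d ∈ AddSubgroup.zmultiples b := by
  obtain ⟨r, hr⟩ := hodd
  have hcbz : (2 * r + 1) • b = 0 := by
    rw [← hr]; exact card_nsmul_eq_zero
  refine ⟨(r + 1) • b, ?_, AddSubgroup.nsmul_mem _ (AddSubgroup.mem_zmultiples b) _⟩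
  have : (r + 1) • b + (r + 1) • b = (2 * r + 1) • b + b := by
    rw [← add_smul, ← succ_nsmul]
    congr 1
    ring
  rw [this, hcbz, zero_add]

/-- If `b` and `w` generate `A` then `w` has order `[A : <b>]` modulo `<b>`. -/
theorem dvd_of_gen {b w : A} (hgen : AddSubgroup.closure {b, w} = ⊤) (m : ℤ)
    (hm : m • w ∈ AddSubgroup.zmultiples b) : ((AddSubgroup.zmultiples b).index : ℤ) ∣ m := by
  let D := AddSubgroup.zmultiples b
  let w' : A ⧸ D := QuotientAddGroup.mk w
  have htop : AddSubgroup.zmultiples w' = ⊤ := by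
    rw [eq_top_iff]
    intro x _
    obtain ⟨y, rfl⟩ := QuotientAddGroup.mk_surjective x
    have hy : y ∈ AddSubgroup.closure {b, w} := by rw [hgen]; trivial
    rw [AddSubgroup.mem_closure_pair] at hy
    obtain ⟨s, t, rfl⟩ := hy
    refine ⟨t, ?_⟩
    show t • w' = QuotientAddGroup.mk (s • b + t • w)
    have h0 : (QuotientAddGroup.mk (s • b) : A ⧸ D) = 0 :=
      (QuotientAddGroup.eq_zero_iff _).mpr ⟨s, rfl⟩
    rw [QuotientAddGroup.mk_add, h0, zero_add]
    rfl
  have hord : addOrderOf w' = D.index := by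
    rw [← Nat.card_zmultiples, htop, AddSubgroup.card_top]
    rfl
  show (D.index : ℤ) ∣ m
  rw [← hord, addOrderOf_dvd_iff_zsmul_eq_zero]
  have : (QuotientAddGroup.mk (m • w) : A ⧸ D) = 0 := (QuotientAddGroup.eq_zero_iff _).mpr hm
  exact this

theorem pigeon {b : A} {q : ℕ} (hq : (AddSubgroup.zmultiples b).index = 2 * q + 1)
    (f : Fin (2 * q + 2) → A) : ∃ i j, i ≠ j ∧ f j - f i ∈ AddSubgroup.zmultiples b := by
  let D := AddSubgroup.zmultiples b
  have hfin : Finite (A ⧸ D) := inferInstance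
  have : Fintype (A ⧸ D) := Fintype.ofFinite _
  have hlt : Fintype.card (A ⧸ D) < Fintype.card (Fin (2 * q + 2)) := by
    rw [Fintype.card_fin, ← Nat.card_eq_fintype_card]
    show D.index < _
    rw [hq]
    omega
  obtain ⟨i, j, hij, h⟩ := Fintype.exists_ne_map_eq_of_card_lt
    (fun i => (QuotientAddGroup.mk (f i) : A ⧸ D)) hlt
  refine ⟨i, j, hij, ?_⟩
  have h' := QuotientAddGroup.eq.mp h
  have : f j - f i = -f i + f j := by abel
  rw [this]
  exact h'

theorem small_multiple {q : ℕ} {t m : ℤ} (h : m = (2 * (q : ℤ) + 1) * t)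
    (h1 : m < 2 * (q : ℤ) + 1) (h2 : -(2 * (q : ℤ) + 1) < m) : m = 0 := by
  have hb1 : t < 1 := by
    by_contra hcon
    push Not at hcon
    nlinarith
  have hb2 : -1 < t := by
    by_contra hcon
    push Not at hcon
    nlinarith
  have : t = 0 := by omega
  rw [h, this, mul_zero]

/-- separation of the cosets `j w + <b>` -/
theorem sep {b w : A} (hgen : AddSubgroup.closure {b, w} = ⊤) {q : ℕ}
    (hq : (AddSubgroup.zmultiples b).index = 2 * q + 1) {x y : A} {i j : ℕ}
    (hi : i < 2 * q + 1) (hj : j < 2 * q + 1)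
    (hx : x - (i : ℤ) • w ∈ AddSubgroup.zmultiples b)
    (hy : y - (j : ℤ) • w ∈ AddSubgroup.zmultiples b)
    (hxy : y - x ∈ AddSubgroup.zmultiples b) : i = j := by
  have h1 : ((j : ℤ) - i) • w ∈ AddSubgroup.zmultiples b := by
    have : ((j : ℤ) - i) • w = (y - x) - (y - (j : ℤ) • w) + (x - (i : ℤ) • w) := by
      rw [sub_smul]; abel
    rw [this]
    exact AddSubgroup.add_mem _ (AddSubgroup.sub_mem _ hxy hy) hx
  obtain ⟨t, ht⟩ := dvd_of_gen hgen _ h1
  rw [hq] at ht
  push_cast at ht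
  have := small_multiple ht (by omega) (by omega)
  omega

/-- Lemma F -/
theorem minor_F {G : SimpleGraph A} (hG : TransInv G) (hα : AlphaTwo G)
    (hodd : Odd (Fintype.card A)) {b d w η : A} (hdd : d + d = b)
    (hd : d ∈ AddSubgroup.zmultiples b) (hb : Gᶜ.Adj 0 b) (hw : Gᶜ.Adj 0 w)
    (hη : η = w + d ∨ η + d = w) (hη' : ¬ Gᶜ.Adj 0 η)
    (hgen : AddSubgroup.closure {b, w} = ⊤) {q : ℕ}
    (hq : (AddSubgroup.zmultiples b).index = 2 * q + 1) (u : ℕ → A)
    (hu : ∀ i < q, u i - ((2 * i : ℕ) : ℤ) • w ∈ AddSubgroup.zmultiples b)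
    (hno : ∀ i < q, ∀ j < q, i ≠ j → ¬ (Gᶜ.Adj (u i) (u j) ∧ Gᶜ.Adj (u i) (u j + η) ∧
      Gᶜ.Adj (u i + η) (u j))) :
    CliqueMinor G (Fintype.card A / 2) := by
  classical
  have hcompl : ∀ x y : A, Gᶜ.Adj x y ↔ Gᶜ.Adj 0 (y - x) := by
    intro x y
    rw [SimpleGraph.compl_adj, SimpleGraph.compl_adj, adj_iff_sub hG x y]
    have : x ≠ y ↔ (0 : A) ≠ y - x := by
      rw [ne_comm, ← sub_ne_zero, ne_comm]
    rw [this]
  have hbm : b ∈ AddSubgroup.zmultiples b := AddSubgroup.mem_zmultiples b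
  have hv : ∀ i < q, (u i + η) - ((2 * i + 1 : ℕ) : ℤ) • w ∈ AddSubgroup.zmultiples b := by
    intro i hi
    have h1 := hu i hi
    have h2 : η - w ∈ AddSubgroup.zmultiples b := by
      rcases hη with rfl | h
      · rw [add_sub_cancel_left]; exact hd
      · have : η - w = -d := by rw [← h]; abel
        rw [this]; exact AddSubgroup.neg_mem _ hd
    have h3 : (u i + η) - ((2 * i + 1 : ℕ) : ℤ) • w = (u i - ((2 * i : ℕ) : ℤ) • w) + (η - w) := by
      have : ((2 * i + 1 : ℕ) : ℤ) = ((2 * i : ℕ) : ℤ) + 1 := by push_cast; ring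
      rw [this, add_smul, one_smul]; abel
    rw [h3]
    exact AddSubgroup.add_mem _ h1 h2
  have suu : ∀ i < q, ∀ j < q, u j - u i ∈ AddSubgroup.zmultiples b → i = j := by
    intro i hi j hj h
    have := sep hgen hq (i := 2 * i) (j := 2 * j) (by omega) (by omega) (hu i hi) (hu j hj) h
    omega
  have svv : ∀ i < q, ∀ j < q, (u j + η) - (u i + η) ∈ AddSubgroup.zmultiples b → i = j := by
    intro i hi j hj h
    have := sep hgen hq (i := 2 * i + 1) (j := 2 * j + 1) (by omega) (by omega)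
      (hv i hi) (hv j hj) h
    omega
  have suv : ∀ i < q, ∀ j < q, ¬ (u j + η) - u i ∈ AddSubgroup.zmultiples b := by
    intro i hi j hj h
    have := sep hgen hq (i := 2 * i) (j := 2 * j + 1) (by omega) (by omega)
      (hu i hi) (hv j hj) h
    omega
  have hz : ∀ x y : A, x = y → y - x ∈ AddSubgroup.zmultiples b := by
    rintro x y rfl
    rw [sub_self]; exact AddSubgroup.zero_mem _
  let E : Finset (A × A) := (Finset.range q).image fun i => (u i, u i + η)
  have hE : E.card = q := by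
    rw [Finset.card_image_of_injOn, Finset.card_range]
    intro i hi j hj hij
    exact suu i (by simpa using hi) j (by simpa using hj) (hz _ _ (Prod.mk.inj hij).1)
  have hmem : ∀ x ∈ E, ∃ i < q, (u i, u i + η) = x := by
    intro x hx
    obtain ⟨i, hi, rfl⟩ := Finset.mem_image.mp hx
    exact ⟨i, by simpa using hi, rfl⟩
  refine minor_E (g := Equiv.addRight d) hα (isAut_addRight hG d) ?_ E ?_ ?_ ?_ ?_
    (fun x => odd_period hodd d x) ?_
  · intro x
    have hx : (Equiv.addRight d) ((Equiv.addRight d) x) = x + b := by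
      show x + d + d = x + b
      rw [add_assoc, hdd]
    rw [hx, hcompl, add_sub_cancel_left]
    exact hb
  · intro p hp
    obtain ⟨i, hi, rfl⟩ := hmem p hp
    refine adj_of_not_compl ?_ ?_
    · intro h
      exact suv i hi i hi (hz _ _ h)
    · rw [hcompl, add_sub_cancel_left]
      exact hη'
  · intro p hp p' hp' hpp
    obtain ⟨i, hi, rfl⟩ := hmem p hp
    obtain ⟨j, hj, rfl⟩ := hmem p' hp'
    have hij : i ≠ j := fun h => hpp (by rw [h])
    have e1 : u i ≠ u j := fun h => hij (suu i hi j hj (hz _ _ h))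
    have e2 : u i ≠ u j + η := fun h => suv i hi j hj (hz _ _ h)
    have e3 : u i + η ≠ u j := fun h => suv j hj i hi (hz _ _ h.symm)
    have e4 : u i + η ≠ u j + η := fun h => hij (svv i hi j hj (hz _ _ h))
    refine ⟨e1, e2, e3, e4, ?_⟩
    by_contra hcon
    push Not at hcon
    exact hno i hi j hj hij ⟨⟨e1, hcon.1⟩, ⟨e2, hcon.2.1⟩, ⟨e3, hcon.2.2.1⟩⟩
  · intro p hp y e1 e2 e3 e4
    obtain ⟨i, hi, rfl⟩ := hmem p hp
    refine good_extra (u := u i) (w := u i + w) (v := u i + η) hα (isAut_addRight hG d) ?_ ?_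
      e1 e2 e3 e4
    · rw [hcompl, add_sub_cancel_left]
      exact hw
    · rcases hη with h | h
      · left
        show u i + η = u i + w + d
        rw [h, add_assoc]
      · right
        show u i + η + d = u i + w
        rw [add_assoc, h]
  · intro p hp p' hp'
    obtain ⟨i, hi, rfl⟩ := hmem p hp
    obtain ⟨j, hj, rfl⟩ := hmem p' hp'
    refine ⟨fun h => ?_, fun h => ?_, fun h => ?_⟩
    · rw [suu i hi j hj ((sameCycle_iff hdd hd _ _).mp h)]
    · exact absurd ((sameCycle_iff hdd hd _ _).mp h) (suv i hi j hj)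
    · rw [svv i hi j hj ((sameCycle_iff hdd hd _ _).mp h)]
  · rw [hE]
    intro f
    obtain ⟨i, j, hij, h⟩ := pigeon hq f
    exact ⟨i, j, hij, (sameCycle_iff hdd hd _ _).mpr h⟩

theorem odd_index_eq (hodd : Odd (Fintype.card A)) (b : A) :
    ∃ q, (AddSubgroup.zmultiples b).index = 2 * q + 1 := by
  have hmul : addOrderOf b * (AddSubgroup.zmultiples b).index = Fintype.card A := by
    rw [← Nat.card_zmultiples b, AddSubgroup.card_mul_index, Nat.card_eq_fintype_card]
  exact Odd.of_dvd_nat hodd ⟨addOrderOf b, by rw [← hmul, mul_comm]⟩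

/-- A three-term progression of nonneighbours of `0` whose members generate `A`. -/
theorem minor_span {G : SimpleGraph A} (hG : TransInv G) (hα : AlphaTwo G)
    (hodd : Odd (Fintype.card A)) {z e : A} (hz : Gᶜ.Adj 0 z) (hz1 : Gᶜ.Adj 0 (z + e))
    (hz2 : Gᶜ.Adj 0 (z - e)) (hzgen : AddSubgroup.closure {z, e} = ⊤) :
    CliqueMinor G (Fintype.card A / 2) := by
  classical
  have hcompl : ∀ x y : A, Gᶜ.Adj x y ↔ Gᶜ.Adj 0 (y - x) := by
    intro x y
    rw [SimpleGraph.compl_adj, SimpleGraph.compl_adj, adj_iff_sub hG x y]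
    have : x ≠ y ↔ (0 : A) ≠ y - x := by
      rw [ne_comm, ← sub_ne_zero, ne_comm]
    rw [this]
  obtain ⟨δ, hδ, hδm⟩ := exists_half hodd (z - e)
  obtain ⟨q', hq'⟩ := odd_index_eq hodd (z - e)
  have hη2 : (z - δ) + (z - δ) = z + e := by
    have : (z - δ) + (z - δ) = z + z - (δ + δ) := by abel
    rw [this, hδ]; abel
  refine minor_F hG hα hodd (b := z - e) (d := δ) (w := z) (η := z - δ) hδ hδm hz2 hz
    (Or.inr (by abel)) ?_ ?_ hq' (fun i => ((2 * i : ℕ) : ℤ) • z) ?_ ?_
  · intro h
    have h1 : Gᶜ.Adj (z - δ) (z + e) := by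
      rw [hcompl]
      have : z + e - (z - δ) = z - δ := by rw [← hη2]; abel
      rw [this]; exact h
    exact tri hα h h1 hz1
  · rw [eq_top_iff, ← hzgen, AddSubgroup.closure_le]
    rintro x (rfl | rfl)
    · exact AddSubgroup.subset_closure (by simp)
    · have h1 : z ∈ AddSubgroup.closure {z - x, z} := AddSubgroup.subset_closure (by simp)
      have h3 : z - x ∈ AddSubgroup.closure {z - x, z} := AddSubgroup.subset_closure (by simp)
      have h4 := AddSubgroup.sub_mem _ h1 h3
      have h5 : z - (z - x) = x := by abel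
      rw [h5] at h4
      exact h4
  · intro i _
    rw [sub_self]; exact AddSubgroup.zero_mem _
  · rintro i - j - - ⟨-, h1, h3⟩
    -- the two differences differ by `z + e`
    set x := ((2 * i : ℕ) : ℤ) • z with hx
    set y := ((2 * j : ℕ) : ℤ) • z with hy
    rw [hcompl] at h1 h3
    have h4 : Gᶜ.Adj (y - (x + (z - δ))) (y + (z - δ) - x) := by
      rw [hcompl]
      have : y + (z - δ) - x - (y - (x + (z - δ))) = z + e := by rw [← hη2]; abel
      rw [this]; exact hz1
    exact tri hα h3 h4 h1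

/-- Dichotomy: a spanning three-term progression with difference `e`, or spread positions. -/
theorem minor_e {G : SimpleGraph A} (hG : TransInv G) (hα : AlphaTwo G)
    (hodd : Odd (Fintype.card A)) {b c d e : A} (hb : Gᶜ.Adj 0 b) (hc : Gᶜ.Adj 0 c)
    (hdd : d + d = b) (hdm : d ∈ AddSubgroup.zmultiples b)
    (hee : e = c + d ∨ e + d = c) (he' : ¬ Gᶜ.Adj 0 e)
    (hgen : AddSubgroup.closure {b, c} = ⊤)
    (hidx : (∀ p : ℕ, p.Prime → p ∣ Fintype.card A →
      (AddSubgroup.zmultiples b).index ≤ 4 * p + 1) ∨ AddSubgroup.zmultiples e = ⊤) :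
    CliqueMinor G (Fintype.card A / 2) := by
  classical
  have hcompl : ∀ x y : A, Gᶜ.Adj x y ↔ Gᶜ.Adj 0 (y - x) := by
    intro x y
    rw [SimpleGraph.compl_adj, SimpleGraph.compl_adj, adj_iff_sub hG x y]
    have : x ≠ y ↔ (0 : A) ≠ y - x := by
      rw [ne_comm, ← sub_ne_zero, ne_comm]
    rw [this]
  obtain ⟨q, hq⟩ := odd_index_eq hodd b
  by_cases hex : ∃ z, Gᶜ.Adj 0 z ∧ Gᶜ.Adj 0 (z + e) ∧ Gᶜ.Adj 0 (z - e) ∧
      AddSubgroup.closure {z, e} = ⊤
  · obtain ⟨z, hz, hz1, hz2, hzgen⟩ := hex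
    exact minor_span hG hα hodd hz hz1 hz2 hzgen
  · -- spread positions
    have hec : e - c ∈ AddSubgroup.zmultiples b := by
      rcases hee with h | h
      · have : e - c = d := by rw [h]; abel
        rw [this]; exact hdm
      · have : e - c = -d := by rw [← h]; abel
        rw [this]; exact AddSubgroup.neg_mem _ hdm
    have hneg : ∀ x : A, Gᶜ.Adj 0 (-x) → Gᶜ.Adj 0 x := by
      intro x hx
      have h1 : Gᶜ.Adj x 0 := by
        rw [hcompl]
        have : (0 : A) - x = -x := by abel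
        rw [this]; exact hx
      exact h1.symm
    refine minor_F hG hα hodd (b := b) (d := d) (w := c) (η := e) hdd hdm hb hc hee he' hgen hq
      (fun i => ((2 * i : ℕ) : ℤ) • e + ((i / 2 : ℕ) : ℤ) • d) ?_ ?_
    · intro i _
      have : ((2 * i : ℕ) : ℤ) • e + ((i / 2 : ℕ) : ℤ) • d - ((2 * i : ℕ) : ℤ) • c =
          ((2 * i : ℕ) : ℤ) • (e - c) + ((i / 2 : ℕ) : ℤ) • d := by
        rw [smul_sub]; abel
      rw [this]
      exact AddSubgroup.add_mem _ (AddSubgroup.zsmul_mem _ hec _) (AddSubgroup.zsmul_mem _ hdm _)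
    · rintro i hi j hj hij ⟨h1, h3, h4⟩
      rw [hcompl] at h1 h3 h4
      set x := ((2 * i : ℕ) : ℤ) • e + ((i / 2 : ℕ) : ℤ) • d with hx
      set y := ((2 * j : ℕ) : ℤ) • e + ((j / 2 : ℕ) : ℤ) • d with hy
      have h3' : Gᶜ.Adj 0 (y - x + e) := by
        have : y - x + e = y + e - x := by abel
        rw [this]; exact h3
      have h4' : Gᶜ.Adj 0 (y - x - e) := by
        have : y - x - e = y - (x + e) := by abel
        rw [this]; exact h4
      have hyx : y - x = (2 * ((j : ℤ) - i)) • e + (((j / 2 : ℕ) : ℤ) - ((i / 2 : ℕ) : ℤ)) • d := by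
        have e1 : (2 * ((j : ℤ) - i)) • e = ((2 * j : ℕ) : ℤ) • e - ((2 * i : ℕ) : ℤ) • e := by
          rw [← sub_smul]
          congr 1
          push_cast; ring
        rw [e1, sub_smul, hx, hy]
        abel
      rcases hidx with hidx | htop
      swap
      · apply hex
        refine ⟨y - x, h1, h3', h4', ?_⟩
        rw [eq_top_iff, ← htop, AddSubgroup.zmultiples_le]
        exact AddSubgroup.subset_closure (by simp)
      by_cases hh : i / 2 = j / 2
      · -- neighbouring indices
        rw [hh, sub_self, zero_smul, add_zero] at hyx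
        have hcase : j = i + 1 ∨ i = j + 1 := by omega
        rcases hcase with h | h
        · have h5 : (2 * ((j : ℤ) - i)) = 2 := by rw [h]; push_cast; ring
          rw [h5, two_smul] at hyx
          rw [hyx, add_sub_cancel_right] at h4'
          exact he' h4'
        · have h5 : (2 * ((j : ℤ) - i)) = -2 := by rw [h]; push_cast; ring
          rw [h5, neg_smul, two_smul] at hyx
          have h6 : y - x + e = -e := by rw [hyx]; abel
          rw [h6] at h3'
          exact he' (hneg e h3')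
      · apply hex
        refine ⟨y - x, h1, h3', h4', ?_⟩
        have hne : (((j / 2 : ℕ) : ℤ) - ((i / 2 : ℕ) : ℤ)) ≠ 0 := by omega
        set κ : ℤ := ((j / 2 : ℕ) : ℤ) - ((i / 2 : ℕ) : ℤ) with hκ
        have hcop : IsCoprime κ (Fintype.card A : ℤ) := by
          rw [Int.isCoprime_iff_gcd_eq_one]
          by_contra hg
          obtain ⟨p, hp, hpd⟩ := Nat.exists_prime_and_dvd hg
          have hp1 : (p : ℤ) ∣ κ :=
            (Int.natCast_dvd_natCast.mpr hpd).trans (Int.gcd_dvd_left _ _)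
          have hp2 : (p : ℤ) ∣ (Fintype.card A : ℤ) :=
            (Int.natCast_dvd_natCast.mpr hpd).trans (Int.gcd_dvd_right _ _)
          have hp2' : p ∣ Fintype.card A := by exact_mod_cast hp2
          have h5 := hidx p hp hp2'
          rw [hq] at h5
          have h8 := Int.le_of_dvd (abs_pos.mpr hne) ((dvd_abs _ _).mpr hp1)
          have h9 : |κ| < p := by
            rw [abs_lt]
            constructor <;> omega
          omega
        obtain ⟨s, t, hst⟩ := hcop
        have m1 : y - x ∈ AddSubgroup.closure {y - x, e} := AddSubgroup.subset_closure (by simp)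
        have m2 : e ∈ AddSubgroup.closure {y - x, e} := AddSubgroup.subset_closure (by simp)
        have m0 : κ • d ∈ AddSubgroup.closure {y - x, e} := by
          have : κ • d = (y - x) - (2 * ((j : ℤ) - i)) • e := by rw [hyx]; abel
          rw [this]
          exact AddSubgroup.sub_mem _ m1 (AddSubgroup.zsmul_mem _ m2 _)
        have m4 : d ∈ AddSubgroup.closure {y - x, e} := by
          have h5 : (1 : ℤ) • d = s • (κ • d) := by
            rw [← hst, add_smul, smul_smul, mul_smul t]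
            have : ((Fintype.card A : ℕ) : ℤ) • d = 0 := by
              rw [natCast_zsmul]; exact card_nsmul_eq_zero
            rw [this, smul_zero, add_zero]
          rw [one_smul] at h5
          rw [h5]
          exact AddSubgroup.zsmul_mem _ m0 s
        have m3 : c ∈ AddSubgroup.closure {y - x, e} := by
          rcases hee with h | h
          · have : c = e - d := by rw [h]; abel
            rw [this]; exact AddSubgroup.sub_mem _ m2 m4
          · rw [← h]; exact AddSubgroup.add_mem _ m2 m4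
        rw [eq_top_iff, ← hgen, AddSubgroup.closure_le]
        rintro v (rfl | rfl)
        · rw [← hdd]; exact AddSubgroup.add_mem _ m4 m4
        · exact m3

/-- Two nonneighbours `b`, `c` of `0` generating `A`, with `[A : <b>] ≤ 4p + 1` for all primes
`p` dividing `|A|`. -/
theorem minor_two {G : SimpleGraph A} (hG : TransInv G) (hα : AlphaTwo G)
    (hodd : Odd (Fintype.card A)) {b c : A} (hb : Gᶜ.Adj 0 b) (hc : Gᶜ.Adj 0 c)
    (hgen : AddSubgroup.closure {b, c} = ⊤)
    (hidx : ∀ p : ℕ, p.Prime → p ∣ Fintype.card A →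
      (AddSubgroup.zmultiples b).index ≤ 4 * p + 1) :
    CliqueMinor G (Fintype.card A / 2) := by
  classical
  have hcompl : ∀ x y : A, Gᶜ.Adj x y ↔ Gᶜ.Adj 0 (y - x) := by
    intro x y
    rw [SimpleGraph.compl_adj, SimpleGraph.compl_adj, adj_iff_sub hG x y]
    have : x ≠ y ↔ (0 : A) ≠ y - x := by
      rw [ne_comm, ← sub_ne_zero, ne_comm]
    rw [this]
  obtain ⟨d, hdd, hdm⟩ := exists_half hodd b
  have h2 : ∀ x, Gᶜ.Adj x ((Equiv.addRight d) ((Equiv.addRight d) x)) := by
    intro x
    have hx : (Equiv.addRight d) ((Equiv.addRight d) x) = x + b := by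
      show x + d + d = x + b
      rw [add_assoc, hdd]
    rw [hx, hcompl, add_sub_cancel_left]
    exact hb
  obtain ⟨e, he, he'⟩ := exists_sign hα h2 0 c
  exact minor_e hG hα hodd hb hc hdd hdm he he' hgen (Or.inl hidx)

/-- If `c + b/2` generates `A` for two nonneighbours `b`, `c` of `0`. -/
theorem minor_gen {G : SimpleGraph A} (hG : TransInv G) (hα : AlphaTwo G)
    (hodd : Odd (Fintype.card A)) {b c d : A} (hb : Gᶜ.Adj 0 b) (hc : Gᶜ.Adj 0 c)
    (hdd : d + d = b) (hdm : d ∈ AddSubgroup.zmultiples b)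
    (hgen : AddSubgroup.zmultiples (c + d) = ⊤) :
    CliqueMinor G (Fintype.card A / 2) := by
  by_cases he : Gᶜ.Adj 0 (c + d)
  · refine minor_two hG hα hodd he he ?_ ?_
    · rw [eq_top_iff, ← hgen, AddSubgroup.zmultiples_le]
      exact AddSubgroup.subset_closure (by simp)
    · intro p _ _
      rw [hgen, AddSubgroup.index_top]
      omega
  · refine minor_e hG hα hodd hb hc hdd hdm (Or.inl rfl) he ?_ (Or.inr hgen)
    rw [eq_top_iff, ← hgen, AddSubgroup.zmultiples_le]
    have h1 : c ∈ AddSubgroup.closure {b, c} := AddSubgroup.subset_closure (by simp)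
    have h2 : b ∈ AddSubgroup.closure {b, c} := AddSubgroup.subset_closure (by simp)
    refine AddSubgroup.add_mem _ h1 ?_
    have h3 : AddSubgroup.zmultiples b ≤ AddSubgroup.closure {b, c} := by
      rw [AddSubgroup.zmultiples_le]; exact h2
    exact h3 hdm

/-- colouring: `G` is `((n+1)/2)`-colourable -/
theorem color_two {G : SimpleGraph A} (hG : TransInv G)
    (hodd : Odd (Fintype.card A)) {b c : A} (hb : Gᶜ.Adj 0 b) (hc : Gᶜ.Adj 0 c)
    (hgen : AddSubgroup.closure {b, c} = ⊤) : G.Colorable (Fintype.card A / 2 + 1) := by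
  classical
  have hcompl : ∀ x y : A, Gᶜ.Adj x y ↔ Gᶜ.Adj 0 (y - x) := by
    intro x y
    rw [SimpleGraph.compl_adj, SimpleGraph.compl_adj, adj_iff_sub hG x y]
    have : x ≠ y ↔ (0 : A) ≠ y - x := by
      rw [ne_comm, ← sub_ne_zero, ne_comm]
    rw [this]
  obtain ⟨q, hq⟩ := odd_index_eq hodd b
  let u : ℕ → A := fun i => ((2 * i : ℕ) : ℤ) • c
  let w : ℕ → A := fun i => ((2 * i + 1 : ℕ) : ℤ) • c
  have huw : ∀ i, w i - u i = c := by
    intro i
    show ((2 * i + 1 : ℕ) : ℤ) • c - ((2 * i : ℕ) : ℤ) • c = c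
    rw [← sub_smul]
    have : ((2 * i + 1 : ℕ) : ℤ) - ((2 * i : ℕ) : ℤ) = 1 := by push_cast; ring
    rw [this, one_smul]
  have hz0 : ∀ x : A, x - x ∈ AddSubgroup.zmultiples b := by
    intro x; rw [sub_self]; exact AddSubgroup.zero_mem _
  have hz : ∀ x y : A, x = y → y - x ∈ AddSubgroup.zmultiples b := by
    rintro x y rfl
    exact hz0 x
  have k1 : ∀ i < q, ∀ j < q, u j - u i ∈ AddSubgroup.zmultiples b → i = j := by
    intro i hi j hj h
    have := sep hgen hq (i := 2 * i) (j := 2 * j) (by omega) (by omega) (hz0 _) (hz0 _) h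
    omega
  have k2 : ∀ i < q, ∀ j < q, w j - w i ∈ AddSubgroup.zmultiples b → i = j := by
    intro i hi j hj h
    have := sep hgen hq (i := 2 * i + 1) (j := 2 * j + 1) (by omega) (by omega)
      (hz0 _) (hz0 _) h
    omega
  have k3 : ∀ i < q, ∀ j < q, ¬ w j - u i ∈ AddSubgroup.zmultiples b := by
    intro i hi j hj h
    have := sep hgen hq (i := 2 * i) (j := 2 * j + 1) (by omega) (by omega) (hz0 _) (hz0 _) h
    omega
  let E : Finset (A × A) := (Finset.range q).image fun i => (u i, w i)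
  have hE : E.card = q := by
    rw [Finset.card_image_of_injOn, Finset.card_range]
    intro i hi j hj hij
    exact k1 i (by simpa using hi) j (by simpa using hj) (hz _ _ (Prod.mk.inj hij).1)
  have hmem : ∀ x ∈ E, ∃ i < q, (u i, w i) = x := by
    intro x hx
    obtain ⟨i, hi, rfl⟩ := Finset.mem_image.mp hx
    exact ⟨i, by simpa using hi, rfl⟩
  refine color_E (h := Equiv.addRight b) ?_ E ?_ ?_ ?_ (fun x => odd_period hodd b x) ?_
  · intro x
    have : Gᶜ.Adj x (x + b) := by
      rw [hcompl, add_sub_cancel_left]; exact hb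
    exact this
  · intro p hp
    obtain ⟨i, hi, rfl⟩ := hmem p hp
    have : Gᶜ.Adj (u i) (w i) := by
      rw [hcompl, huw]; exact hc
    exact this
  · intro p hp p' hp' hpp
    obtain ⟨i, hi, rfl⟩ := hmem p hp
    obtain ⟨j, hj, rfl⟩ := hmem p' hp'
    have hij : i ≠ j := fun h => hpp (by rw [h])
    refine ⟨fun h => hij (k1 i hi j hj (hz _ _ h)), fun h => k3 i hi j hj (hz _ _ h),
      fun h => k3 j hj i hi (hz _ _ h.symm), fun h => hij (k2 i hi j hj (hz _ _ h))⟩
  · intro p hp p' hp'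
    obtain ⟨i, hi, rfl⟩ := hmem p hp
    obtain ⟨j, hj, rfl⟩ := hmem p' hp'
    refine ⟨fun h => ?_, fun h => ?_, fun h => ?_⟩
    · rw [k1 i hi j hj ((sameCycle_iff' _ _).mp h)]
    · exact absurd ((sameCycle_iff' _ _).mp h) (k3 i hi j hj)
    · rw [k2 i hi j hj ((sameCycle_iff' _ _).mp h)]
  · rw [hE]
    intro f
    obtain ⟨i, j, hij, h⟩ := pigeon hq f
    exact ⟨i, j, hij, (sameCycle_iff' _ _).mpr h⟩

end cay

end Pool.Agent.TH351.Shift
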