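import Mathlib
import Pool.Agent.TH351.CayTwo

set_option autoImplicit false

namespace Pool.Agent.TH351.Shift

open Pool.Agent.H484R3.Circ Finset

section cay

variable {A : Type*} [AddCommGroup A]

theorem compl_iff {G : SimpleGraph A} (hG : TransInv G) (x y : A) :
    Gᶜ.Adj x y ↔ Gᶜ.Adj 0 (y - x) := by
  rw [SimpleGraph.compl_adj, SimpleGraph.compl_adj, adj_iff_sub hG x y]
  have : x ≠ y ↔ (0 : A) ≠ y - x := by
    rw [ne_comm, ← sub_ne_zero, ne_comm]
  rw [this]

theorem compl_neg {G : SimpleGraph A} (hG : TransInv G) {x : A} (h : Gᶜ.Adj 0 x) :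
    Gᶜ.Adj 0 (-x) := by
  have h1 := h.symm
  rw [compl_iff hG, zero_sub] at h1
  exact h1

/-- Cyclic groups of odd order. -/
theorem minor_cyclic [Fintype A] {G : SimpleGraph A} (hG : TransInv G) (hα : AlphaTwo G)
    (hodd : Odd (Fintype.card A)) (hcyc : ∃ f : A, AddSubgroup.zmultiples f = ⊤) :
    CliqueMinor G (Fintype.card A / 2) := by
  classical
  obtain ⟨f, hf⟩ := hcyc
  by_cases hfS : Gᶜ.Adj 0 f
  · refine minor_two hG hα hodd hfS hfS ?_ ?_
    · rw [eq_top_iff, ← hf, AddSubgroup.zmultiples_le]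
      exact AddSubgroup.subset_closure (by simp)
    · intro p _ _
      rw [hf, AddSubgroup.index_top]
      omega
  by_cases hex : ∃ z, Gᶜ.Adj 0 z ∧ Gᶜ.Adj 0 (z + f) ∧ Gᶜ.Adj 0 (z - f)
  · obtain ⟨z, hz, hz1, hz2⟩ := hex
    refine minor_span hG hα hodd hz hz1 hz2 ?_
    rw [eq_top_iff, ← hf, AddSubgroup.zmultiples_le]
    exact AddSubgroup.subset_closure (by simp)
  · have hord : addOrderOf f = Fintype.card A := by
      rw [← Nat.card_zmultiples, hf, AddSubgroup.card_top, Nat.card_eq_fintype_card]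
    have hinj : ∀ i j : ℕ, i < Fintype.card A → j < Fintype.card A → i • f = j • f → i = j := by
      intro i j hi hj h
      exact nsmul_injOn_Iio_addOrderOf (by simpa [hord] using hi) (by simpa [hord] using hj) h
    have hn : ∀ i j : ℕ, i < Fintype.card A → j < Fintype.card A → i ≠ j → i • f ≠ j • f :=
      fun i j hi hj hne h => hne (hinj i j hi hj h)
    refine minor_of_pairs ((Finset.range (Fintype.card A / 2)).image
      fun i => ((2 * i) • f, (2 * i + 1) • f)) ?_ ?_ ?_
    · intro p hp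
      obtain ⟨i, hi, rfl⟩ := Finset.mem_image.mp hp
      have hi' : i < Fintype.card A / 2 := by simpa using hi
      refine adj_of_not_compl (hn _ _ (by omega) (by omega) (by omega)) ?_
      rw [compl_iff hG]
      have : (2 * i + 1) • f - (2 * i) • f = f := by rw [succ_nsmul]; abel
      rw [this]
      exact hfS
    · intro p hp p' hp' hpp
      obtain ⟨i, hi, rfl⟩ := Finset.mem_image.mp hp
      obtain ⟨j, hj, rfl⟩ := Finset.mem_image.mp hp'
      have hi' : i < Fintype.card A / 2 := by simpa using hi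
      have hj' : j < Fintype.card A / 2 := by simpa using hj
      have hij : i ≠ j := fun h => hpp (by rw [h])
      have e1 := hn (2 * i) (2 * j) (by omega) (by omega) (by omega)
      have e2 := hn (2 * i) (2 * j + 1) (by omega) (by omega) (by omega)
      have e3 := hn (2 * i + 1) (2 * j) (by omega) (by omega) (by omega)
      have e4 := hn (2 * i + 1) (2 * j + 1) (by omega) (by omega) (by omega)
      refine ⟨e1, e2, e3, e4, ?_⟩
      by_contra hcon
      push Not at hcon
      obtain ⟨a1, a2, a3, -⟩ := hcon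
      have b1 : Gᶜ.Adj ((2 * i) • f) ((2 * j) • f) := ⟨e1, a1⟩
      have b2 : Gᶜ.Adj ((2 * i) • f) ((2 * j + 1) • f) := ⟨e2, a2⟩
      have b3 : Gᶜ.Adj ((2 * i + 1) • f) ((2 * j) • f) := ⟨e3, a3⟩
      rw [compl_iff hG] at b1 b2 b3
      apply hex
      refine ⟨(2 * j) • f - (2 * i) • f, b1, ?_, ?_⟩
      · have : (2 * j) • f - (2 * i) • f + f = (2 * j + 1) • f - (2 * i) • f := by
          rw [succ_nsmul]; abel
        rw [this]; exact b2
      · have : (2 * j) • f - (2 * i) • f - f = (2 * j) • f - (2 * i + 1) • f := by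
          rw [succ_nsmul (f) (2 * i)]; abel
        rw [this]; exact b3
    · rw [Finset.card_image_of_injOn, Finset.card_range]
      intro i hi j hj hij
      have hi' : i < Fintype.card A / 2 := by simpa using hi
      have hj' : j < Fintype.card A / 2 := by simpa using hj
      have := hinj _ _ (by omega) (by omega) (Prod.mk.inj hij).1
      omega

/-- A family of disjoint nonadjacent pairs covering all of `B` except `0`. -/
def NearMatching (G : SimpleGraph A) (B : AddSubgroup A) : Prop :=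
  ∃ F : Finset (A × A), (∀ p ∈ F, Gᶜ.Adj p.1 p.2 ∧ p.1 ∈ B ∧ p.2 ∈ B ∧ p.1 ≠ 0 ∧ p.2 ≠ 0) ∧
    (∀ p ∈ F, ∀ q ∈ F, p ≠ q → p.1 ≠ q.1 ∧ p.1 ≠ q.2 ∧ p.2 ≠ q.1 ∧ p.2 ≠ q.2) ∧
    ∀ x ∈ B, x = 0 ∨ ∃ p ∈ F, x = p.1 ∨ x = p.2

theorem nearMatching_bot (G : SimpleGraph A) : NearMatching G ⊥ := by
  refine ⟨∅, by simp, by simp, ?_⟩
  intro x hx
  left
  exact AddSubgroup.mem_bot.mp hx

theorem nearMatching_extend [Fintype A] {G : SimpleGraph A} (hG : TransInv G)
    (hodd : Odd (Fintype.card A)) {B : AddSubgroup A} (hB : NearMatching G B) {s : A}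
    (hs : Gᶜ.Adj 0 s) : NearMatching G (B ⊔ AddSubgroup.zmultiples s) := by
  classical
  obtain ⟨F, h1, h2, h3⟩ := hB
  let s' : A ⧸ B := QuotientAddGroup.mk s
  have hm1 : addOrderOf s' ∣ Fintype.card A := by
    have e1 : addOrderOf s' ∣ Nat.card (A ⧸ B) := addOrderOf_dvd_natCard _
    have e2 : Nat.card (A ⧸ B) ∣ Nat.card A := ⟨Nat.card B, by
      have := AddSubgroup.card_mul_index B
      rw [← this, mul_comm]; rfl⟩
    rw [← Nat.card_eq_fintype_card]
    exact e1.trans e2
  obtain ⟨q, hq⟩ := Odd.of_dvd_nat hodd hm1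
  have hmem : ∀ m : ℕ, m • s ∈ B ↔ 2 * q + 1 ∣ m := by
    intro m
    rw [← hq, addOrderOf_dvd_iff_nsmul_eq_zero]
    exact (QuotientAddGroup.eq_zero_iff (m • s)).symm
  -- separation of cosets
  have hsep : ∀ i j : ℕ, i < 2 * q + 1 → j < 2 * q + 1 → ∀ x y : A, x ∈ B → y ∈ B →
      x + i • s = y + j • s → i = j := by
    have aux : ∀ i j : ℕ, i ≤ j → j < 2 * q + 1 → ∀ x y : A, x ∈ B → y ∈ B →
        x + i • s = y + j • s → i = j := by
      intro i j hij hj x y hx hy h
      have e1 : (j - i) • s = x - y := by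
        have : j • s = (j - i) • s + i • s := by rw [← add_smul, Nat.sub_add_cancel hij]
        rw [this] at h
        have e2 : x = y + (j - i) • s := by
          have : x + i • s = (y + (j - i) • s) + i • s := by rw [h]; abel
          exact add_right_cancel this
        rw [e2]; abel
      have e3 : (j - i) • s ∈ B := by rw [e1]; exact B.sub_mem hx hy
      have e4 := Nat.eq_zero_of_dvd_of_lt ((hmem _).mp e3) (by omega)
      omega
    intro i j hi hj x y hx hy h
    rcases le_total i j with hij | hij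
    · exact aux i j hij hj x y hx hy h
    · exact (aux j i hij hi y x hy hx h.symm).symm
  let F1 : Finset (A × A) := (F ×ˢ Finset.range (2 * q + 1)).image
    fun t => (t.1.1 + t.2 • s, t.1.2 + t.2 • s)
  let F2 : Finset (A × A) := (Finset.range q).image
    fun i => ((2 * i + 1) • s, (2 * i + 2) • s)
  have m1 : ∀ p ∈ F1, ∃ t ∈ F, ∃ j < 2 * q + 1, (t.1 + j • s, t.2 + j • s) = p := by
    intro p hp
    obtain ⟨⟨t, j⟩, ht, rfl⟩ := Finset.mem_image.mp hp
    rw [Finset.mem_product] at ht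
    exact ⟨t, ht.1, j, by simpa using ht.2, rfl⟩
  have m2 : ∀ p ∈ F2, ∃ i < q, ((2 * i + 1) • s, (2 * i + 2) • s) = p := by
    intro p hp
    obtain ⟨i, hi, rfl⟩ := Finset.mem_image.mp hp
    exact ⟨i, by simpa using hi, rfl⟩
  have hle : B ≤ B ⊔ AddSubgroup.zmultiples s := le_sup_left
  have hsm : ∀ j : ℕ, j • s ∈ B ⊔ AddSubgroup.zmultiples s := fun j =>
    (le_sup_right : _ ≤ B ⊔ AddSubgroup.zmultiples s) ⟨(j : ℤ), by simp⟩
  have hz : ∀ j : ℕ, j < 2 * q + 1 → ∀ x ∈ B, x ≠ 0 → x + j • s ≠ 0 := by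
    intro j hj x hx hx0 h
    have := hsep j 0 hj (by omega) x 0 hx B.zero_mem (by rw [h]; simp)
    rw [this, zero_smul, add_zero] at h
    exact hx0 h
  have hz2 : ∀ j : ℕ, 0 < j → j < 2 * q + 1 → j • s ≠ 0 := by
    intro j hj0 hj h
    have := hsep j 0 hj (by omega) 0 0 B.zero_mem B.zero_mem (by rw [h]; simp)
    omega
  -- two elements `x + j s`, `x' + j' s` are equal only if `j = j'` and `x = x'`
  have hne : ∀ i j : ℕ, i < 2 * q + 1 → j < 2 * q + 1 → ∀ x y : A, x ∈ B → y ∈ B →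
      (i = j → x ≠ y) → x + i • s ≠ y + j • s := by
    intro i j hi hj x y hx hy hxy h
    have hij := hsep i j hi hj x y hx hy h
    subst hij
    exact hxy rfl (add_right_cancel h)
  have hne0 : ∀ i j : ℕ, i < 2 * q + 1 → j < 2 * q + 1 → ∀ x : A, x ∈ B → x ≠ 0 →
      x + i • s ≠ j • s := by
    intro i j hi hj x hx hx0 h
    exact hne i j hi hj x 0 hx B.zero_mem (fun _ => hx0) (by rw [h, zero_add])
  have hne00 : ∀ i j : ℕ, i < 2 * q + 1 → j < 2 * q + 1 → i ≠ j → i • s ≠ j • s := by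
    intro i j hi hj hij h
    exact hij (hsep i j hi hj 0 0 B.zero_mem B.zero_mem (by rw [h]))
  refine ⟨F1 ∪ F2, ?_, ?_, ?_⟩
  · intro p hp
    rcases Finset.mem_union.mp hp with hp | hp
    · obtain ⟨t, ht, j, hj, rfl⟩ := m1 p hp
      obtain ⟨a1, a2, a3, a4, a5⟩ := h1 t ht
      refine ⟨?_, ?_, ?_, hz j hj _ a2 a4, hz j hj _ a3 a5⟩
      · rw [compl_iff hG] at a1 ⊢
        have : t.2 + j • s - (t.1 + j • s) = t.2 - t.1 := by abel
        rw [this]; exact a1
      · exact AddSubgroup.add_mem _ (hle a2) (hsm j)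
      · exact AddSubgroup.add_mem _ (hle a3) (hsm j)
    · obtain ⟨i, hi, rfl⟩ := m2 p hp
      refine ⟨?_, hsm _, hsm _, hz2 _ (by omega) (by omega), hz2 _ (by omega) (by omega)⟩
      rw [compl_iff hG]
      have : (2 * i + 2) • s - (2 * i + 1) • s = s := by
        rw [show 2 * i + 2 = (2 * i + 1) + 1 by ring, succ_nsmul s (2 * i + 1)]; abel
      rw [this]; exact hs
  · intro p hp p' hp' hpp
    rcases Finset.mem_union.mp hp with hp | hp <;> rcases Finset.mem_union.mp hp' with hp' | hp'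
    · obtain ⟨t, ht, j, hj, rfl⟩ := m1 p hp
      obtain ⟨t', ht', j', hj', rfl⟩ := m1 p' hp'
      obtain ⟨-, a2, a3, -, -⟩ := h1 t ht
      obtain ⟨-, b2, b3, -, -⟩ := h1 t' ht'
      have hd : j = j' → t ≠ t' := fun hjj htt => hpp (by rw [hjj, htt])
      exact ⟨hne _ _ hj hj' _ _ a2 b2 (fun h => (h2 t ht t' ht' (hd h)).1),
        hne _ _ hj hj' _ _ a2 b3 (fun h => (h2 t ht t' ht' (hd h)).2.1),
        hne _ _ hj hj' _ _ a3 b2 (fun h => (h2 t ht t' ht' (hd h)).2.2.1),
        hne _ _ hj hj' _ _ a3 b3 (fun h => (h2 t ht t' ht' (hd h)).2.2.2)⟩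
    · obtain ⟨t, ht, j, hj, rfl⟩ := m1 p hp
      obtain ⟨i, hi, rfl⟩ := m2 p' hp'
      obtain ⟨-, a2, a3, a4, a5⟩ := h1 t ht
      exact ⟨hne0 _ _ hj (by omega) _ a2 a4, hne0 _ _ hj (by omega) _ a2 a4,
        hne0 _ _ hj (by omega) _ a3 a5, hne0 _ _ hj (by omega) _ a3 a5⟩
    · obtain ⟨t, ht, j, hj, rfl⟩ := m1 p' hp'
      obtain ⟨i, hi, rfl⟩ := m2 p hp
      obtain ⟨-, a2, a3, a4, a5⟩ := h1 t ht
      exact ⟨(hne0 _ _ hj (by omega) _ a2 a4).symm, (hne0 _ _ hj (by omega) _ a3 a5).symm,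
        (hne0 _ _ hj (by omega) _ a2 a4).symm, (hne0 _ _ hj (by omega) _ a3 a5).symm⟩
    · obtain ⟨i, hi, rfl⟩ := m2 p hp
      obtain ⟨j, hj, rfl⟩ := m2 p' hp'
      have hij : i ≠ j := fun h => hpp (by rw [h])
      exact ⟨hne00 _ _ (by omega) (by omega) (by omega),
        hne00 _ _ (by omega) (by omega) (by omega),
        hne00 _ _ (by omega) (by omega) (by omega),
        hne00 _ _ (by omega) (by omega) (by omega)⟩
  · intro x hx
    rw [AddSubgroup.mem_sup] at hx
    obtain ⟨y, hy, w, ⟨m, rfl⟩, rfl⟩ := hx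
    -- reduce `m` modulo `2q+1`
    have hpos : (0 : ℤ) < ((2 * q + 1 : ℕ) : ℤ) := by positivity
    obtain ⟨j, hj, hjm⟩ : ∃ j : ℕ, j < 2 * q + 1 ∧ (j : ℤ) = m % ((2 * q + 1 : ℕ) : ℤ) := by
      refine ⟨(m % ((2 * q + 1 : ℕ) : ℤ)).toNat, ?_, ?_⟩
      · have h4 := Int.emod_lt_of_pos m hpos
        have h5 := Int.emod_nonneg m hpos.ne'
        omega
      · exact Int.toNat_of_nonneg (Int.emod_nonneg m hpos.ne')
    have hmem' : (((2 * q + 1 : ℕ) : ℤ) * (m / ((2 * q + 1 : ℕ) : ℤ))) • s ∈ B := by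
      rw [mul_comm, mul_smul]
      refine B.zsmul_mem ?_ _
      rw [natCast_zsmul]
      exact (hmem _).mpr (dvd_refl _)
    set y' := y + (((2 * q + 1 : ℕ) : ℤ) * (m / ((2 * q + 1 : ℕ) : ℤ))) • s with hy'
    have hy'B : y' ∈ B := B.add_mem hy hmem'
    have hxy : y + m • s = y' + j • s := by
      have e1 : m = ((2 * q + 1 : ℕ) : ℤ) * (m / ((2 * q + 1 : ℕ) : ℤ)) + (j : ℤ) := by
        rw [hjm]; exact (Int.mul_ediv_add_emod m _).symm
      have e2 : m • s = (((2 * q + 1 : ℕ) : ℤ) * (m / ((2 * q + 1 : ℕ) : ℤ))) • s + (j : ℤ) • s := by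
        rw [← add_smul, ← e1]
      rw [e2, natCast_zsmul, hy']
      abel
    show y + m • s = 0 ∨ _
    rw [hxy]
    rcases h3 y' hy'B with h0 | ⟨p, hp, hp'⟩
    · rw [h0, zero_add]
      by_cases hj0 : j = 0
      · left; rw [hj0, zero_smul]
      · right
        by_cases hpar : Even j
        · obtain ⟨i, hi⟩ := hpar
          refine ⟨((2 * (i - 1) + 1) • s, (2 * (i - 1) + 2) • s), ?_, Or.inr ?_⟩
          · exact Finset.mem_union_right _ (Finset.mem_image.mpr ⟨i - 1, by
              rw [Finset.mem_range]; omega, rfl⟩)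
          · show j • s = _
            congr 1
            omega
        · rw [Nat.not_even_iff_odd] at hpar
          obtain ⟨i, hi⟩ := hpar
          refine ⟨((2 * i + 1) • s, (2 * i + 2) • s), ?_, Or.inl ?_⟩
          · exact Finset.mem_union_right _ (Finset.mem_image.mpr ⟨i, by
              rw [Finset.mem_range]; omega, rfl⟩)
          · show j • s = _
            rw [hi]
    · right
      refine ⟨(p.1 + j • s, p.2 + j • s), ?_, ?_⟩
      · exact Finset.mem_union_left _ (Finset.mem_image.mpr ⟨(p, j), by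
          rw [Finset.mem_product]; exact ⟨hp, by simpa using hj⟩, rfl⟩)
      · rcases hp' with h | h
        · left; rw [h]
        · right; rw [h]

/-- If every proper subgroup misses some nonneighbour of `0`, then `G` is
`((n+1)/2)`-colourable. -/
theorem color_conn [Fintype A] {G : SimpleGraph A} (hG : TransInv G)
    (hodd : Odd (Fintype.card A))
    (hconn : ∀ B : AddSubgroup A, B ≠ ⊤ → ∃ s, Gᶜ.Adj 0 s ∧ s ∉ B) :
    G.Colorable (Fintype.card A / 2 + 1) := by
  classical
  have htop : NearMatching G ⊤ := by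
    have hfin : (Set.univ : Set (AddSubgroup A)).Finite := Set.toFinite _
    obtain ⟨B, hB, hmax⟩ : ∃ B : AddSubgroup A, NearMatching G B ∧
        ∀ C : AddSubgroup A, NearMatching G C → Nat.card C ≤ Nat.card B := by
      have hne : ({B : AddSubgroup A | NearMatching G B}).Nonempty := ⟨⊥, nearMatching_bot G⟩
      obtain ⟨B, hB, hB'⟩ := Set.exists_max_image {B : AddSubgroup A | NearMatching G B}
        (fun B => Nat.card B) (Set.toFinite _) hne
      exact ⟨B, hB, hB'⟩
    by_cases hBt : B = ⊤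
    · rw [← hBt]; exact hB
    · obtain ⟨s, hs, hsB⟩ := hconn B hBt
      have h1 := hmax _ (nearMatching_extend hG hodd hB hs)
      have h2 : B < B ⊔ AddSubgroup.zmultiples s := by
        refine lt_of_le_of_ne le_sup_left fun h => hsB ?_
        rw [h]
        exact (le_sup_right : _ ≤ B ⊔ AddSubgroup.zmultiples s) (AddSubgroup.mem_zmultiples s)
      have h3 : Nat.card B < Nat.card (B ⊔ AddSubgroup.zmultiples s : AddSubgroup A) := by
        have : ((B : Set A)).ncard < ((B ⊔ AddSubgroup.zmultiples s : AddSubgroup A) : Set A).ncard :=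
          Set.ncard_lt_ncard (SetLike.coe_ssubset_coe.mpr h2) (Set.toFinite _)
        simpa [← Nat.card_coe_set_eq] using this
      omega
  obtain ⟨F, h1, h2, h3⟩ := htop
  refine colorable_of_pairs F (fun p hp => (h1 p hp).1) h2 ?_
  have hcov : (Finset.univ : Finset A) ⊆ insert 0 (F.image Prod.fst ∪ F.image Prod.snd) := by
    intro x _
    rcases h3 x trivial with h | ⟨p, hp, h | h⟩
    · rw [h]; exact Finset.mem_insert_self _ _
    · exact Finset.mem_insert_of_mem (Finset.mem_union_left _ (Finset.mem_image.mpr ⟨p, hp, h.symm⟩))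
    · exact Finset.mem_insert_of_mem (Finset.mem_union_right _ (Finset.mem_image.mpr ⟨p, hp, h.symm⟩))
  have hc := Finset.card_le_card hcov
  rw [Finset.card_univ] at hc
  have hc2 := Finset.card_insert_le (0 : A) (F.image Prod.fst ∪ F.image Prod.snd)
  have hc3 := Finset.card_union_le (F.image (Prod.fst : A × A → A)) (F.image Prod.snd)
  have hc4 := Finset.card_image_le (s := F) (f := (Prod.fst : A × A → A))
  have hc5 := Finset.card_image_le (s := F) (f := (Prod.snd : A × A → A))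
  omega

end cay

end Pool.Agent.TH351.Shift
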