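import Mathlib
import Pool.Agent.TH351.CayThree

set_option autoImplicit false

namespace Pool.Agent.TH351.Shift

open Pool.Agent.H484R3.Circ Finset

section group

/-- A transitive group of degree `p^2` contains two commuting elements generating a transitive
group. -/
theorem exists_commuting {Γ V : Type*} [Group Γ] [Finite Γ] [Fintype V] [MulAction Γ V]
    [MulAction.IsPretransitive Γ V] [FaithfulSMul Γ V] {p : ℕ} (hp : p.Prime)
    (hcard : Fintype.card V = p ^ 2) :
    ∃ z τ : Γ, z * τ = τ * z ∧ ∃ x₀ : V, ∀ y : V, ∃ γ ∈ Subgroup.closure {z, τ}, γ • x₀ = y := by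
  classical
  have hfact : Fact p.Prime := ⟨hp⟩
  have hp2 := hp.two_le
  obtain ⟨P⟩ : Nonempty (Sylow p Γ) := inferInstance
  have hPp : IsPGroup p P := P.2
  obtain ⟨k, hk⟩ := IsPGroup.iff_card.mp hPp
  obtain ⟨x₀⟩ : Nonempty V := Fintype.card_pos_iff.mp (by rw [hcard]; positivity)
  -- `P` is transitive
  have hidx : (MulAction.stabilizer P x₀).index = p ^ 2 := by
    have h1 : (MulAction.stabilizer P x₀).index ≤ p ^ 2 := by
      rw [MulAction.index_stabilizer, ← hcard, ← Nat.card_eq_fintype_card]
      exact Nat.card_le_card_of_injective _ Subtype.val_injective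
    have h2 : p ^ 2 ∣ (MulAction.stabilizer P x₀).index := by
      let K := MulAction.stabilizer Γ x₀
      have e0 : MulAction.stabilizer P x₀ = K.subgroupOf (P : Subgroup Γ) := by
        ext γ
        rw [MulAction.mem_stabilizer_iff, Subgroup.mem_subgroupOf, MulAction.mem_stabilizer_iff]
        rfl
      have e1 : (K ⊓ P).relIndex (P : Subgroup Γ) * (P : Subgroup Γ).index = (K ⊓ P).index :=
        Subgroup.relIndex_mul_index inf_le_right
      have e2 : (K ⊓ P).relIndex K * K.index = (K ⊓ P).index :=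
        Subgroup.relIndex_mul_index inf_le_left
      have e3 : K.index = p ^ 2 := by
        show (MulAction.stabilizer Γ x₀).index = _
        rw [MulAction.index_stabilizer_of_transitive, Nat.card_eq_fintype_card, hcard]
      have e4 : (K ⊓ (P : Subgroup Γ)).relIndex (P : Subgroup Γ) =
          (MulAction.stabilizer P x₀).index := by
        rw [e0, Subgroup.inf_relIndex_right]
        rfl
      rw [e4] at e1
      have h3 : p ^ 2 ∣ (MulAction.stabilizer P x₀).index * (P : Subgroup Γ).index := by
        rw [e1, ← e2, e3]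
        exact dvd_mul_left _ _
      have hcop : Nat.Coprime (p ^ 2) (P : Subgroup Γ).index := by
        apply Nat.Coprime.pow_left
        rw [hp.coprime_iff_not_dvd]
        exact Sylow.not_dvd_index P
      exact hcop.dvd_of_dvd_mul_right h3
    have h3 : (MulAction.stabilizer P x₀).index ≠ 0 := Subgroup.index_ne_zero_of_finite
    exact le_antisymm h1 (Nat.le_of_dvd (Nat.pos_of_ne_zero h3) h2)
  have horb : ∀ y : V, ∃ γ : P, γ • x₀ = y := by
    have h1 : (MulAction.orbit P x₀).ncard = p ^ 2 := by
      rw [← hidx, MulAction.index_stabilizer]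
    have h2 : MulAction.orbit P x₀ = Set.univ := by
      apply Set.eq_of_subset_of_ncard_le (Set.subset_univ _)
      rw [Set.ncard_univ, Nat.card_eq_fintype_card, hcard, h1]
    intro y
    have : y ∈ MulAction.orbit P x₀ := by rw [h2]; trivial
    exact this
  -- a central element moving `x₀`
  have hnt : Nontrivial P := by
    by_contra hcon
    rw [not_nontrivial_iff_subsingleton] at hcon
    have h1 := Subgroup.index_dvd_card (MulAction.stabilizer P x₀)
    rw [hidx] at h1
    have h0 := Finite.card_le_one_iff_subsingleton.mpr hcon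
    have h2 := Nat.le_of_dvd Nat.card_pos h1
    nlinarith
  have hct : Nontrivial (Subgroup.center P) := hPp.center_nontrivial
  have hcP : IsPGroup p (Subgroup.center P) := hPp.to_subgroup _
  have hdvd : p ∣ Nat.card (Subgroup.center P) := by
    obtain ⟨n, hn⟩ := IsPGroup.iff_card.mp hcP
    have hn0 : n ≠ 0 := by
      rintro rfl
      rw [pow_zero] at hn
      have := Finite.one_lt_card (α := Subgroup.center P)
      omega
    rw [hn]
    exact dvd_pow_self p hn0
  obtain ⟨z', hz'⟩ := exists_prime_orderOf_dvd_card' p hdvd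
  let z : P := z'.1
  have hzc : ∀ γ : P, z * γ = γ * z := fun γ => ((Subgroup.mem_center_iff.mp z'.2) γ).symm
  have hzord : orderOf z = p := (Subgroup.orderOf_coe z').trans hz'
  have hzp : z ^ p = 1 := by
    have h := pow_orderOf_eq_one z
    rwa [hzord] at h
  have hzx : z ∉ MulAction.stabilizer P x₀ := by
    intro h
    have h1 : z = 1 := by
      apply Subtype.ext
      apply FaithfulSMul.eq_of_smul_eq_smul (α := V)
      intro y
      obtain ⟨γ, rfl⟩ := horb y
      have h3 : z • x₀ = x₀ := h
      show z • γ • x₀ = (1 : Γ) • γ • x₀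
      rw [one_smul, ← mul_smul, hzc, mul_smul, h3]
    rw [h1, orderOf_one] at hzord
    omega
  -- the subgroup `Q`
  let Q : Subgroup P := MulAction.stabilizer P x₀ ⊔ Subgroup.zpowers z
  have hQmem : ∀ g ∈ Q, ∃ (j : ℤ) (s : P), s ∈ MulAction.stabilizer P x₀ ∧ g = z ^ j * s := by
    intro g hg
    have hzn : (Subgroup.zpowers z).Normal := by
      constructor
      rintro n ⟨j, rfl⟩ γ
      have : γ * (z ^ j) * γ⁻¹ = z ^ j := by
        have h1 : Commute γ (z ^ j) := (show Commute γ z from (hzc γ).symm).zpow_right j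
        rw [h1.eq]; group
      show γ * (z ^ j) * γ⁻¹ ∈ _
      rw [this]
      exact ⟨j, rfl⟩
    rw [show Q = Subgroup.zpowers z ⊔ MulAction.stabilizer P x₀ from sup_comm _ _,
      Subgroup.mem_sup_of_normal_left] at hg
    obtain ⟨a, ⟨j, rfl⟩, s, hs, rfl⟩ := hg
    exact ⟨j, s, hs, rfl⟩
  have hQx : ∀ g ∈ Q, ∃ j : ℤ, g • x₀ = z ^ j • x₀ := by
    intro g hg
    obtain ⟨j, s, hs, rfl⟩ := hQmem g hg
    refine ⟨j, ?_⟩
    have h1 : s • x₀ = x₀ := hs
    rw [mul_smul, h1]
  have hQtop : Q ≠ ⊤ := by
    intro h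
    -- then the orbit has at most `p` elements
    have hsurj : Function.Surjective (fun i : Fin p => (z ^ (i : ℕ)) • x₀) := by
      intro y
      obtain ⟨γ, rfl⟩ := horb y
      obtain ⟨j, hj⟩ := hQx γ (by rw [h]; trivial)
      have hpos : (0 : ℤ) < p := by exact_mod_cast hp.pos
      refine ⟨⟨(j % p).toNat, ?_⟩, ?_⟩
      · have h4 := Int.emod_lt_of_pos j hpos
        have h5 := Int.emod_nonneg j hpos.ne'
        omega
      · show z ^ (j % p).toNat • x₀ = γ • x₀
        rw [hj]
        congr 1
        rw [← zpow_natCast, Int.toNat_of_nonneg (Int.emod_nonneg j hpos.ne')]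
        have h6 : z ^ j = z ^ (j % p) * z ^ ((p : ℤ) * (j / p)) := by
          rw [← zpow_add, Int.emod_add_mul_ediv]
        rw [h6, zpow_mul, zpow_natCast, hzp, one_zpow, mul_one]
    have h1 := Fintype.card_le_of_surjective _ hsurj
    rw [Fintype.card_fin, hcard] at h1
    nlinarith
  have hQidx : Q.index = p := by
    have e1 : (MulAction.stabilizer P x₀).relIndex Q * Q.index = p ^ 2 := by
      rw [← hidx]
      exact Subgroup.relIndex_mul_index le_sup_left
    have h1 : Q.index ∣ p ^ 2 := ⟨(MulAction.stabilizer P x₀).relIndex Q, by rw [← e1, mul_comm]⟩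
    obtain ⟨i, hi, hi'⟩ := (Nat.dvd_prime_pow hp).mp h1
    have hi0 : i ≠ 0 := by
      rintro rfl
      rw [pow_zero, Subgroup.index_eq_one] at hi'
      exact hQtop hi'
    have hi2 : i ≠ 2 := by
      rintro rfl
      rw [hi'] at e1
      have h2 : (MulAction.stabilizer P x₀).relIndex Q = 1 := by
        have : 0 < p ^ 2 := by positivity
        exact Nat.eq_of_mul_eq_mul_right this (by rw [one_mul]; exact e1)
      rw [Subgroup.relIndex_eq_one] at h2
      apply hzx
      apply h2
      exact (le_sup_right : Subgroup.zpowers z ≤ Q) (Subgroup.mem_zpowers z)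
    have : i = 1 := by omega
    rw [hi', this, pow_one]
  have hQn : Q.Normal := by
    apply Subgroup.normal_of_index_eq_minFac_card
    have hk0 : k ≠ 0 := by
      rintro rfl
      rw [pow_zero] at hk
      have := Finite.one_lt_card (α := P)
      omega
    rw [hQidx, hk, hp.pow_minFac hk0]
  obtain ⟨τ, hτ⟩ : ∃ τ : P, τ ∉ Q := by
    by_contra hcon
    push Not at hcon
    apply hQtop
    rw [eq_top_iff]
    intro γ _
    exact hcon γ
  -- powers of `τ` represent all cosets
  have hrep : ∀ γ : P, ∃ i : ℤ, (τ ^ i)⁻¹ * γ ∈ Q := by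
    have hcQ : Nat.card (P ⧸ Q) = p := hQidx
    have hgen : ∀ x : P ⧸ Q, x ∈ Subgroup.zpowers (QuotientGroup.mk τ : P ⧸ Q) := by
      intro x
      refine mem_zpowers_of_prime_card (p := p) hcQ ?_
      intro h
      exact hτ ((QuotientGroup.eq_one_iff τ).mp h)
    intro γ
    obtain ⟨i, hi⟩ := hgen (QuotientGroup.mk γ)
    refine ⟨i, ?_⟩
    have h1 : (QuotientGroup.mk (τ ^ i) : P ⧸ Q) = QuotientGroup.mk γ := hi
    exact QuotientGroup.eq.mp h1
  refine ⟨(z : Γ), (τ : Γ), ?_, x₀, ?_⟩
  · have := hzc τ
    exact congrArg Subtype.val this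
  · intro y
    obtain ⟨γ, rfl⟩ := horb y
    obtain ⟨i, hi⟩ := hrep γ
    obtain ⟨j, hj⟩ := hQx _ hi
    have h1 : γ • x₀ = (τ ^ i * z ^ j) • x₀ := by
      rw [mul_smul, ← hj, ← mul_smul, mul_inv_cancel_left]
    refine ⟨(τ : Γ) ^ i * (z : Γ) ^ j, ?_, ?_⟩
    · exact Subgroup.mul_mem _
        (Subgroup.zpow_mem _ (Subgroup.subset_closure (by simp)) i)
        (Subgroup.zpow_mem _ (Subgroup.subset_closure (by simp)) j)
    · rw [h1]
      rfl

end group

end Pool.Agent.TH351.Shift
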