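import Mathlib
import Pool.Agent.TH351.CayShift

set_option autoImplicit false

namespace Pool.Agent.TH351.Shift

open Pool.Agent.H484R3.Circ Finset

section group

/-- A transitive group of degree `2p` contains an element all of whose cycles have length `p`. -/
theorem exists_semiregular {Γ V : Type*} [Group Γ] [Finite Γ] [Fintype V] [MulAction Γ V]
    [MulAction.IsPretransitive Γ V] {p : ℕ} (hp : p.Prime) (hp2 : p ≠ 2)
    (hcard : Fintype.card V = 2 * p) :
    ∃ γ : Γ, ∀ x : V, γ • x ≠ x ∧ γ ^ p • x = x := by
  classical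
  have hfact : Fact p.Prime := ⟨hp⟩
  have hp3 : 3 ≤ p := by
    have := hp.two_le
    omega
  obtain ⟨P⟩ : Nonempty (Sylow p Γ) := inferInstance
  have hPp : IsPGroup p P := P.2
  obtain ⟨k, hk⟩ := IsPGroup.iff_card.mp hPp
  -- the stabilizers have index p
  have hidx : ∀ x : V, (MulAction.stabilizer P x).index = p := by
    intro x
    have h1 : (MulAction.stabilizer P x).index ≠ 1 := by
      intro h
      rw [Subgroup.index_eq_one] at h
      have hle : (P : Subgroup Γ) ≤ MulAction.stabilizer Γ x := by
        intro γ hγ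
        have : (⟨γ, hγ⟩ : P) ∈ MulAction.stabilizer P x := by rw [h]; trivial
        exact this
      have h3 := Subgroup.relIndex_mul_index hle
      rw [MulAction.index_stabilizer_of_transitive] at h3
      apply Sylow.not_dvd_index P
      rw [← h3, Nat.card_eq_fintype_card, hcard]
      exact ⟨(P : Subgroup Γ).relIndex (MulAction.stabilizer Γ x) * 2, by ring⟩
    have h2 : (MulAction.stabilizer P x).index ∣ p ^ k := by
      rw [← hk]
      exact Subgroup.index_dvd_card _
    obtain ⟨i, -, hi⟩ := (Nat.dvd_prime_pow hp).mp h2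
    have h4 : (MulAction.stabilizer P x).index ≤ 2 * p := by
      rw [MulAction.index_stabilizer, ← hcard, ← Nat.card_eq_fintype_card]
      exact Nat.card_le_card_of_injective _ Subtype.val_injective
    have hi1 : i = 1 := by
      have hi0 : i ≠ 0 := by
        rintro rfl
        exact h1 (by rw [hi, pow_zero])
      by_contra hne
      have h5 : p ^ 2 ≤ p ^ i := Nat.pow_le_pow_right hp.pos (by omega)
      rw [hi] at h4
      nlinarith
    rw [hi, hi1, pow_one]
  have hk0 : k ≠ 0 := by
    rintro rfl
    obtain ⟨x⟩ : Nonempty V := Fintype.card_pos_iff.mp (by omega)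
    have h1 := hidx x
    have h2 : (MulAction.stabilizer P x).index ∣ 1 := by
      have := Subgroup.index_dvd_card (MulAction.stabilizer P x)
      rwa [hk, pow_zero] at this
    rw [h1, Nat.dvd_one] at h2
    omega
  have hnormal : ∀ x : V, (MulAction.stabilizer P x).Normal := by
    intro x
    apply Subgroup.normal_of_index_eq_minFac_card
    rw [hidx, hk, hp.pow_minFac hk0]
  -- two orbits
  obtain ⟨x₁⟩ : Nonempty V := Fintype.card_pos_iff.mp (by omega)
  have horb : ∀ x : V, Nat.card (MulAction.orbit P x) = p := by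
    intro x
    have h := hidx x
    rw [MulAction.index_stabilizer] at h
    rw [Nat.card_coe_set_eq]
    exact h
  obtain ⟨x₂, hx₂⟩ : ∃ x₂ : V, x₂ ∉ MulAction.orbit P x₁ := by
    by_contra hcon
    push Not at hcon
    have h1 : MulAction.orbit P x₁ = Set.univ := Set.eq_univ_of_forall hcon
    have h2 := horb x₁
    rw [h1, Nat.card_univ, Nat.card_eq_fintype_card, hcard] at h2
    omega
  have hcov : ∀ x : V, x ∈ MulAction.orbit P x₁ ∨ x ∈ MulAction.orbit P x₂ := by
    have hdisj : Disjoint (MulAction.orbit P x₁) (MulAction.orbit P x₂) := by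
      rw [Set.disjoint_left]
      intro y hy hy'
      apply hx₂
      have e1 : MulAction.orbit P y = MulAction.orbit P x₁ := MulAction.orbit_eq_iff.mpr hy
      have e2 : MulAction.orbit P y = MulAction.orbit P x₂ := MulAction.orbit_eq_iff.mpr hy'
      rw [← e1, e2]
      exact MulAction.mem_orbit_self x₂
    have hc : (MulAction.orbit P x₁ ∪ MulAction.orbit P x₂).ncard = 2 * p := by
      rw [Set.ncard_union_eq hdisj]
      have e1 := horb x₁
      have e2 := horb x₂
      rw [Nat.card_coe_set_eq] at e1 e2
      omega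
    have hu : (MulAction.orbit P x₁ ∪ MulAction.orbit P x₂) = Set.univ := by
      apply Set.eq_of_subset_of_ncard_le (Set.subset_univ _)
      rw [Set.ncard_univ, Nat.card_eq_fintype_card, hcard, hc]
    intro x
    have : x ∈ (MulAction.orbit P x₁ ∪ MulAction.orbit P x₂) := by rw [hu]; trivial
    exact this
  -- an element outside both stabilizers
  have hout : ∀ x : V, ∃ γ : P, γ ∉ MulAction.stabilizer P x := by
    intro x
    by_contra hcon
    push Not at hcon
    have : MulAction.stabilizer P x = ⊤ := by
      rw [eq_top_iff]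
      intro γ _
      exact hcon γ
    have h1 := hidx x
    rw [this, Subgroup.index_top] at h1
    omega
  obtain ⟨γ, hγ1, hγ2⟩ : ∃ γ : P, γ ∉ MulAction.stabilizer P x₁ ∧
      γ ∉ MulAction.stabilizer P x₂ := by
    obtain ⟨a, ha⟩ := hout x₁
    obtain ⟨b, hb⟩ := hout x₂
    by_cases ha2 : a ∈ MulAction.stabilizer P x₂
    · by_cases hb1 : b ∈ MulAction.stabilizer P x₁
      · refine ⟨a * b, fun h => ha ?_, fun h => hb ?_⟩
        · exact (Subgroup.mul_mem_cancel_right _ hb1).mp h
        · exact (Subgroup.mul_mem_cancel_left _ ha2).mp h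
      · exact ⟨b, hb1, hb⟩
    · exact ⟨a, ha, ha2⟩
  have hgen : ∀ z : V, γ ∉ MulAction.stabilizer P z → ∀ x ∈ MulAction.orbit P z,
      γ • x ≠ x ∧ γ ^ p • x = x := by
    rintro z hz x ⟨h, rfl⟩
    have hn := hnormal z
    constructor
    · intro he
      apply hz
      have h1 : h⁻¹ * γ * h ∈ MulAction.stabilizer P z := by
        rw [MulAction.mem_stabilizer_iff, mul_smul, mul_smul]
        show h⁻¹ • γ • h • z = z
        have he' : γ • h • z = h • z := he
        rw [he', inv_smul_smul]
      have h2 := hn.conj_mem _ h1 h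
      have h3 : h * (h⁻¹ * γ * h) * h⁻¹ = γ := by group
      rwa [h3] at h2
    · have h1 : γ ^ p ∈ MulAction.stabilizer P z := by
        have h0 := Subgroup.pow_index_mem (MulAction.stabilizer P z) γ
        rwa [hidx z] at h0
      have h2 := hn.conj_mem _ h1 h⁻¹
      rw [MulAction.mem_stabilizer_iff, inv_inv, mul_smul, mul_smul] at h2
      show γ ^ p • h • z = h • z
      conv_rhs => rw [← h2]
      rw [smul_inv_smul]
  refine ⟨(γ : Γ), fun x => ?_⟩
  have := (hcov x).elim (hgen x₁ hγ1 x) (hgen x₂ hγ2 x)
  exact this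

end group

end Pool.Agent.TH351.Shift
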