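import Mathlib
import Pool.Agent.TH351.TwoP

set_option autoImplicit false

namespace Pool.Agent.TH351.Shift

open Pool.Agent.H484R3.Circ Finset

section perm

variable {V : Type*} {p : ℕ} {g : Equiv.Perm V} (hp : p.Prime) (hfix : ∀ x, g x ≠ x)
  (hpow : ∀ x, (g ^ p) x = x)

include hp hfix hpow in
theorem period_eq (x : V) : Function.minimalPeriod g x = p := by
  have h1 : Function.IsPeriodicPt g p x := by
    rw [Function.IsPeriodicPt, Function.IsFixedPt, Equiv.Perm.iterate_eq_pow]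
    exact hpow x
  rcases (Nat.dvd_prime hp).mp h1.minimalPeriod_dvd with h | h
  · rw [Function.minimalPeriod_eq_one_iff_isFixedPt] at h
    exact absurd h (hfix x)
  · exact h

include hp hfix hpow in
theorem pow_fix_iff (x : V) (i : ℕ) : (g ^ i) x = x ↔ p ∣ i := by
  rw [← period_eq hp hfix hpow x, ← Function.isPeriodicPt_iff_minimalPeriod_dvd,
    Function.IsPeriodicPt, Function.IsFixedPt, Equiv.Perm.iterate_eq_pow]

theorem pow_add_apply (g : Equiv.Perm V) (i j : ℕ) (x : V) :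
    (g ^ (i + j)) x = (g ^ i) ((g ^ j) x) := by
  rw [pow_add]; rfl

include hp hfix hpow in
theorem pow_inj_le {x : V} {i j : ℕ} (hij : i ≤ j) (h : (g ^ i) x = (g ^ j) x) : p ∣ j - i := by
  obtain ⟨t, rfl⟩ := Nat.exists_eq_add_of_le hij
  rw [pow_add_apply] at h
  have h1 := (g ^ i).injective h
  rw [Nat.add_sub_cancel_left]
  exact (pow_fix_iff hp hfix hpow x t).mp h1.symm

include hp hfix hpow in
theorem pow_inj {x : V} {i j : ℕ} (hi : i < p) (hj : j < p) (h : (g ^ i) x = (g ^ j) x) :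
    i = j := by
  rcases le_total i j with hij | hij
  · have h1 := pow_inj_le hp hfix hpow hij h
    have h3 := Nat.eq_zero_of_dvd_of_lt h1 (by omega)
    omega
  · have h1 := pow_inj_le hp hfix hpow hij h.symm
    have h3 := Nat.eq_zero_of_dvd_of_lt h1 (by omega)
    omega

include hp hfix hpow in
theorem pow_mul_inj {x : V} {i j t : ℕ} (ht : ¬ p ∣ t) (hi : i < p) (hj : j < p)
    (h : (g ^ (i * t)) x = (g ^ (j * t)) x) : i = j := by
  rcases le_total i j with hij | hij
  · have h1 := pow_inj_le hp hfix hpow (Nat.mul_le_mul_right t hij) h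
    rw [← Nat.sub_mul] at h1
    rcases (Nat.Prime.dvd_mul hp).mp h1 with h3 | h3
    · have h3 := Nat.eq_zero_of_dvd_of_lt h3 (by omega)
      omega
    · exact absurd h3 ht
  · have h1 := pow_inj_le hp hfix hpow (Nat.mul_le_mul_right t hij) h.symm
    rw [← Nat.sub_mul] at h1
    rcases (Nat.Prime.dvd_mul hp).mp h1 with h3 | h3
    · have h3 := Nat.eq_zero_of_dvd_of_lt h3 (by omega)
      omega
    · exact absurd h3 ht

include hp hfix hpow in
theorem exists_lt_pow [Finite V] {x y : V} (h : g.SameCycle x y) : ∃ m < p, (g ^ m) x = y := by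
  obtain ⟨m, hm⟩ := h.exists_nat_pow_eq
  refine ⟨m % p, Nat.mod_lt _ hp.pos, ?_⟩
  have h1 : (g ^ (m % p + p * (m / p))) x = y := by rw [Nat.mod_add_div, hm]
  rw [pow_add_apply] at h1
  have h2 : (g ^ (p * (m / p))) x = x := (pow_fix_iff hp hfix hpow x _).mpr (dvd_mul_right _ _)
  rwa [h2] at h1

include hp hfix hpow in
theorem three_cycles [Fintype V] (hcard : Fintype.card V = 2 * p) (z : Fin 3 → V) :
    ∃ i j, i ≠ j ∧ g.SameCycle (z i) (z j) := by
  by_contra hcon
  push Not at hcon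
  have hinj : Function.Injective (fun c : Fin 3 × Fin p => (g ^ (c.2 : ℕ)) (z c.1)) := by
    rintro ⟨c, i⟩ ⟨c', i'⟩ h
    have hc : c = c' := by
      by_contra hne
      apply hcon c c' hne
      have h1 : g.SameCycle (z c) ((g ^ (i : ℕ)) (z c)) := ⟨i, by simp⟩
      have h3 : g.SameCycle (z c') ((g ^ (i' : ℕ)) (z c')) := ⟨i', by simp⟩
      exact h1.trans ((by simpa using h : (g ^ (i : ℕ)) (z c) = (g ^ (i' : ℕ)) (z c')) ▸ h3.symm)
    subst hc
    have := pow_inj hp hfix hpow i.2 i'.2 h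
    rw [Fin.ext this]
  have h1 := Fintype.card_le_of_injective _ hinj
  rw [Fintype.card_prod, Fintype.card_fin, Fintype.card_fin, hcard] at h1
  have := hp.pos
  omega

include hp hfix hpow in
theorem exists_two [Fintype V] (hcard : Fintype.card V = 2 * p) :
    ∃ x₁ x₂ : V, ¬ g.SameCycle x₁ x₂ := by
  obtain ⟨x₁⟩ : Nonempty V := Fintype.card_pos_iff.mp (by have := hp.pos; omega)
  refine ⟨x₁, ?_⟩
  by_contra hcon
  push Not at hcon
  have hsurj : Function.Surjective (fun i : Fin p => (g ^ (i : ℕ)) x₁) := by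
    intro y
    obtain ⟨m, hm, hmy⟩ := exists_lt_pow hp hfix hpow (hcon y)
    exact ⟨⟨m, hm⟩, hmy⟩
  have h1 := Fintype.card_le_of_surjective _ hsurj
  rw [Fintype.card_fin, hcard] at h1
  have := hp.pos
  omega

include hp hfix hpow in
theorem cover [Fintype V] (hcard : Fintype.card V = 2 * p) {x₁ x₂ : V}
    (h12 : ¬ g.SameCycle x₁ x₂) (y : V) : g.SameCycle x₁ y ∨ g.SameCycle x₂ y := by
  obtain ⟨i, j, hij, h⟩ := three_cycles hp hfix hpow hcard ![x₁, x₂, y]
  fin_cases i <;> fin_cases j <;> simp at h hij ⊢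
  · exact absurd h h12
  · exact Or.inl h
  · exact absurd h.symm h12
  · exact Or.inr h
  · exact Or.inl h.symm
  · exact Or.inr h.symm

end perm

section minor

variable {V : Type*} [Fintype V] {p : ℕ} {g : Equiv.Perm V} {G : SimpleGraph V}
  (hp : p.Prime) (hfix : ∀ x, g x ≠ x) (hpow : ∀ x, (g ^ p) x = x)
  (hcard : Fintype.card V = 2 * p) (hα : AlphaTwo G) (hg : IsAut G g)

theorem pow_comm_apply (g : Equiv.Perm V) (i j : ℕ) (x : V) :
    (g ^ i) ((g ^ j) x) = (g ^ j) ((g ^ i) x) := by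
  rw [← pow_add_apply, ← pow_add_apply, add_comm]

include hp hfix hpow hcard hg in
theorem common {x₁ x₂ : V} (h12 : ¬ g.SameCycle x₁ x₂) {j : ℕ}
    (h1 : Gᶜ.Adj x₁ ((g ^ j) x₁)) (h2 : Gᶜ.Adj x₂ ((g ^ j) x₂)) (x : V) :
    Gᶜ.Adj x ((g ^ j) x) := by
  rcases cover hp hfix hpow hcard h12 x with h | h
  · obtain ⟨m, -, rfl⟩ := exists_lt_pow hp hfix hpow h
    rw [pow_comm_apply, compl_map (hg.pow m)]
    exact h1
  · obtain ⟨m, -, rfl⟩ := exists_lt_pow hp hfix hpow h
    rw [pow_comm_apply, compl_map (hg.pow m)]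
    exact h2

include hp hfix hpow hcard hα hg in
theorem two_p_minor (hp2 : p ≠ 2) : CliqueMinor G p := by
  classical
  have hhalf : Fintype.card V / 2 = p := by omega
  by_cases hcom : ∃ j, 0 < j ∧ j < p ∧ ∀ x, Gᶜ.Adj x ((g ^ j) x)
  · obtain ⟨j, hj0, hjp, hj⟩ := hcom
    obtain ⟨r, hr⟩ := hp.odd_of_ne_two hp2
    -- i = j (r+1)
    have hii : ∀ x, (g ^ (j * (r + 1))) ((g ^ (j * (r + 1))) x) = (g ^ j) x := by
      intro x
      rw [← pow_add_apply]
      have : j * (r + 1) + j * (r + 1) = j + p * j := by rw [hr]; ring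
      rw [this, pow_add_apply]
      have h2 : (g ^ (p * j)) x = x := (pow_fix_iff hp hfix hpow x _).mpr (dvd_mul_right _ _)
      rw [h2]
    have hfix' : ∀ x, (g ^ (j * (r + 1))) x ≠ x := by
      intro x h
      have h1 := hii x
      rw [h, h] at h1
      have h3 := (pow_fix_iff hp hfix hpow x j).mp h1.symm
      have := Nat.eq_zero_of_dvd_of_lt h3 hjp
      omega
    have hpow' : ∀ x, ((g ^ (j * (r + 1))) ^ p) x = x := by
      intro x
      rw [← pow_mul]
      exact (pow_fix_iff hp hfix hpow x _).mpr (dvd_mul_left _ _)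
    have hmin := minor_three (g := g ^ (j * (r + 1))) hα (hg.pow _)
      (fun x => by rw [hii]; exact hj x)
      (fun x => by
        rw [period_eq hp hfix' hpow' x]
        exact hp.odd_of_ne_two hp2)
      (fun f => by
        obtain ⟨a, b, hab, h⟩ := three_cycles hp hfix' hpow' hcard
          (fun c : Fin 3 => f (Fin.castSucc c))
        exact ⟨_, _, fun h => hab (Fin.castSucc_injective 3 h), h⟩)
    rwa [hhalf] at hmin
  · push Not at hcom
    obtain ⟨x₁, x₂, h12⟩ := exists_two hp hfix hpow hcard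
    by_cases hall : ∀ c : ℕ, Gᶜ.Adj x₁ ((g ^ c) x₂)
    · refine cliqueMinor_of_clique G (fun i : Fin p => (g ^ (i : ℕ)) x₂) ?_ ?_
      · intro i j hij
        exact Fin.ext (pow_inj hp hfix hpow i.2 j.2 hij)
      · intro i j hij
        refine adj_of_not_compl hij fun h => ?_
        exact tri hα (hall i) h (hall j)
    · push Not at hall
      obtain ⟨c, hc⟩ := hall
      have h12' : ¬ g.SameCycle x₁ ((g ^ c) x₂) := by
        intro h
        apply h12
        have : g.SameCycle x₂ ((g ^ c) x₂) := ⟨c, by simp⟩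
        exact h.trans this.symm
      generalize (g ^ c) x₂ = y at hc h12'
      have hneq : ∀ i j : ℕ, (g ^ i) x₁ ≠ (g ^ j) y := by
        intro i j h
        apply h12'
        have e1 : g.SameCycle x₁ ((g ^ i) x₁) := ⟨i, by simp⟩
        have e2 : g.SameCycle y ((g ^ j) y) := ⟨j, by simp⟩
        exact e1.trans (h ▸ e2.symm)
      have hnc : ∀ i j : ℕ, i < j → j < p → ¬ (Gᶜ.Adj ((g ^ i) x₁) ((g ^ j) x₁) ∧
          Gᶜ.Adj ((g ^ i) y) ((g ^ j) y)) := by
        rintro i j hij hjp ⟨a1, a2⟩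
        obtain ⟨t, rfl⟩ := Nat.exists_eq_add_of_lt hij
        rw [add_assoc, pow_add_apply, compl_map (hg.pow i)] at a1 a2
        obtain ⟨x, hx⟩ := hcom (t + 1) (Nat.succ_pos t) (by omega)
        exact hx (common hp hfix hpow hcard hg h12' a1 a2 x)
      refine minor_of_pairs ((Finset.range p).image fun i => ((g ^ i) x₁, (g ^ i) y)) ?_ ?_ ?_
      · intro q hq
        obtain ⟨i, -, rfl⟩ := Finset.mem_image.mp hq
        refine adj_of_not_compl (hneq i i) ?_
        rw [compl_map (hg.pow i)]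
        exact hc
      · intro q hq q' hq' hqq
        obtain ⟨i, hi, rfl⟩ := Finset.mem_image.mp hq
        obtain ⟨j, hj, rfl⟩ := Finset.mem_image.mp hq'
        have hi' : i < p := by simpa using hi
        have hj' : j < p := by simpa using hj
        have hij : i ≠ j := fun h => hqq (by rw [h])
        refine ⟨fun h => hij (pow_inj hp hfix hpow hi' hj' h), hneq i j,
          fun h => hneq j i h.symm, fun h => hij (pow_inj hp hfix hpow hi' hj' h), ?_⟩
        by_contra hcon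
        push Not at hcon
        obtain ⟨a, -, -, d⟩ := hcon
        have ha : Gᶜ.Adj ((g ^ i) x₁) ((g ^ j) x₁) :=
          ⟨fun h => hij (pow_inj hp hfix hpow hi' hj' h), a⟩
        have hd : Gᶜ.Adj ((g ^ i) y) ((g ^ j) y) :=
          ⟨fun h => hij (pow_inj hp hfix hpow hi' hj' h), d⟩
        rcases lt_or_gt_of_ne hij with h | h
        · exact hnc i j h hj' ⟨ha, hd⟩
        · exact hnc j i h hi' ⟨ha.symm, hd.symm⟩
      · rw [Finset.card_image_of_injOn, Finset.card_range]
        intro i hi j hj hij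
        exact pow_inj hp hfix hpow (by simpa using hi) (by simpa using hj) (Prod.mk.inj hij).1

end minor

section color

variable {V : Type*} [Fintype V] {G : SimpleGraph V}

theorem color_ab {r : ℕ} (hcard : Fintype.card V = 2 * (2 * r + 1)) (a b : ℕ → V)
    (ha : ∀ m m', m < 2 * r + 1 → m' < 2 * r + 1 → a m = a m' → m = m')
    (hb : ∀ m m', m < 2 * r + 1 → m' < 2 * r + 1 → b m = b m' → m = m')
    (hab : ∀ m m', a m ≠ b m') (ha1 : ∀ m, ¬ G.Adj (a m) (a (m + 1)))
    (hb1 : ∀ m, ¬ G.Adj (b m) (b (m + 1))) :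
    G.Colorable (2 * r + 2) ∧ (¬ G.Adj (a 0) (b 0) → G.Colorable (2 * r + 1)) := by
  classical
  let D : V × V → V × V → Prop := fun p q => p.1 ≠ q.1 ∧ p.1 ≠ q.2 ∧ p.2 ≠ q.1 ∧ p.2 ≠ q.2
  have hD : ∀ p q, D p q → D q p := fun p q h => ⟨h.1.symm, h.2.2.1.symm, h.2.1.symm, h.2.2.2.symm⟩
  let F1 : Finset (V × V) := (Finset.range r).image fun i => (a (2 * i + 1), a (2 * i + 2))
  let F2 : Finset (V × V) := (Finset.range r).image fun i => (b (2 * i + 1), b (2 * i + 2))
  have m1 : ∀ p ∈ F1, ∃ i < r, (a (2 * i + 1), a (2 * i + 2)) = p := by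
    intro p hp
    obtain ⟨i, hi, rfl⟩ := Finset.mem_image.mp hp
    exact ⟨i, by simpa using hi, rfl⟩
  have m2 : ∀ p ∈ F2, ∃ i < r, (b (2 * i + 1), b (2 * i + 2)) = p := by
    intro p hp
    obtain ⟨i, hi, rfl⟩ := Finset.mem_image.mp hp
    exact ⟨i, by simpa using hi, rfl⟩
  have n1 : ∀ m m', m < 2 * r + 1 → m' < 2 * r + 1 → m ≠ m' → a m ≠ a m' :=
    fun m m' h h' hne he => hne (ha m m' h h' he)
  have n2 : ∀ m m', m < 2 * r + 1 → m' < 2 * r + 1 → m ≠ m' → b m ≠ b m' :=
    fun m m' h h' hne he => hne (hb m m' h h' he)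
  have c1 : F1.card = r := by
    rw [Finset.card_image_of_injOn, Finset.card_range]
    intro i hi j hj hij
    have hi' : i < r := by simpa using hi
    have hj' : j < r := by simpa using hj
    have := ha _ _ (by omega) (by omega) (Prod.mk.inj hij).1
    omega
  have c2 : F2.card = r := by
    rw [Finset.card_image_of_injOn, Finset.card_range]
    intro i hi j hj hij
    have hi' : i < r := by simpa using hi
    have hj' : j < r := by simpa using hj
    have := hb _ _ (by omega) (by omega) (Prod.mk.inj hij).1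
    omega
  have d11 : ∀ p ∈ F1, ∀ q ∈ F1, p ≠ q → D p q := by
    intro p hp q hq hpq
    obtain ⟨i, hi, rfl⟩ := m1 p hp
    obtain ⟨j, hj, rfl⟩ := m1 q hq
    have hij : i ≠ j := fun h => hpq (by rw [h])
    exact ⟨n1 _ _ (by omega) (by omega) (by omega), n1 _ _ (by omega) (by omega) (by omega),
      n1 _ _ (by omega) (by omega) (by omega), n1 _ _ (by omega) (by omega) (by omega)⟩
  have d22 : ∀ p ∈ F2, ∀ q ∈ F2, p ≠ q → D p q := by
    intro p hp q hq hpq
    obtain ⟨i, hi, rfl⟩ := m2 p hp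
    obtain ⟨j, hj, rfl⟩ := m2 q hq
    have hij : i ≠ j := fun h => hpq (by rw [h])
    exact ⟨n2 _ _ (by omega) (by omega) (by omega), n2 _ _ (by omega) (by omega) (by omega),
      n2 _ _ (by omega) (by omega) (by omega), n2 _ _ (by omega) (by omega) (by omega)⟩
  have d12 : ∀ p ∈ F1, ∀ q ∈ F2, D p q := by
    intro p hp q hq
    obtain ⟨i, hi, rfl⟩ := m1 p hp
    obtain ⟨j, hj, rfl⟩ := m2 q hq
    exact ⟨hab _ _, hab _ _, hab _ _, hab _ _⟩
  have d13 : ∀ p ∈ F1, D p (a 0, b 0) := by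
    intro p hp
    obtain ⟨i, hi, rfl⟩ := m1 p hp
    exact ⟨n1 _ _ (by omega) (by omega) (by omega), hab _ _,
      n1 _ _ (by omega) (by omega) (by omega), hab _ _⟩
  have d23 : ∀ p ∈ F2, D p (a 0, b 0) := by
    intro p hp
    obtain ⟨i, hi, rfl⟩ := m2 p hp
    exact ⟨(hab _ _).symm, n2 _ _ (by omega) (by omega) (by omega), (hab _ _).symm,
      n2 _ _ (by omega) (by omega) (by omega)⟩
  have hdisj : Disjoint F1 F2 := by
    rw [Finset.disjoint_left]
    intro p hp hp'
    exact (d12 p hp p hp').1 rfl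
  have hU : ∀ p ∈ F1 ∪ F2, p.1 ≠ p.2 ∧ ¬ G.Adj p.1 p.2 := by
    intro p hp
    rcases Finset.mem_union.mp hp with hp | hp
    · obtain ⟨i, hi, rfl⟩ := m1 p hp
      exact ⟨n1 _ _ (by omega) (by omega) (by omega), ha1 _⟩
    · obtain ⟨i, hi, rfl⟩ := m2 p hp
      exact ⟨n2 _ _ (by omega) (by omega) (by omega), hb1 _⟩
  have hUD : ∀ p ∈ F1 ∪ F2, ∀ q ∈ F1 ∪ F2, p ≠ q → D p q := by
    intro p hp q hq hpq
    rcases Finset.mem_union.mp hp with hp | hp <;> rcases Finset.mem_union.mp hq with hq | hq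
    · exact d11 p hp q hq hpq
    · exact d12 p hp q hq
    · exact hD _ _ (d12 q hq p hp)
    · exact d22 p hp q hq hpq
  have hUc : (F1 ∪ F2).card = 2 * r := by
    rw [Finset.card_union_of_disjoint hdisj, c1, c2]; ring
  refine ⟨colorable_of_pairs (F1 ∪ F2) hU hUD (by rw [hUc, hcard]; omega), ?_⟩
  intro h0
  have hUx : ∀ p ∈ F1 ∪ F2, D p (a 0, b 0) := by
    intro p hp
    rcases Finset.mem_union.mp hp with hp | hp
    · exact d13 p hp
    · exact d23 p hp
  have hnot : (a 0, b 0) ∉ F1 ∪ F2 := fun h => (hUx _ h).1 rfl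
  refine colorable_of_pairs (insert (a 0, b 0) (F1 ∪ F2)) ?_ ?_ ?_
  · intro p hp
    rcases Finset.mem_insert.mp hp with rfl | hp
    · exact ⟨hab _ _, h0⟩
    · exact hU p hp
  · intro p hp q hq hpq
    rcases Finset.mem_insert.mp hp with rfl | hp <;> rcases Finset.mem_insert.mp hq with rfl | hq
    · exact absurd rfl hpq
    · exact hD _ _ (hUx q hq)
    · exact hUx p hp
    · exact hUD p hp q hq hpq
  · rw [Finset.card_insert_of_notMem hnot, hUc, hcard]; omega

variable {p : ℕ} {g : Equiv.Perm V}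
  (hp : p.Prime) (hfix : ∀ x, g x ≠ x) (hpow : ∀ x, (g ^ p) x = x)
  (hcard : Fintype.card V = 2 * p) (hg : IsAut G g)

include hp hfix hpow hg in
/-- a missing inner edge on one side only contradicts regularity -/
theorem not_one_sided [DecidableRel Gᶜ.Adj] {x₁ x₂ : V} (h12 : ¬ g.SameCycle x₁ x₂)
    (hcov : ∀ y, g.SameCycle x₁ y ∨ g.SameCycle x₂ y)
    (hreg : (univ.filter (Gᶜ.Adj x₁)).card = (univ.filter (Gᶜ.Adj x₂)).card)
    {j : ℕ} (hin : Gᶜ.Adj x₁ ((g ^ j) x₁))
    (hno : ∀ i, ¬ Gᶜ.Adj x₂ ((g ^ i) x₂)) : False := by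
  classical
  have hmem : ∀ y ∈ univ.filter (Gᶜ.Adj x₂), ∃ m < p, (g ^ m) x₁ = y := by
    intro y hy
    have hy' : Gᶜ.Adj x₂ y := (Finset.mem_filter.mp hy).2
    rcases hcov y with h | h
    · exact exists_lt_pow hp hfix hpow h
    · obtain ⟨m, -, rfl⟩ := exists_lt_pow hp hfix hpow h
      exact absurd hy' (hno m)
  let ψ : V → V := fun y => if h : ∃ m < p, (g ^ m) x₁ = y then (g ^ (p - h.choose)) x₂ else y
  have hψ : ∀ y ∈ univ.filter (Gᶜ.Adj x₂), ∃ m < p, (g ^ m) x₁ = y ∧ ψ y = (g ^ (p - m)) x₂ := by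
    intro y hy
    have h := hmem y hy
    refine ⟨h.choose, h.choose_spec.1, h.choose_spec.2, ?_⟩
    simp only [ψ]
    rw [dif_pos h]
  have hle : (univ.filter (Gᶜ.Adj x₂)).card ≤
      ((univ.filter (Gᶜ.Adj x₁)).erase ((g ^ j) x₁)).card := by
    refine Finset.card_le_card_of_injOn ψ ?_ ?_
    · intro y hy
      obtain ⟨m, hm, hmy, hψy⟩ := hψ y hy
      have hy' : Gᶜ.Adj x₂ y := (Finset.mem_filter.mp hy).2
      rw [hψy]
      simp only [Finset.coe_erase, Finset.coe_filter, Finset.mem_univ, true_and,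
        Set.mem_sdiff, Set.mem_ofPred_eq, Set.mem_singleton_iff]
      constructor
      · have h1 := (compl_map (hg.pow (p - m))).mpr hy'
        rw [← hmy, ← pow_add_apply, Nat.sub_add_cancel hm.le, hpow] at h1
        exact h1.symm
      · intro h
        apply h12
        have e1 : g.SameCycle x₁ ((g ^ j) x₁) := ⟨j, by simp⟩
        have e2 : g.SameCycle x₂ ((g ^ (p - m)) x₂) := ⟨((p - m : ℕ) : ℤ), by rw [zpow_natCast]⟩
        exact e1.trans (h ▸ e2.symm)
    · intro y hy y' hy' h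
      obtain ⟨m, hm, hmy, hψy⟩ := hψ y hy
      obtain ⟨m', hm', hmy', hψy'⟩ := hψ y' hy'
      have h' : (g ^ (p - m)) x₂ = (g ^ (p - m')) x₂ := by rw [← hψy, ← hψy']; exact h
      have : m = m' := by
        rcases le_total m m' with hle | hle
        · have h3 := pow_inj_le hp hfix hpow (Nat.sub_le_sub_left hle p) h'.symm
          have h4 := Nat.eq_zero_of_dvd_of_lt h3 (by omega)
          omega
        · have h3 := pow_inj_le hp hfix hpow (Nat.sub_le_sub_left hle p) h'
          have h4 := Nat.eq_zero_of_dvd_of_lt h3 (by omega)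
          omega
      rw [← hmy, ← hmy', this]
  have hmem1 : (g ^ j) x₁ ∈ univ.filter (Gᶜ.Adj x₁) := by simpa using hin
  have := Finset.card_erase_lt_of_mem hmem1
  omega

include hp hfix hpow hcard hg in
theorem two_p_color [DecidableRel Gᶜ.Adj] (hp2 : p ≠ 2)
    (hreg : ∀ x y, (univ.filter (Gᶜ.Adj x)).card = (univ.filter (Gᶜ.Adj y)).card)
    (hne : ∃ x y, Gᶜ.Adj x y) :
    G.Colorable (p + 1) ∧ ((∃ x y, ¬ g.SameCycle x y ∧ Gᶜ.Adj x y) → G.Colorable p) := by
  classical
  obtain ⟨r, hr⟩ := hp.odd_of_ne_two hp2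
  have hcov : ∀ x₁ x₂ : V, ¬ g.SameCycle x₁ x₂ → ∀ y, g.SameCycle x₁ y ∨ g.SameCycle x₂ y :=
    fun x₁ x₂ h y => cover hp hfix hpow hcard h y
  have hsame : ∀ (i : ℕ) x, g.SameCycle x ((g ^ i) x) := fun i x => ⟨i, by simp⟩
  -- a general step
  have main : ∀ x₁ x₂ : V, ¬ g.SameCycle x₁ x₂ →
      (∃ j, Gᶜ.Adj x₁ ((g ^ j) x₁)) → (∃ j, Gᶜ.Adj x₂ ((g ^ j) x₂)) →
      G.Colorable (p + 1) ∧ (Gᶜ.Adj x₁ x₂ → G.Colorable p) := by
    rintro x₁ x₂ h12 ⟨j, hj⟩ ⟨j', hj'⟩
    have nd : ∀ (x : V) (j : ℕ), Gᶜ.Adj x ((g ^ j) x) → ¬ p ∣ j := by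
      intro x j hj h
      rw [(pow_fix_iff hp hfix hpow x j).mpr h] at hj
      exact Gᶜ.loopless.irrefl x hj
    have step : ∀ (x : V) (j : ℕ), Gᶜ.Adj x ((g ^ j) x) → ∀ m : ℕ,
        ¬ G.Adj ((g ^ (m * j)) x) ((g ^ ((m + 1) * j)) x) := by
      intro x j hj m
      rw [add_mul, one_mul, pow_add_apply]
      exact ((compl_map (hg.pow (m * j))).mpr hj).2
    have h := color_ab (G := G) (r := r) (by rw [hcard, hr]) (fun m => (g ^ (m * j)) x₁)
      (fun m => (g ^ (m * j')) x₂)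
      (fun m m' hm hm' h => pow_mul_inj hp hfix hpow (nd _ _ hj) (by omega) (by omega) h)
      (fun m m' hm hm' h => pow_mul_inj hp hfix hpow (nd _ _ hj') (by omega) (by omega) h)
      (fun m m' h => h12 ((hsame (m * j) x₁).trans (h ▸ (hsame (m' * j') x₂).symm)))
      (step x₁ j hj) (step x₂ j' hj')
    refine ⟨by rw [hr]; exact h.1, fun h0 => ?_⟩
    rw [hr]
    apply h.2
    simp only [Nat.zero_mul, pow_zero, Equiv.Perm.coe_one, id_eq]
    exact h0.2
  -- perfect matching between the cycles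
  have cross : ∀ x₁ x₂ : V, ¬ g.SameCycle x₁ x₂ → Gᶜ.Adj x₁ x₂ → G.Colorable p := by
    intro x₁ x₂ h12 hadj
    refine colorable_of_pairs ((Finset.range p).image fun i => ((g ^ i) x₁, (g ^ i) x₂)) ?_ ?_ ?_
    · intro q hq
      obtain ⟨i, -, rfl⟩ := Finset.mem_image.mp hq
      exact (compl_map (hg.pow i)).mpr hadj
    · intro q hq q' hq' hqq
      obtain ⟨i, hi, rfl⟩ := Finset.mem_image.mp hq
      obtain ⟨j, hj, rfl⟩ := Finset.mem_image.mp hq'
      have hi' : i < p := by simpa using hi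
      have hj' : j < p := by simpa using hj
      have hij : i ≠ j := fun h => hqq (by rw [h])
      have hcr : ∀ i j : ℕ, (g ^ i) x₁ ≠ (g ^ j) x₂ := fun i j h =>
        h12 ((hsame i x₁).trans (h ▸ (hsame j x₂).symm))
      refine ⟨fun h => hij (pow_inj hp hfix hpow hi' hj' h),
        fun h => hcr i j h, fun h => hcr j i h.symm,
        fun h => hij (pow_inj hp hfix hpow hi' hj' h)⟩
    · rw [Finset.card_image_of_injOn, Finset.card_range, hcard]
      · omega
      · intro i hi j hj hij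
        exact pow_inj hp hfix hpow (by simpa using hi) (by simpa using hj) (Prod.mk.inj hij).1
  constructor
  · by_cases hx : ∃ x y, ¬ g.SameCycle x y ∧ Gᶜ.Adj x y
    · obtain ⟨x, y, h1, h2⟩ := hx
      exact (cross x y h1 h2).mono (Nat.le_succ p)
    · push Not at hx
      obtain ⟨a, b, hab⟩ := hne
      have hsab : g.SameCycle a b := by
        by_contra h
        exact hx a b h hab
      obtain ⟨j, -, rfl⟩ := exists_lt_pow hp hfix hpow hsab
      obtain ⟨x₁, x₂, h12⟩ := exists_two hp hfix hpow hcard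
      obtain ⟨c, hc⟩ : ∃ c, ¬ g.SameCycle a c := by
        by_contra hcon
        push Not at hcon
        exact h12 ((hcon x₁).symm.trans (hcon x₂))
      by_cases hc' : ∃ i, Gᶜ.Adj c ((g ^ i) c)
      · exact (main a c hc ⟨j, hab⟩ hc').1
      · push Not at hc'
        exact (not_one_sided hp hfix hpow hg hc (hcov a c hc) (hreg a c) hab hc').elim
  · rintro ⟨x, y, h1, h2⟩
    exact cross x y h1 h2

end color

end Pool.Agent.TH351.Shift
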