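import Mathlib
import Pool.Agent.TH351.Sq
import Pool.Agent.TH351.TwoPB

set_option autoImplicit false

namespace Pool.Agent.TH351.Shift

open Pool.Agent.H484R3.Circ Finset

section cay

variable {A : Type*} [AddCommGroup A]

theorem conn_exists {G : SimpleGraph A} (hG : TransInv G) (hc : Gᶜ.Connected)
    (B : AddSubgroup A) (hB : B ≠ ⊤) : ∃ s, Gᶜ.Adj 0 s ∧ s ∉ B := by
  by_contra hcon
  push Not at hcon
  apply hB
  rw [eq_top_iff]
  intro x _
  obtain ⟨w⟩ := hc.preconnected 0 x
  have key : ∀ u v : A, (w : Gᶜ.Walk u v) → u ∈ B → v ∈ B := by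
    intro u v w
    induction w with
    | nil => exact id
    | @cons a b c h _ ih =>
      intro hu
      apply ih
      have h1 := hcon _ ((compl_iff hG _ _).mp h)
      have h2 := B.add_mem h1 hu
      rwa [sub_add_cancel] at h2
  exact key 0 x w B.zero_mem

/-- Q1 from the two bounds -/
theorem q1_of {V : Type*} [Fintype V] {G : SimpleGraph V} (h1 : CliqueMinor G (Fintype.card V / 2))
    (h2 : G.Colorable (Fintype.card V / 2 + 1)) {k : ℕ} (hk : ¬ G.Colorable k) :
    CliqueMinor G k := by
  refine CliqueMinor.mono ?_ h1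
  by_contra hlt
  exact hk (h2.mono (by omega))

/-- Circulant graphs of odd order. -/
theorem cyclic_odd [Fintype A] [IsAddCyclic A] {G : SimpleGraph A} (hG : TransInv G)
    (hα : AlphaTwo G) (hodd : Odd (Fintype.card A)) :
    CliqueMinor G (Fintype.card A / 2) ∧
      (Gᶜ.Connected → ∀ k, ¬ G.Colorable k → CliqueMinor G k) := by
  have h1 : CliqueMinor G (Fintype.card A / 2) := by
    obtain ⟨f, hf⟩ := IsAddCyclic.exists_generator (α := A)
    refine minor_cyclic hG hα hodd ⟨f, ?_⟩
    rw [eq_top_iff]
    intro x _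
    exact hf x
  exact ⟨h1, fun hc k hk => q1_of h1 (color_conn hG hodd (conn_exists hG hc)) hk⟩

/-- Two generating nonneighbours. -/
theorem two_odd [Fintype A] {G : SimpleGraph A} (hG : TransInv G)
    (hα : AlphaTwo G) (hodd : Odd (Fintype.card A)) {b c : A} (hb : Gᶜ.Adj 0 b)
    (hc : Gᶜ.Adj 0 c) (hgen : AddSubgroup.closure {b, c} = ⊤)
    (hidx : ∀ p : ℕ, p.Prime → p ∣ Fintype.card A →
      (AddSubgroup.zmultiples b).index ≤ 4 * p + 1) {k : ℕ} (hk : ¬ G.Colorable k) :
    CliqueMinor G k := by
  refine q1_of (minor_two hG hα hodd hb hc hgen hidx) (color_conn hG hodd ?_) hk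
  intro B hB
  by_contra hcon
  push Not at hcon
  apply hB
  rw [eq_top_iff, ← hgen, AddSubgroup.closure_le]
  rintro x (rfl | rfl)
  · exact hcon _ hb
  · exact hcon _ hc

theorem abelian_sq [Fintype A] {G : SimpleGraph A} (hG : TransInv G) (hα : AlphaTwo G) {p : ℕ}
    (hp : p.Prime) (hp2 : p ≠ 2) (hcard : Fintype.card A = p ^ 2) (hc : Gᶜ.Connected) :
    CliqueMinor G (Fintype.card A / 2) := by
  have hodd : Odd (Fintype.card A) := by
    rw [hcard]; exact (hp.odd_of_ne_two hp2).pow
  have hbt : (⊥ : AddSubgroup A) ≠ ⊤ := by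
    intro h
    have h1 : Nat.card (⊥ : AddSubgroup A) = Nat.card (⊤ : AddSubgroup A) := by rw [h]
    rw [AddSubgroup.card_bot, AddSubgroup.card_top, Nat.card_eq_fintype_card, hcard] at h1
    have := hp.two_le
    nlinarith
  obtain ⟨b, hb, hb0⟩ := conn_exists hG hc ⊥ hbt
  by_cases htop : AddSubgroup.zmultiples b = ⊤
  · exact minor_cyclic hG hα hodd ⟨b, htop⟩
  obtain ⟨c, hcS, hcb⟩ := conn_exists hG hc _ htop
  have hidx : (AddSubgroup.zmultiples b).index = p := by
    have h1 : (AddSubgroup.zmultiples b).index ∣ p ^ 2 := by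
      rw [← hcard, ← Nat.card_eq_fintype_card]
      exact AddSubgroup.index_dvd_card _
    obtain ⟨i, hi, hi'⟩ := (Nat.dvd_prime_pow hp).mp h1
    have hi0 : i ≠ 0 := by
      rintro rfl
      rw [pow_zero, AddSubgroup.index_eq_one] at hi'
      exact htop hi'
    have hi2 : i ≠ 2 := by
      rintro rfl
      have h3 := AddSubgroup.card_mul_index (AddSubgroup.zmultiples b)
      rw [hi', Nat.card_eq_fintype_card (α := A), hcard] at h3
      have h4 : Nat.card (AddSubgroup.zmultiples b) = 1 := by
        have : 0 < p ^ 2 := by have := hp.pos; positivity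
        exact Nat.eq_of_mul_eq_mul_right this (by rw [one_mul]; exact h3)
      rw [AddSubgroup.card_eq_one] at h4
      apply hb0
      rw [← h4]
      exact AddSubgroup.mem_zmultiples b
    have : i = 1 := by omega
    rw [hi', this, pow_one]
  refine minor_two hG hα hodd hb hcS ?_ ?_
  · have hle : AddSubgroup.zmultiples b ≤ AddSubgroup.closure {b, c} := by
      rw [AddSubgroup.zmultiples_le]
      exact AddSubgroup.subset_closure (by simp)
    have h1 := AddSubgroup.relIndex_mul_index hle
    rw [hidx] at h1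
    rcases (Nat.dvd_prime hp).mp ⟨(AddSubgroup.zmultiples b).relIndex (AddSubgroup.closure {b, c}),
      by rw [← h1, mul_comm]⟩ with h2 | h2
    · exact AddSubgroup.index_eq_one.mp h2
    · exfalso
      rw [h2] at h1
      have h3 : (AddSubgroup.zmultiples b).relIndex (AddSubgroup.closure {b, c}) = 1 :=
        Nat.eq_of_mul_eq_mul_right hp.pos (by rw [one_mul]; exact h1)
      rw [AddSubgroup.relIndex_eq_one] at h3
      exact hcb (h3 (AddSubgroup.subset_closure (by simp)))
  · intro r hr hrd
    rw [hcard] at hrd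
    have : r = p := (Nat.prime_dvd_prime_iff_eq hr hp).mp (hr.dvd_of_dvd_pow hrd)
    rw [hidx, this]
    omega

/-- Even order. -/
theorem even_abelian [Fintype A] {G : SimpleGraph A} (hG : TransInv G) (hα : AlphaTwo G)
    (heven : Even (Fintype.card A)) {d₀ : A} (h0 : d₀ + d₀ ≠ 0) (hd : ¬ G.Adj 0 (d₀ + d₀)) :
    CliqueMinor G (Fintype.card A / 2) := by
  classical
  have h2 : Fact (Nat.Prime 2) := ⟨Nat.prime_two⟩
  obtain ⟨t, ht⟩ := exists_prime_addOrderOf_dvd_card 2 heven.two_dvd
  have htt : t + t = 0 := by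
    have := addOrderOf_nsmul_eq_zero t
    rw [ht, two_nsmul] at this
    exact this
  have ht0 : t ≠ 0 := by
    rintro rfl
    rw [addOrderOf_zero] at ht
    omega
  obtain ⟨d, hdd, hev⟩ : ∃ d : A, d + d = d₀ + d₀ ∧ Even (addOrderOf d) := by
    by_cases hev : Even (addOrderOf d₀)
    · exact ⟨d₀, rfl, hev⟩
    · refine ⟨d₀ + t, ?_, ?_⟩
      · calc d₀ + t + (d₀ + t) = d₀ + d₀ + (t + t) := by abel
          _ = d₀ + d₀ := by rw [htt, add_zero]
      · by_contra hodd
        rw [Nat.not_even_iff_odd] at hev hodd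
        have hmul : ∀ m : ℕ, Odd m → m • t = t := by
          rintro m ⟨r, rfl⟩
          rw [add_smul, one_smul, mul_comm, mul_smul, two_smul, htt, smul_zero, zero_add]
        have h1 : (addOrderOf d₀ * addOrderOf (d₀ + t)) • (d₀ + t) = 0 := by
          rw [mul_smul, addOrderOf_nsmul_eq_zero, smul_zero]
        have h2 : (addOrderOf d₀ * addOrderOf (d₀ + t)) • d₀ = 0 := by
          rw [mul_comm, mul_smul, addOrderOf_nsmul_eq_zero, smul_zero]
        rw [smul_add, h2, zero_add, hmul _ (hev.mul hodd)] at h1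
        exact ht0 h1
  rw [← hdd] at h0 hd
  obtain ⟨P, hP⟩ := exists_alternating d hev
  have hc := card_alternating d P hP
  have hcard : Fintype.card (Fin (Fintype.card A / 2)) ≤ Fintype.card P := by
    rw [Fintype.card_fin]; omega
  obtain ⟨g⟩ := Function.Embedding.nonempty_of_card_le hcard
  refine minor_of_matching hG hα h0 hd (fun i => (g i).1)
    (fun i j h => g.injective (Subtype.ext h)) ?_
  intro i j h
  have : (g j).1 + d ∈ P := by
    rw [← h]; exact (g i).2
  exact (hP _).mp this (g j).2

end cay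

section transitive

variable {V : Type*} [Fintype V] {G : SimpleGraph V}

/-- the automorphism group as a group of permutations -/
def autGroup (G : SimpleGraph V) : Subgroup (Equiv.Perm V) where
  carrier := {σ | IsAut G σ}
  mul_mem' := by
    intro a b ha hb x y
    change IsAut G a at ha
    change IsAut G b at hb
    rw [Equiv.Perm.mul_apply, Equiv.Perm.mul_apply, ha, hb]
  one_mem' := by intro x y; simp
  inv_mem' := by
    intro a ha x y
    change IsAut G a at ha
    rw [← ha (a⁻¹ x) (a⁻¹ y)]
    simp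

theorem pretransitive (htr : ∀ x y : V, ∃ φ : G ≃g G, φ x = y) :
    MulAction.IsPretransitive (autGroup G) V := by
  constructor
  intro x y
  obtain ⟨φ, hφ⟩ := htr x y
  exact ⟨⟨φ.toEquiv, fun a b => φ.map_rel_iff⟩, hφ⟩

theorem card_filter_compl [DecidableRel Gᶜ.Adj] (htr : ∀ x y : V, ∃ φ : G ≃g G, φ x = y)
    (x y : V) : (univ.filter (Gᶜ.Adj x)).card = (univ.filter (Gᶜ.Adj y)).card := by
  classical
  obtain ⟨φ, rfl⟩ := htr x y
  have haut : IsAut G φ.toEquiv := fun a b => φ.map_rel_iff
  refine Finset.card_equiv φ.toEquiv ?_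
  intro z
  rw [Finset.mem_filter, Finset.mem_filter]
  simp only [Finset.mem_univ, true_and]
  exact (compl_map haut (x := x) (y := z)).symm

theorem transitive_two_p {p : ℕ} (hp : p.Prime) (hp2 : p ≠ 2) (hcard : Fintype.card V = 2 * p)
    (htr : ∀ x y : V, ∃ φ : G ≃g G, φ x = y) (hα : AlphaTwo G) {k : ℕ}
    (hk : ¬ G.Colorable k) :
    CliqueMinor G k ∧ (Gᶜ.Connected → CliqueMinor G (k + 1)) := by
  classical
  have hpt := pretransitive htr
  obtain ⟨γ, hγ⟩ := exists_semiregular (Γ := autGroup G) (V := V) hp hp2 hcard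
  have hfix : ∀ x, (γ : Equiv.Perm V) x ≠ x := fun x => (hγ x).1
  have hpow : ∀ x, ((γ : Equiv.Perm V) ^ p) x = x := by
    intro x
    have := (hγ x).2
    exact this
  have hg : IsAut G (γ : Equiv.Perm V) := γ.2
  have hmin := two_p_minor hp hfix hpow hcard hα hg hp2
  by_cases hne : ∃ x y, Gᶜ.Adj x y
  · obtain ⟨h1, h2⟩ := two_p_color hp hfix hpow hcard hg hp2 (card_filter_compl htr) hne
    constructor
    · refine CliqueMinor.mono ?_ hmin
      by_contra hlt
      exact hk (h1.mono (by omega))
    · intro hconn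
      refine CliqueMinor.mono ?_ hmin
      by_contra hlt
      refine hk ((h2 ?_).mono (by omega))
      by_contra hcon
      push Not at hcon
      obtain ⟨x₁, x₂, h12⟩ := exists_two hp hfix hpow hcard
      obtain ⟨w⟩ := hconn.preconnected x₁ x₂
      have key : ∀ u v : V, (w : Gᶜ.Walk u v) → (γ : Equiv.Perm V).SameCycle u v := by
        intro u v w
        induction w with
        | nil => exact Equiv.Perm.SameCycle.refl _ _
        | @cons a b c h _ ih =>
          have h3 : (γ : Equiv.Perm V).SameCycle a b := by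
            by_contra h4
            exact hcon _ _ h4 h
          exact h3.trans ih
      exact h12 (key _ _ w)
  · push Not at hne
    have hcomp : ∀ x y : V, x ≠ y → G.Adj x y := fun x y hxy => adj_of_not_compl hxy (hne x y)
    have hall : ∀ m : ℕ, m ≤ Fintype.card V → CliqueMinor G m := by
      intro m hm
      have hcm : Fintype.card (Fin m) ≤ Fintype.card V := by rw [Fintype.card_fin]; exact hm
      obtain ⟨f⟩ := Function.Embedding.nonempty_of_card_le hcm
      exact cliqueMinor_of_clique G f f.injective fun i j hij => hcomp _ _ hij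
    have hkV : k < Fintype.card V := by
      by_contra hlt
      exact hk (G.colorable_of_fintype.mono (by omega))
    exact ⟨hall k (by omega), fun _ => hall (k + 1) (by omega)⟩

theorem transitive_sq {p : ℕ} (hp : p.Prime) (hp2 : p ≠ 2) (hcard : Fintype.card V = p ^ 2)
    (htr : ∀ x y : V, ∃ φ : G ≃g G, φ x = y) (hα : AlphaTwo G) (hconn : Gᶜ.Connected) {k : ℕ}
    (hk : ¬ G.Colorable k) : CliqueMinor G k := by
  classical
  have hpt := pretransitive htr
  obtain ⟨z, τ, hzτ, x₀, hx₀⟩ := exists_commuting (Γ := autGroup G) (V := V) hp hcard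
  let K : Subgroup (autGroup G) := Subgroup.closure {z, τ}
  have hKc : ∀ a b : K, a * b = b * a := by
    have h1 : ∀ x ∈ ({z, τ} : Set (autGroup G)), ∀ y ∈ ({z, τ} : Set (autGroup G)),
        x * y = y * x := by
      rintro x (rfl | rfl) y (rfl | rfl)
      · rfl
      · exact hzτ
      · exact hzτ.symm
      · rfl
    have := Subgroup.isMulCommutative_closure h1
    intro a b
    exact this.is_comm.comm a b
  let A := Additive K
  let instA : AddCommGroup A :=
    { (inferInstance : AddGroup (Additive K)) with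
      add_comm := fun a b => hKc a.toMul b.toMul }
  have hcomm : ∀ a b : K, ∀ x : V, ((a : autGroup G) • (b : autGroup G) • x) =
      ((b : autGroup G) • (a : autGroup G) • x) := by
    intro a b x
    rw [← mul_smul, ← mul_smul]
    have := congrArg (Subtype.val) (hKc a b)
    have h2 : (a : autGroup G) * (b : autGroup G) = (b : autGroup G) * (a : autGroup G) := this
    rw [h2]
  let f : A → V := fun a => ((a.toMul : K) : autGroup G) • x₀
  have hfs : Function.Surjective f := by
    intro y
    obtain ⟨γ, hγ, hy⟩ := hx₀ y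
    exact ⟨Additive.ofMul ⟨γ, hγ⟩, hy⟩
  have hfi : Function.Injective f := by
    intro a b hab
    have hab' : ((a.toMul : K) : autGroup G) • x₀ = ((b.toMul : K) : autGroup G) • x₀ := hab
    have h1 : ((a.toMul : K) : autGroup G) = ((b.toMul : K) : autGroup G) := by
      apply FaithfulSMul.eq_of_smul_eq_smul (α := V)
      intro y
      obtain ⟨γ, hγ, rfl⟩ := hx₀ y
      have e1 := hcomm a.toMul ⟨γ, hγ⟩ x₀
      have e2 := hcomm b.toMul ⟨γ, hγ⟩ x₀
      rw [hab'] at e1
      exact e1.trans e2.symm
    exact Additive.toMul.injective (Subtype.ext h1)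
  let e : A ≃ V := Equiv.ofBijective f ⟨hfi, hfs⟩
  have hfinA : Fintype A := Fintype.ofEquiv V e.symm
  have hcA : Fintype.card A = p ^ 2 := by rw [Fintype.card_congr e, hcard]
  let G' : SimpleGraph A := G.comap f
  have iso : G' ≃g G := ⟨e, by intro a b; rfl⟩
  have hG' : TransInv G' := by
    intro x y w
    show G.Adj (f (x + w)) (f (y + w)) ↔ G.Adj (f x) (f y)
    have hact : ∀ a : A, f (a + w) = ((w.toMul : K) : autGroup G) • f a := by
      intro a
      have h1 : f (a + w) = ((a.toMul : K) : autGroup G) • ((w.toMul : K) : autGroup G) • x₀ := by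
        rw [← mul_smul]; rfl
      rw [h1, hcomm]
    rw [hact, hact]
    exact ((w.toMul : K) : autGroup G).2 (f x) (f y)
  have hα' : AlphaTwo G' := by
    intro x y w h1 h2 h3
    exact hα (f x) (f y) (f w) (hfi.ne h1) (hfi.ne h2) (hfi.ne h3)
  have hconn' : G'ᶜ.Connected := by
    have isoc : G'ᶜ ≃g Gᶜ := by
      refine ⟨e, ?_⟩
      intro a b
      rw [SimpleGraph.compl_adj, SimpleGraph.compl_adj]
      have h1 : e a ≠ e b ↔ a ≠ b := e.injective.ne_iff
      rw [h1]
      rfl
    exact isoc.connected_iff.mpr hconn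
  have hodd : Odd (Fintype.card A) := by
    rw [hcA]; exact (hp.odd_of_ne_two hp2).pow
  have hmin := abelian_sq hG' hα' hp hp2 hcA hconn'
  have hcol := color_conn hG' hodd (conn_exists hG' hconn')
  have hk' : ¬ G'.Colorable k := fun h => hk (h.of_hom iso.symm.toHom)
  exact CliqueMinor.map iso (q1_of hmin hcol hk')

end transitive

end Pool.Agent.TH351.Shift
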