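import Mathlib
import Pool.Agent.TH351.HadFinal

set_option autoImplicit false

namespace Pool.Agent.TH351.Shift

open Pool.Agent.H484R3.Circ Finset

section cyc

variable {A : Type*} [AddCommGroup A] [Fintype A] [IsAddCyclic A]

theorem cyclic_even_minor {G : SimpleGraph A} (hG : TransInv G) (hα : AlphaTwo G)
    (heven : Even (Fintype.card A)) : CliqueMinor G (Fintype.card A / 2) := by
  classical
  by_cases hex : ∃ d : A, d + d ≠ 0 ∧ ¬ G.Adj 0 (d + d)
  · obtain ⟨d, h0, hd⟩ := hex
    exact even_abelian hG hα heven h0 hd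
  · push Not at hex
    let S : Finset A := Finset.univ.image (fun x : A => x + x)
    have hS : Fintype.card A ≤ 2 * S.card := by
      have h1 : (Finset.univ : Finset A).card ≤ 2 * S.card := by
        refine Finset.card_le_mul_card_image_of_maps_to (f := fun x : A => x + x)
          (fun x _ => Finset.mem_image_of_mem _ (Finset.mem_univ x)) 2 ?_
        intro s hs
        obtain ⟨x, -, hx⟩ := Finset.mem_image.mp hs
        have hle : (Finset.univ.filter (fun y : A => y + y = s)).card ≤
            (Finset.univ.filter (fun y : A => 2 • y = 0)).card := by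
          refine Finset.card_le_card_of_injOn (fun y => y - x) ?_ ?_
          · intro y hy
            have hy' : y + y = s := by simpa using hy
            simp only [Finset.coe_filter, Finset.mem_univ, true_and, Set.mem_ofPred_eq]
            have : 2 • (y - x) = (y + y) - (x + x) := by rw [two_nsmul]; abel
            rw [this, hy', hx, sub_self]
          · intro y _ y' _ h
            exact sub_left_injective h
        exact hle.trans (IsAddCyclic.card_nsmul_eq_zero_le two_pos)
      simpa using h1
    have hcard : Fintype.card (Fin (Fintype.card A / 2)) ≤ Fintype.card S := by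
      rw [Fintype.card_fin, Fintype.card_coe]; omega
    obtain ⟨g⟩ := Function.Embedding.nonempty_of_card_le hcard
    refine cliqueMinor_of_clique G (fun i => (g i).1)
      (fun i j h => g.injective (Subtype.ext h)) ?_
    intro i j hij
    obtain ⟨x, -, hx⟩ := Finset.mem_image.mp (g i).2
    obtain ⟨y, -, hy⟩ := Finset.mem_image.mp (g j).2
    rw [adj_iff_sub hG]
    have : (g j).1 - (g i).1 = (y - x) + (y - x) := by
      rw [← hx, ← hy]; abel
    rw [this]
    apply hex
    rw [← this, sub_ne_zero]
    exact hij.symm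

theorem cyclic_even_color {G : SimpleGraph A} (hG : TransInv G)
    (heven : Even (Fintype.card A)) (hconn : Gᶜ.Connected) : G.Colorable (Fintype.card A / 2) := by
  classical
  obtain ⟨a, m, hm, hn⟩ := Nat.exists_eq_two_pow_mul_odd (n := Fintype.card A)
    (Fintype.card_pos (α := A)).ne'
  have hB : (nsmulAddMonoidHom m : A →+ A).ker ≠ ⊤ := by
    intro h
    obtain ⟨f, hf⟩ := IsAddCyclic.exists_generator (α := A)
    have h1 : f ∈ (nsmulAddMonoidHom m : A →+ A).ker := by rw [h]; trivial
    have h2 : m • f = 0 := h1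
    have h3 : addOrderOf f = Fintype.card A := by
      rw [← Nat.card_eq_fintype_card]
      exact addOrderOf_eq_card_of_forall_mem_zmultiples hf
    have h4 : Fintype.card A ∣ m := by rw [← h3]; exact addOrderOf_dvd_of_nsmul_eq_zero h2
    have h5 : 2 ∣ m := heven.two_dvd.trans h4
    exact (Nat.not_even_iff_odd.mpr hm) (even_iff_two_dvd.mpr h5)
  obtain ⟨s, hs, hsB⟩ := conn_exists hG hconn _ hB
  have hse : Even (addOrderOf s) := by
    by_contra ho
    rw [Nat.not_even_iff_odd] at ho
    apply hsB
    show m • s = 0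
    rw [← addOrderOf_dvd_iff_nsmul_eq_zero]
    have h1 : addOrderOf s ∣ 2 ^ a * m := by rw [← hn]; exact addOrderOf_dvd_card
    have h2 : Nat.Coprime (addOrderOf s) (2 ^ a) := by
      apply Nat.Coprime.pow_right
      exact Nat.Coprime.symm ((Nat.coprime_primes Nat.prime_two Nat.prime_two |>.not.mpr (by simp) |> fun _ =>
        (Nat.prime_two.coprime_iff_not_dvd).mpr (fun h => (Nat.not_even_iff_odd.mpr ho) (even_iff_two_dvd.mpr h))))
    exact h2.dvd_of_dvd_mul_left h1
  refine colorable_even hG hs.2 hse ?_
  obtain ⟨t, ht⟩ := heven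
  omega

end cyc

section transfer

variable {V : Type*} [Fintype V] {G : SimpleGraph V}

/-- Graphs with an automorphism permuting all vertices in one cycle. -/
theorem circulant_all (hα : AlphaTwo G) (g : G ≃g G) (x₀ : V)
    (hg : ∀ y : V, ∃ m : ℕ, (g : V → V)^[m] x₀ = y) :
    CliqueMinor G (Fintype.card V / 2) ∧
      (Gᶜ.Connected → ∀ k, ¬ G.Colorable k →
        CliqueMinor G k ∧ (Even (Fintype.card V) → CliqueMinor G (k + 1))) := by
  classical
  let γ : autGroup G := ⟨g.toEquiv, fun a b => g.map_rel_iff⟩
  have hx₀ : ∀ y : V, ∃ δ ∈ Subgroup.zpowers γ, δ • x₀ = y := by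
    intro y
    obtain ⟨m, hm⟩ := hg y
    refine ⟨γ ^ m, ⟨(m : ℤ), by simp⟩, ?_⟩
    rw [← hm]
    show ((γ ^ m : autGroup G) : Equiv.Perm V) x₀ = _
    rw [Subgroup.coe_pow, ← Equiv.Perm.iterate_eq_pow]
    rfl
  let K : Subgroup (autGroup G) := Subgroup.zpowers γ
  have hKc : ∀ a b : K, a * b = b * a := by
    rintro ⟨a, i, hi⟩ ⟨b, j, hj⟩
    apply Subtype.ext
    show a * b = b * a
    simp only at hi hj
    rw [← hi, ← hj, ← zpow_add, ← zpow_add, add_comm]
  let A := Additive K
  let instA : AddCommGroup A :=
    { (inferInstance : AddGroup (Additive K)) with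
      add_comm := fun a b => hKc a.toMul b.toMul }
  have hcycK : IsCyclic K := inferInstance
  have hcycA : IsAddCyclic A := by
    obtain ⟨δ, hδ⟩ := hcycK.exists_generator
    exact ⟨⟨Additive.ofMul δ, fun x => hδ x.toMul⟩⟩
  have hcomm : ∀ a b : K, ∀ x : V, ((a : autGroup G) • (b : autGroup G) • x) =
      ((b : autGroup G) • (a : autGroup G) • x) := by
    intro a b x
    rw [← mul_smul, ← mul_smul]
    have := congrArg (Subtype.val) (hKc a b)
    have h2 : (a : autGroup G) * (b : autGroup G) = (b : autGroup G) * (a : autGroup G) := this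
    rw [h2]
  let f : A → V := fun a => ((a.toMul : K) : autGroup G) • x₀
  have hfs : Function.Surjective f := by
    intro y
    obtain ⟨δ, hδ, hy⟩ := hx₀ y
    exact ⟨Additive.ofMul ⟨δ, hδ⟩, hy⟩
  have hfi : Function.Injective f := by
    intro a b hab
    have hab' : ((a.toMul : K) : autGroup G) • x₀ = ((b.toMul : K) : autGroup G) • x₀ := hab
    have h1 : ((a.toMul : K) : autGroup G) = ((b.toMul : K) : autGroup G) := by
      apply FaithfulSMul.eq_of_smul_eq_smul (α := V)
      intro y
      obtain ⟨δ, hδ, rfl⟩ := hx₀ y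
      have e1 := hcomm a.toMul ⟨δ, hδ⟩ x₀
      have e2 := hcomm b.toMul ⟨δ, hδ⟩ x₀
      rw [hab'] at e1
      exact e1.trans e2.symm
    exact Additive.toMul.injective (Subtype.ext h1)
  let e : A ≃ V := Equiv.ofBijective f ⟨hfi, hfs⟩
  have hfinA : Fintype A := Fintype.ofEquiv V e.symm
  have hcA : Fintype.card A = Fintype.card V := Fintype.card_congr e
  let G' : SimpleGraph A := G.comap f
  have iso : G' ≃g G := ⟨e, by intro a b; rfl⟩
  have hG' : TransInv G' := by
    intro x y w
    show G.Adj (f (x + w)) (f (y + w)) ↔ G.Adj (f x) (f y)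
    have hact : ∀ a : A, f (a + w) = ((w.toMul : K) : autGroup G) • f a := by
      intro a
      have h1 : f (a + w) = ((a.toMul : K) : autGroup G) • ((w.toMul : K) : autGroup G) • x₀ := by
        rw [← mul_smul]; rfl
      rw [h1, hcomm]
    rw [hact, hact]
    exact ((w.toMul : K) : autGroup G).2 (f x) (f y)
  have hα' : AlphaTwo G' := by
    intro x y w h1 h2 h3
    exact hα (f x) (f y) (f w) (hfi.ne h1) (hfi.ne h2) (hfi.ne h3)
  have hmin : CliqueMinor G' (Fintype.card A / 2) := by
    rcases Nat.even_or_odd (Fintype.card A) with h | h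
    · exact cyclic_even_minor hG' hα' h
    · exact (cyclic_odd hG' hα' h).1
  have hminV : CliqueMinor G (Fintype.card V / 2) := by
    rw [← hcA]
    exact CliqueMinor.map iso hmin
  refine ⟨hminV, ?_⟩
  intro hconn k hk
  have hconn' : G'ᶜ.Connected := by
    have isoc : G'ᶜ ≃g Gᶜ := by
      refine ⟨e, ?_⟩
      intro a b
      rw [SimpleGraph.compl_adj, SimpleGraph.compl_adj]
      have h1 : e a ≠ e b ↔ a ≠ b := e.injective.ne_iff
      rw [h1]
      rfl
    exact isoc.connected_iff.mpr hconn
  have hk' : ¬ G'.Colorable k := fun h => hk (h.of_hom iso.symm.toHom)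
  rcases Nat.even_or_odd (Fintype.card A) with h | h
  · have hcol := cyclic_even_color hG' h hconn'
    have hlt : k + 1 ≤ Fintype.card V / 2 := by
      by_contra hc
      rw [← hcA] at hc
      exact hk' (hcol.mono (by omega))
    exact ⟨CliqueMinor.mono (by omega) hminV, fun _ => CliqueMinor.mono hlt hminV⟩
  · refine ⟨CliqueMinor.map iso ((cyclic_odd hG' hα' h).2 hconn' k hk'), ?_⟩
    intro he
    rw [← hcA] at he
    exact absurd h (Nat.not_odd_iff_even.mpr he)

end transfer

end Pool.Agent.TH351.Shift
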