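import Mathlib
import Pool.Agent.H484R3.CircB
import Pool.Agent.TH351.HadFinalB

set_option autoImplicit false

namespace Pool.Agent.TH351.Shift

open Pool.Agent.H484R3.Circ Finset

section cay

variable {A : Type*} [AddCommGroup A]

theorem near_top [Fintype A] {G : SimpleGraph A} (hG : TransInv G)
    (hodd : Odd (Fintype.card A))
    (hconn : ∀ B : AddSubgroup A, B ≠ ⊤ → ∃ s, Gᶜ.Adj 0 s ∧ s ∉ B) : NearMatching G ⊤ := by
  classical
  obtain ⟨B, hB, hmax⟩ : ∃ B : AddSubgroup A, NearMatching G B ∧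
      ∀ C : AddSubgroup A, NearMatching G C → Nat.card C ≤ Nat.card B := by
    have hne : ({B : AddSubgroup A | NearMatching G B}).Nonempty := ⟨⊥, nearMatching_bot G⟩
    obtain ⟨B, hB, hB'⟩ := Set.exists_max_image {B : AddSubgroup A | NearMatching G B}
      (fun B => Nat.card B) (Set.toFinite _) hne
    exact ⟨B, hB, hB'⟩
  by_cases hBt : B = ⊤
  · rw [← hBt]; exact hB
  · obtain ⟨s, hs, hsB⟩ := hconn B hBt
    have h1 := hmax _ (nearMatching_extend hG hodd hB hs)
    have h2 : B < B ⊔ AddSubgroup.zmultiples s := by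
      refine lt_of_le_of_ne le_sup_left fun h => hsB ?_
      rw [h]
      exact (le_sup_right : _ ≤ B ⊔ AddSubgroup.zmultiples s) (AddSubgroup.mem_zmultiples s)
    have h3 : Nat.card B < Nat.card (B ⊔ AddSubgroup.zmultiples s : AddSubgroup A) := by
      have : ((B : Set A)).ncard < ((B ⊔ AddSubgroup.zmultiples s : AddSubgroup A) : Set A).ncard :=
        Set.ncard_lt_ncard (SetLike.coe_ssubset_coe.mpr h2) (Set.toFinite _)
      simpa [← Nat.card_coe_set_eq] using this
    omega

/-- `G - 0` is `(n-1)/2`-colourable. -/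
theorem bag_zero [Fintype A] {G : SimpleGraph A} (hN : NearMatching G ⊤) :
    (G.induce {x | x ≠ 0}).Colorable (Fintype.card A / 2) := by
  classical
  obtain ⟨F, h1, h2, h3⟩ := hN
  have hx : ∀ x : {x : A | x ≠ 0}, ∃ p ∈ F, x.1 = p.1 ∨ x.1 = p.2 := by
    intro x
    rcases h3 x.1 trivial with h | h
    · exact absurd h x.2
    · exact h
  choose c hc hc' using hx
  have hcol : (G.induce {x | x ≠ 0}).Coloring F := by
    refine SimpleGraph.Coloring.mk (fun x => ⟨c x, hc x⟩) ?_
    intro x y hxy hcc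
    have hcc' : c x = c y := Subtype.ext_iff.mp hcc
    have hxy' : G.Adj x.1 y.1 := hxy
    have h4 := (h1 _ (hc x)).1
    rw [SimpleGraph.compl_adj] at h4
    rcases hc' x with h5 | h5 <;> rcases hc' y with h6 | h6 <;> rw [← hcc'] at h6
    · rw [h5, h6] at hxy'; exact hxy'.ne rfl
    · rw [h5, h6] at hxy'; exact h4.2 hxy'
    · rw [h5, h6] at hxy'; exact h4.2 hxy'.symm
    · rw [h5, h6] at hxy'; exact hxy'.ne rfl
  have hcF := hcol.colorable
  rw [Fintype.card_coe] at hcF
  refine hcF.mono ?_
  have hi1 : (F.image (Prod.fst : A × A → A)).card = F.card := by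
    apply Finset.card_image_of_injOn
    intro p hp q hq hpq
    by_contra hne
    exact (h2 p hp q hq hne).1 hpq
  have hi2 : (F.image (Prod.snd : A × A → A)).card = F.card := by
    apply Finset.card_image_of_injOn
    intro p hp q hq hpq
    by_contra hne
    exact (h2 p hp q hq hne).2.2.2 hpq
  have hd : Disjoint (F.image (Prod.fst : A × A → A)) (F.image (Prod.snd : A × A → A)) := by
    rw [Finset.disjoint_left]
    intro x hx1 hx2
    obtain ⟨p, hp, rfl⟩ := Finset.mem_image.mp hx1
    obtain ⟨q, hq, hqp⟩ := Finset.mem_image.mp hx2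
    by_cases hpq : p = q
    · subst hpq
      exact (h1 p hp).1.ne hqp.symm
    · exact (h2 p hp q hq hpq).2.1 hqp.symm
  have hle := Finset.card_le_univ ((F.image (Prod.fst : A × A → A)) ∪ (F.image (Prod.snd : A × A → A)))
  rw [Finset.card_union_of_disjoint hd, hi1, hi2] at hle
  omega

/-- The closed neighbourhood of `0` is `(n-1)/2`-colourable. -/
theorem bag_nbr {G : SimpleGraph A} (hG : TransInv G) {t : ℕ}
    (h : (G.induce {x | x ≠ 0}).Colorable t) {s : A} (hs : Gᶜ.Adj 0 s) :
    (G.induce (insert 0 (G.neighborSet 0))).Colorable t := by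
  rw [SimpleGraph.compl_adj] at hs
  have hmem : ∀ x : (insert 0 (G.neighborSet 0) : Set A), x.1 + -s ∈ {x : A | x ≠ 0} := by
    intro x hx
    have hxs : x.1 = s := by
      have h1 : x.1 + -s = 0 := hx
      rw [← sub_eq_add_neg, sub_eq_zero] at h1
      exact h1
    rcases x.2 with h0 | h0
    · rw [hxs] at h0; exact hs.1 h0.symm
    · rw [hxs] at h0; exact hs.2 h0
  exact h.of_hom ⟨fun x => ⟨x.1 + -s, hmem x⟩, fun {x y} hxy => (hG x.1 y.1 (-s)).mpr hxy⟩

end cay

section transfer

variable {V : Type*} {G : SimpleGraph V}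

theorem bags_transfer {A : Type*} [AddCommGroup A] [Fintype A] {G' : SimpleGraph A}
    (hG' : TransInv G') (iso : G' ≃g G) (hodd : Odd (Fintype.card A)) (hconn : Gᶜ.Connected)
    (hmin : CliqueMinor G' (Fintype.card A / 2)) {t : ℕ} (hk : ¬ CliqueMinor G (t + 1)) :
    ∃ v : V, (G.induce {x | x ≠ v}).Colorable t ∧
      (G.induce (insert v (G.neighborSet v))).Colorable t := by
  classical
  have hconn' : G'ᶜ.Connected := by
    have isoc : G'ᶜ ≃g Gᶜ := by
      refine ⟨iso.toEquiv, ?_⟩
      intro a b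
      rw [SimpleGraph.compl_adj, SimpleGraph.compl_adj]
      have h1 : iso.toEquiv a ≠ iso.toEquiv b ↔ a ≠ b := iso.toEquiv.injective.ne_iff
      rw [h1]
      have h2 : G.Adj (iso.toEquiv a) (iso.toEquiv b) ↔ G'.Adj a b := iso.map_rel_iff
      rw [h2]
    exact isoc.connected_iff.mpr hconn
  have hce := conn_exists hG' hconn'
  have hle : Fintype.card A / 2 ≤ t := by
    by_contra h
    exact hk (CliqueMinor.mono (by omega) (hmin.map iso))
  have ht0 : 1 ≤ t := by
    by_contra h
    apply hk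
    have h0 : t = 0 := by omega
    subst h0
    exact cliqueMinor_of_clique G (fun _ => iso 0) (fun i j _ => Fin.ext (by omega))
      (fun i j h => absurd rfl h)
  have hN := near_top hG' hodd hce
  have h1 : (G'.induce {x | x ≠ 0}).Colorable t := (bag_zero hN).mono hle
  have h2 : (G'.induce (insert 0 (G'.neighborSet 0))).Colorable t := by
    by_cases hex : ∃ s, G'ᶜ.Adj 0 s
    · obtain ⟨s, hs⟩ := hex
      exact bag_nbr hG' h1 hs
    · have hbot : (⊥ : AddSubgroup A) = ⊤ := by
        by_contra hne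
        obtain ⟨s, hs, -⟩ := hce ⊥ hne
        exact hex ⟨s, hs⟩
      have hall : ∀ x : A, x = 0 := by
        intro x
        have : x ∈ (⊤ : AddSubgroup A) := trivial
        rw [← hbot] at this
        exact AddSubgroup.mem_bot.mp this
      refine SimpleGraph.Colorable.mono ht0 ⟨SimpleGraph.Coloring.mk (fun _ => (0 : Fin 1)) ?_⟩
      intro x y hxy
      have hxy' : G'.Adj x.1 y.1 := hxy
      rw [hall x.1, hall y.1] at hxy'
      exact absurd rfl hxy'.ne
  refine ⟨iso 0, ?_, ?_⟩
  · have hmem : ∀ x : {x : V | x ≠ iso 0}, iso.symm x.1 ∈ {x : A | x ≠ 0} := by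
      intro x h
      apply x.2
      have h3 := congrArg iso h
      rwa [iso.apply_symm_apply] at h3
    exact h1.of_hom ⟨fun x => ⟨iso.symm x.1, hmem x⟩, fun {x y} hxy =>
      iso.symm.map_rel_iff.mpr hxy⟩
  · have hmem : ∀ x : (insert (iso 0) (G.neighborSet (iso 0)) : Set V),
        iso.symm x.1 ∈ (insert 0 (G'.neighborSet 0) : Set A) := by
      intro x
      rcases x.2 with h | h
      · left
        rw [h, iso.symm_apply_apply]
      · right
        have h' : G.Adj (iso 0) x.1 := h
        have h3 := iso.symm.map_rel_iff.mpr h'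
        rw [iso.symm_apply_apply] at h3
        exact h3
    exact h2.of_hom ⟨fun x => ⟨iso.symm x.1, hmem x⟩, fun {x y} hxy =>
      iso.symm.map_rel_iff.mpr hxy⟩

theorem alpha_iso {W : Type*} {G' : SimpleGraph W} (iso : G' ≃g G) (hα : AlphaTwo G) :
    AlphaTwo G' := by
  intro x y w h1 h2 h3
  rcases hα (iso x) (iso y) (iso w) (iso.injective.ne h1) (iso.injective.ne h2)
    (iso.injective.ne h3) with h | h | h
  · exact Or.inl (iso.map_rel_iff.mp h)
  · exact Or.inr (Or.inl (iso.map_rel_iff.mp h))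
  · exact Or.inr (Or.inr (iso.map_rel_iff.mp h))

/-- Circulant graphs are Cayley graphs of cyclic groups. -/
theorem circulant_cayley {V : Type} [Fintype V] {G : SimpleGraph V} (g : G ≃g G) (x₀ : V)
    (hg : ∀ y : V, ∃ m : ℕ, (g : V → V)^[m] x₀ = y) :
    ∃ (A : Type) (_ : AddCommGroup A) (_ : Fintype A) (_ : IsAddCyclic A) (G' : SimpleGraph A),
      TransInv G' ∧ Nonempty (G' ≃g G) := by
  classical
  let γ : autGroup G := ⟨g.toEquiv, fun a b => g.map_rel_iff⟩
  have hx₀ : ∀ y : V, ∃ δ ∈ Subgroup.zpowers γ, δ • x₀ = y := by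
    intro y
    obtain ⟨m, hm⟩ := hg y
    refine ⟨γ ^ m, ⟨(m : ℤ), by simp⟩, ?_⟩
    rw [← hm]
    show ((γ ^ m : autGroup G) : Equiv.Perm V) x₀ = _
    rw [Subgroup.coe_pow, ← Equiv.Perm.iterate_eq_pow]
    rfl
  let K : Subgroup (autGroup G) := Subgroup.zpowers γ
  have hKc : ∀ a b : K, a * b = b * a := by
    rintro ⟨a, i, hi⟩ ⟨b, j, hj⟩
    apply Subtype.ext
    show a * b = b * a
    simp only at hi hj
    rw [← hi, ← hj, ← zpow_add, ← zpow_add, add_comm]
  let A := Additive K
  let instA : AddCommGroup A :=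
    { (inferInstance : AddGroup (Additive K)) with
      add_comm := fun a b => hKc a.toMul b.toMul }
  have hcycK : IsCyclic K := inferInstance
  have hcycA : IsAddCyclic A := by
    obtain ⟨δ, hδ⟩ := hcycK.exists_generator
    exact ⟨⟨Additive.ofMul δ, fun x => hδ x.toMul⟩⟩
  have hcomm : ∀ a b : K, ∀ x : V, ((a : autGroup G) • (b : autGroup G) • x) =
      ((b : autGroup G) • (a : autGroup G) • x) := by
    intro a b x
    rw [← mul_smul, ← mul_smul]
    have := congrArg (Subtype.val) (hKc a b)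
    have h2 : (a : autGroup G) * (b : autGroup G) = (b : autGroup G) * (a : autGroup G) := this
    rw [h2]
  let f : A → V := fun a => ((a.toMul : K) : autGroup G) • x₀
  have hfs : Function.Surjective f := by
    intro y
    obtain ⟨δ, hδ, hy⟩ := hx₀ y
    exact ⟨Additive.ofMul ⟨δ, hδ⟩, hy⟩
  have hfi : Function.Injective f := by
    intro a b hab
    have hab' : ((a.toMul : K) : autGroup G) • x₀ = ((b.toMul : K) : autGroup G) • x₀ := hab
    have h1 : ((a.toMul : K) : autGroup G) = ((b.toMul : K) : autGroup G) := by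
      apply FaithfulSMul.eq_of_smul_eq_smul (α := V)
      intro y
      obtain ⟨δ, hδ, rfl⟩ := hx₀ y
      have e1 := hcomm a.toMul ⟨δ, hδ⟩ x₀
      have e2 := hcomm b.toMul ⟨δ, hδ⟩ x₀
      rw [hab'] at e1
      exact e1.trans e2.symm
    exact Additive.toMul.injective (Subtype.ext h1)
  let e : A ≃ V := Equiv.ofBijective f ⟨hfi, hfs⟩
  have hfinA : Fintype A := Fintype.ofEquiv V e.symm
  let G' : SimpleGraph A := G.comap f
  have iso : G' ≃g G := ⟨e, by intro a b; rfl⟩
  have hG' : TransInv G' := by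
    intro x y w
    show G.Adj (f (x + w)) (f (y + w)) ↔ G.Adj (f x) (f y)
    have hact : ∀ a : A, f (a + w) = ((w.toMul : K) : autGroup G) • f a := by
      intro a
      have h1 : f (a + w) = ((a.toMul : K) : autGroup G) • ((w.toMul : K) : autGroup G) • x₀ := by
        rw [← mul_smul]; rfl
      rw [h1, hcomm]
    rw [hact, hact]
    exact ((w.toMul : K) : autGroup G).2 (f x) (f y)
  exact ⟨A, instA, hfinA, hcycA, G', hG', ⟨iso⟩⟩

/-- Vertex-transitive graphs of order `p ^ 2` are Cayley graphs of abelian groups. -/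
theorem sq_cayley {V : Type} [Fintype V] {G : SimpleGraph V} {p : ℕ} (hp : p.Prime)
    (hcard : Fintype.card V = p ^ 2) (htr : ∀ x y : V, ∃ φ : G ≃g G, φ x = y) :
    ∃ (A : Type) (_ : AddCommGroup A) (_ : Fintype A) (G' : SimpleGraph A),
      TransInv G' ∧ Nonempty (G' ≃g G) := by
  classical
  have hpt := pretransitive htr
  obtain ⟨z, τ, hzτ, x₀, hx₀⟩ := exists_commuting (Γ := autGroup G) (V := V) hp hcard
  let K : Subgroup (autGroup G) := Subgroup.closure {z, τ}
  have hKc : ∀ a b : K, a * b = b * a := by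
    have h1 : ∀ x ∈ ({z, τ} : Set (autGroup G)), ∀ y ∈ ({z, τ} : Set (autGroup G)),
        x * y = y * x := by
      rintro x (rfl | rfl) y (rfl | rfl)
      · rfl
      · exact hzτ
      · exact hzτ.symm
      · rfl
    have := Subgroup.isMulCommutative_closure h1
    intro a b
    exact this.is_comm.comm a b
  let A := Additive K
  let instA : AddCommGroup A :=
    { (inferInstance : AddGroup (Additive K)) with
      add_comm := fun a b => hKc a.toMul b.toMul }
  have hcomm : ∀ a b : K, ∀ x : V, ((a : autGroup G) • (b : autGroup G) • x) =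
      ((b : autGroup G) • (a : autGroup G) • x) := by
    intro a b x
    rw [← mul_smul, ← mul_smul]
    have := congrArg (Subtype.val) (hKc a b)
    have h2 : (a : autGroup G) * (b : autGroup G) = (b : autGroup G) * (a : autGroup G) := this
    rw [h2]
  let f : A → V := fun a => ((a.toMul : K) : autGroup G) • x₀
  have hfs : Function.Surjective f := by
    intro y
    obtain ⟨γ, hγ, hy⟩ := hx₀ y
    exact ⟨Additive.ofMul ⟨γ, hγ⟩, hy⟩
  have hfi : Function.Injective f := by
    intro a b hab
    have hab' : ((a.toMul : K) : autGroup G) • x₀ = ((b.toMul : K) : autGroup G) • x₀ := hab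
    have h1 : ((a.toMul : K) : autGroup G) = ((b.toMul : K) : autGroup G) := by
      apply FaithfulSMul.eq_of_smul_eq_smul (α := V)
      intro y
      obtain ⟨γ, hγ, rfl⟩ := hx₀ y
      have e1 := hcomm a.toMul ⟨γ, hγ⟩ x₀
      have e2 := hcomm b.toMul ⟨γ, hγ⟩ x₀
      rw [hab'] at e1
      exact e1.trans e2.symm
    exact Additive.toMul.injective (Subtype.ext h1)
  let e : A ≃ V := Equiv.ofBijective f ⟨hfi, hfs⟩
  have hfinA : Fintype A := Fintype.ofEquiv V e.symm
  let G' : SimpleGraph A := G.comap f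
  have iso : G' ≃g G := ⟨e, by intro a b; rfl⟩
  have hG' : TransInv G' := by
    intro x y w
    show G.Adj (f (x + w)) (f (y + w)) ↔ G.Adj (f x) (f y)
    have hact : ∀ a : A, f (a + w) = ((w.toMul : K) : autGroup G) • f a := by
      intro a
      have h1 : f (a + w) = ((a.toMul : K) : autGroup G) • ((w.toMul : K) : autGroup G) • x₀ := by
        rw [← mul_smul]; rfl
      rw [h1, hcomm]
    rw [hact, hact]
    exact ((w.toMul : K) : autGroup G).2 (f x) (f y)
  exact ⟨A, instA, hfinA, G', hG', ⟨iso⟩⟩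

/-- The two bags. -/
theorem bags_sym {V : Type} [Fintype V] {G : SimpleGraph V} (hα : AlphaTwo G)
    (hconn : Gᶜ.Connected)
    (hsym : (∃ g : G ≃g G, ∀ x y : V, ∃ m : ℕ, (g : V → V)^[m] x = y) ∨
      ((∀ x y : V, ∃ φ : G ≃g G, φ x = y) ∧ ∃ p : ℕ, p.Prime ∧ p ≠ 2 ∧
        (Fintype.card V = 2 * p ∨ Fintype.card V = p ^ 2)))
    {t : ℕ} (hk : ¬ CliqueMinor G (t + 1)) :
    ∃ v : V, (G.induce {x | x ≠ v}).Colorable t ∧
      (G.induce (insert v (G.neighborSet v))).Colorable t := by
  classical
  obtain ⟨x₀⟩ := hconn.nonempty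
  have hcol : G.Colorable t → ∃ v : V, (G.induce {x | x ≠ v}).Colorable t ∧
      (G.induce (insert v (G.neighborSet v))).Colorable t := fun h =>
    ⟨x₀, colorable_induce h _, colorable_induce h _⟩
  rcases hsym with ⟨g, hg⟩ | ⟨htr, p, hp, hp2, hcard | hcard⟩
  · rcases Nat.even_or_odd (Fintype.card V) with he | ho
    · by_cases hc : G.Colorable t
      · exact hcol hc
      · exact absurd (((circulant_all hα g x₀ (hg x₀)).2 hconn t hc).2 he) hk
    · obtain ⟨A, i1, i2, i3, G', hG', ⟨iso⟩⟩ := circulant_cayley g x₀ (hg x₀)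
      have hodd : Odd (Fintype.card A) := by
        rw [Fintype.card_congr iso.toEquiv]; exact ho
      exact bags_transfer hG' iso hodd hconn (cyclic_odd hG' (alpha_iso iso hα) hodd).1 hk
  · by_cases hc : G.Colorable t
    · exact hcol hc
    · exact absurd ((transitive_two_p hp hp2 hcard htr hα hc).2 hconn) hk
  · obtain ⟨A, i1, i2, G', hG', ⟨iso⟩⟩ := sq_cayley hp hcard htr
    have hcA : Fintype.card A = p ^ 2 := by
      rw [Fintype.card_congr iso.toEquiv]; exact hcard
    have hodd : Odd (Fintype.card A) := by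
      rw [hcA]; exact (hp.odd_of_ne_two hp2).pow
    have hconn' : G'ᶜ.Connected := by
      have isoc : G'ᶜ ≃g Gᶜ := by
        refine ⟨iso.toEquiv, ?_⟩
        intro a b
        rw [SimpleGraph.compl_adj, SimpleGraph.compl_adj]
        have h1 : iso.toEquiv a ≠ iso.toEquiv b ↔ a ≠ b := iso.toEquiv.injective.ne_iff
        rw [h1]
        have h2 : G.Adj (iso.toEquiv a) (iso.toEquiv b) ↔ G'.Adj a b := iso.map_rel_iff
        rw [h2]
      exact isoc.connected_iff.mpr hconn
    exact bags_transfer hG' iso hodd hconn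
      (abelian_sq hG' (alpha_iso iso hα) hp hp2 hcA hconn') hk

end transfer

end Pool.Agent.TH351.Shift
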