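import Mathlib

set_option autoImplicit false

/-!
The ring `ℤ[2^(1/e)]` (`e` prime) with its coordinates.
-/

namespace Pool.Agent.TH351.RootRing

open Polynomial

/-- the real number `2^(1/e)` -/
noncomputable def al (e : ℕ) : ℝ := (2 : ℝ) ^ ((1 : ℝ) / e)

theorem al_pow (e : ℕ) (he : e ≠ 0) : al e ^ e = 2 := by
  unfold al
  rw [← Real.rpow_natCast, ← Real.rpow_mul (by norm_num)]
  have : (1 : ℝ) / e * e = 1 := by
    field_simp
  rw [this, Real.rpow_one]

/-- the element with coordinates `x` -/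
noncomputable def ev (e : ℕ) (x : Fin e → ℤ) : ℝ := ∑ i, (x i : ℝ) * al e ^ (i : ℕ)

theorem two_not_pow (e : ℕ) (he : e.Prime) : ∀ b : ℚ, b ^ e ≠ 2 := by
  intro b hb
  have h2 : e ≠ 0 := he.ne_zero
  have h3 : padicValRat 2 (b ^ e) = padicValRat 2 (2 : ℚ) := by rw [hb]
  have hb0 : b ≠ 0 := by
    rintro rfl
    rw [zero_pow h2] at hb
    norm_num at hb
  have : Fact (Nat.Prime 2) := ⟨Nat.prime_two⟩
  rw [padicValRat.pow] at h3
  have h4 : padicValRat 2 (2 : ℚ) = 1 := by
    have := padicValRat.self (p := 2) (by norm_num)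
    simpa using this
  rw [h4] at h3
  have h5 : (e : ℤ) ∣ 1 := ⟨_, h3.symm⟩
  have h6 : e ∣ 1 := by exact_mod_cast h5
  exact he.one_lt.ne' (Nat.dvd_one.mp h6)

theorem minpoly_al (e : ℕ) (he : e.Prime) : minpoly ℚ (al e) = X ^ e - C 2 := by
  have hirr : Irreducible (X ^ e - C (2 : ℚ)) :=
    X_pow_sub_C_irreducible_of_prime he (two_not_pow e he)
  symm
  apply minpoly.eq_of_irreducible_of_monic hirr
  · simp [al_pow e he.ne_zero]
  · exact monic_X_pow_sub_C _ he.ne_zero

theorem ev_eq_zero (e : ℕ) (he : e.Prime) (x : Fin e → ℤ) (h : ev e x = 0) : x = 0 := by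
  set f : ℚ[X] := ∑ i : Fin e, C ((x i : ℤ) : ℚ) * X ^ (i : ℕ) with hf
  have h1 : aeval (al e) f = 0 := by
    rw [hf, map_sum]
    simp only [map_mul, aeval_C, map_pow, aeval_X]
    rw [← h]
    unfold ev
    apply Finset.sum_congr rfl
    intro i _
    simp
  have hdeg : f.degree < e := by
    rw [hf]
    refine lt_of_le_of_lt (degree_sum_le _ _) ?_
    rw [Finset.sup_lt_iff]
    · intro i _
      refine lt_of_le_of_lt (degree_C_mul_X_pow_le _ _) ?_
      exact_mod_cast i.2
    · exact WithBot.bot_lt_coe _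
  have h2 : f = 0 := by
    by_contra hne
    have h3 := minpoly.degree_le_of_ne_zero ℚ (al e) hne h1
    rw [minpoly_al e he, degree_X_pow_sub_C he.pos] at h3
    exact absurd hdeg (not_lt.mpr h3)
  funext i
  have h3 : f.coeff (i : ℕ) = 0 := by rw [h2]; simp
  rw [hf, finsetSum_coeff] at h3
  simp only [coeff_C_mul, coeff_X_pow] at h3
  rw [Finset.sum_eq_single i] at h3
  · simpa using h3
  · intro j _ hj
    have : (i : ℕ) ≠ j := fun h => hj (Fin.ext h.symm)
    simp [this]
  · intro h; exact absurd (Finset.mem_univ _) h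

theorem ev_sub (e : ℕ) (x y : Fin e → ℤ) : ev e (x - y) = ev e x - ev e y := by
  unfold ev
  rw [← Finset.sum_sub_distrib]
  apply Finset.sum_congr rfl
  intro i _
  simp
  ring

theorem ev_inj (e : ℕ) (he : e.Prime) (x y : Fin e → ℤ) (h : ev e x = ev e y) : x = y := by
  have h1 : ev e (x - y) = 0 := by rw [ev_sub, h, sub_self]
  exact sub_eq_zero.mp (ev_eq_zero e he _ h1)

theorem ev_smul (e : ℕ) (k : ℤ) (x : Fin e → ℤ) : ev e (k • x) = k * ev e x := by
  unfold ev
  rw [Finset.mul_sum]
  apply Finset.sum_congr rfl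
  intro i _
  simp
  ring

/-- numbers with coordinates bounded by `H` -/
def Bd (e : ℕ) (H : ℕ) : Set ℝ := {r | ∃ x : Fin e → ℤ, (∀ i, |x i| ≤ H) ∧ ev e x = r}

theorem Bd.sub {e H H' : ℕ} {r s : ℝ} (hr : r ∈ Bd e H) (hs : s ∈ Bd e H') :
    r - s ∈ Bd e (H + H') := by
  obtain ⟨x, hx, rfl⟩ := hr
  obtain ⟨y, hy, rfl⟩ := hs
  refine ⟨x - y, ?_, ev_sub e x y⟩
  intro i
  have := abs_sub (x i) (y i)
  have h1 := hx i
  have h2 := hy i
  push_cast
  simp only [Pi.sub_apply]
  linarith

theorem Bd.add {e H H' : ℕ} {r s : ℝ} (hr : r ∈ Bd e H) (hs : s ∈ Bd e H') :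
    r + s ∈ Bd e (H + H') := by
  obtain ⟨x, hx, rfl⟩ := hr
  obtain ⟨y, hy, rfl⟩ := hs
  refine ⟨x + y, ?_, ?_⟩
  · intro i
    have := abs_add_le (x i) (y i)
    have h1 := hx i
    have h2 := hy i
    push_cast
    simp only [Pi.add_apply]
    linarith
  · unfold ev
    rw [← Finset.sum_add_distrib]
    apply Finset.sum_congr rfl
    intro i _
    simp
    ring

/-- coordinates of a product -/
def mulc (e : ℕ) (x y : Fin e → ℤ) : Fin e → ℤ := fun k =>
  ∑ i : Fin e, ∑ j : Fin e,
    if (i : ℕ) + j = k then x i * y j else if (i : ℕ) + j = k + e then 2 * (x i * y j) else 0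

theorem ev_mul (e : ℕ) (he : e ≠ 0) (x y : Fin e → ℤ) :
    ev e (mulc e x y) = ev e x * ev e y := by
  unfold ev mulc
  rw [Finset.sum_mul_sum]
  push_cast
  simp only [Finset.sum_mul]
  rw [Finset.sum_comm]
  apply Finset.sum_congr rfl
  intro i _
  rw [Finset.sum_comm]
  apply Finset.sum_congr rfl
  intro j _
  by_cases hij : (i : ℕ) + j < e
  · rw [Finset.sum_eq_single (⟨i + j, hij⟩ : Fin e)]
    · simp
      ring
    · intro k _ hk
      have h1 : ¬ ((i : ℕ) + j = k) := by
        intro h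
        apply hk
        exact Fin.ext h.symm
      have h2 : ¬ ((i : ℕ) + j = k + e) := by omega
      simp [h1, h2]
    · intro h; exact absurd (Finset.mem_univ _) h
  · have hlt : (i : ℕ) + j - e < e := by
      have := i.2
      have := j.2
      omega
    rw [Finset.sum_eq_single (⟨(i : ℕ) + j - e, hlt⟩ : Fin e)]
    · have h1 : ¬ ((i : ℕ) + j = (i : ℕ) + j - e) := by
        have := i.2
        have := j.2
        omega
      have h2 : ((i : ℕ) + j = (i : ℕ) + j - e + e) := by omega
      simp only [h1, if_false]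
      rw [if_pos h2]
      have h3 : al e ^ (i : ℕ) * al e ^ (j : ℕ) = 2 * al e ^ ((i : ℕ) + j - e) := by
        rw [← pow_add]
        conv_lhs => rw [h2]
        rw [pow_add, al_pow e he]
        ring
      push_cast
      linear_combination (-(x i : ℝ) * (y j : ℝ)) * h3
    · intro k _ hk
      have h1 : ¬ ((i : ℕ) + j = k) := by
        have := k.2
        omega
      have h2 : ¬ ((i : ℕ) + j = k + e) := by
        intro h
        apply hk
        apply Fin.ext
        simp only
        omega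
      simp [h1, h2]
    · intro h; exact absurd (Finset.mem_univ _) h

theorem mulc_bound (e : ℕ) (x y : Fin e → ℤ) (A B : ℕ) (hx : ∀ i, |x i| ≤ A)
    (hy : ∀ i, |y i| ≤ B) (k : Fin e) : |mulc e x y k| ≤ 2 * e * A * B := by
  unfold mulc
  refine le_trans (Finset.abs_sum_le_sum_abs _ _) ?_
  have key : ∀ i ∈ (Finset.univ : Finset (Fin e)),
      |∑ j : Fin e, (if (i : ℕ) + j = k then x i * y j else if (i : ℕ) + j = k + e
        then 2 * (x i * y j) else 0)| ≤ 2 * A * B := by
    intro i _
    -- at most one index `j` contributes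
    by_cases h : (i : ℕ) ≤ k
    · rw [Finset.sum_eq_single (⟨(k : ℕ) - i, by have := k.2; omega⟩ : Fin e)]
      · have h1 : (i : ℕ) + ((k : ℕ) - i) = k := by omega
        simp only [h1, if_true]
        rw [abs_mul]
        have h2 := hx i
        have h3 := hy ⟨(k : ℕ) - i, by have := k.2; omega⟩
        calc |x i| * |y ⟨(k : ℕ) - i, by have := k.2; omega⟩| ≤ (A : ℤ) * B :=
              mul_le_mul h2 h3 (abs_nonneg _) (by positivity)
          _ ≤ 2 * A * B := by
              have h4 : (0 : ℤ) ≤ (A : ℤ) * B := by positivity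
              linarith
      · intro j _ hj
        have h1 : ¬ ((i : ℕ) + j = k) := by
          intro h'
          apply hj
          apply Fin.ext
          simp only
          omega
        have h2 : ¬ ((i : ℕ) + j = k + e) := by
          have := j.2
          omega
        simp [h1, h2]
      · intro h; exact absurd (Finset.mem_univ _) h
    · rw [Finset.sum_eq_single (⟨(k : ℕ) + e - i, by have := i.2; omega⟩ : Fin e)]
      · have h1 : ¬ ((i : ℕ) + ((k : ℕ) + e - i) = k) := by omega
        have h1' : (i : ℕ) + ((k : ℕ) + e - i) = k + e := by have := i.2; omega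
        simp only [h1, if_false, h1', if_true]
        have h4 : ¬ ((k : ℕ) + e = k) := by have := k.2; omega
        rw [if_neg h4]
        rw [abs_mul, abs_mul]
        have h2 := hx i
        have h3 := hy ⟨(k : ℕ) + e - i, by have := i.2; omega⟩
        have h5 : |x i| * |y ⟨(k : ℕ) + e - i, by have := i.2; omega⟩| ≤ (A : ℤ) * B :=
              mul_le_mul h2 h3 (abs_nonneg _) (by positivity)
        have h6 : |(2 : ℤ)| = 2 := rfl
        rw [h6]
        linarith
      · intro j _ hj
        have h1 : ¬ ((i : ℕ) + j = k) := by omega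
        have h2 : ¬ ((i : ℕ) + j = k + e) := by
          intro h'
          apply hj
          apply Fin.ext
          simp only
          omega
        simp [h1, h2]
      · intro h; exact absurd (Finset.mem_univ _) h
  refine le_trans (Finset.sum_le_sum key) ?_
  rw [Finset.sum_const, Finset.card_univ, Fintype.card_fin]
  simp only [nsmul_eq_mul]
  apply le_of_eq
  ring

theorem Bd.mul {e H H' : ℕ} (he : e ≠ 0) {r s : ℝ} (hr : r ∈ Bd e H) (hs : s ∈ Bd e H') :
    r * s ∈ Bd e (2 * e * H * H') := by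
  obtain ⟨x, hx, rfl⟩ := hr
  obtain ⟨y, hy, rfl⟩ := hs
  refine ⟨mulc e x y, ?_, ev_mul e he x y⟩
  intro k
  have := mulc_bound e x y H H' hx hy k
  push_cast
  exact this

theorem Bd.mono {e H H' : ℕ} (h : H ≤ H') {r : ℝ} (hr : r ∈ Bd e H) : r ∈ Bd e H' := by
  obtain ⟨x, hx, rfl⟩ := hr
  refine ⟨x, fun i => le_trans (hx i) (by exact_mod_cast h), rfl⟩

/-- a rational quotient of two bounded elements has bounded height -/
theorem Bd.rat {e T : ℕ} (he : e.Prime) {r s : ℝ} (hr : r ∈ Bd e T) (hs : s ∈ Bd e T)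
    (hr0 : r ≠ 0) (hs0 : s ≠ 0) (q : ℚ) (hq : r = q * s) :
    |q.num| ≤ T ∧ q.den ≤ T := by
  obtain ⟨x, hx, rfl⟩ := hr
  obtain ⟨y, hy, rfl⟩ := hs
  have hqd : (q : ℝ) * q.den = q.num := by
    exact_mod_cast Rat.mul_den_eq_num q
  have h1 : ev e ((q.den : ℤ) • x) = ev e (q.num • y) := by
    rw [ev_smul, ev_smul, hq]
    push_cast
    rw [← hqd]
    ring
  have h2 := ev_inj e he _ _ h1
  have h3 : ∀ i, (q.den : ℤ) * x i = q.num * y i := by
    intro i
    have := congrFun h2 i
    simpa using this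
  have hcop : IsCoprime q.num (q.den : ℤ) := by
    rw [Int.isCoprime_iff_gcd_eq_one]
    have := q.reduced
    simpa [Int.gcd, Nat.Coprime] using this
  have hxn : ∃ i, x i ≠ 0 := by
    by_contra hcon
    push Not at hcon
    apply hr0
    unfold ev
    apply Finset.sum_eq_zero
    intro i _
    rw [hcon i]
    simp
  have hyn : ∃ i, y i ≠ 0 := by
    by_contra hcon
    push Not at hcon
    apply hs0
    unfold ev
    apply Finset.sum_eq_zero
    intro i _
    rw [hcon i]
    simp
  constructor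
  · obtain ⟨i, hi⟩ := hxn
    have hd : q.num ∣ x i := by
      apply hcop.dvd_of_dvd_mul_left
      exact ⟨y i, h3 i⟩
    have h4 : |q.num| ≤ |x i| := Int.le_of_dvd (abs_pos.mpr hi) ((abs_dvd_abs _ _).mpr hd)
    exact le_trans h4 (hx i)
  · obtain ⟨i, hi⟩ := hyn
    have hd : (q.den : ℤ) ∣ y i := by
      apply hcop.symm.dvd_of_dvd_mul_left
      exact ⟨x i, (h3 i).symm⟩
    have h4 : (q.den : ℤ) ≤ |y i| := Int.le_of_dvd (abs_pos.mpr hi) ((dvd_abs _ _).mpr hd)
    exact_mod_cast le_trans h4 (hy i)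

end Pool.Agent.TH351.RootRing
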