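import Mathlib
import Pool.Agent.TH351.RootRing

set_option autoImplicit false

/-!
A finite set of points with bounded coordinates in `ℤ[2^(1/e)]` which some projective
transformation maps to rational points is small.
-/

namespace Pool.Agent.TH351.ProjRat

open Pool.Agent.TH351.RootRing Matrix

/-- the projective transformation given by the matrix `M` maps the point `p` of the plane to the
point `q` of the plane (in particular not to a point at infinity) -/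
def ProjMaps (M : Matrix (Fin 3) (Fin 3) ℝ) (p q : ℝ × ℝ) : Prop :=
  ∃ c : ℝ, c ≠ 0 ∧ M.mulVec ![p.1, p.2, 1] = c • ![q.1, q.2, 1]

/-- area form -/
def D (p q s : ℝ × ℝ) : ℝ := (q.1 - p.1) * (s.2 - p.2) - (q.2 - p.2) * (s.1 - p.1)

theorem maps_eqs {M : Matrix (Fin 3) (Fin 3) ℝ} {p q : ℝ × ℝ} {c : ℝ}
    (h : M.mulVec ![p.1, p.2, 1] = c • ![q.1, q.2, 1]) :
    M 0 0 * p.1 + M 0 1 * p.2 + M 0 2 = c * q.1 ∧ M 1 0 * p.1 + M 1 1 * p.2 + M 1 2 = c * q.2 ∧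
      M 2 0 * p.1 + M 2 1 * p.2 + M 2 2 = c := by
  refine ⟨?_, ?_, ?_⟩
  · have := congrFun h 0
    simpa [Matrix.mulVec, dotProduct, Fin.sum_univ_three] using this
  · have := congrFun h 1
    simpa [Matrix.mulVec, dotProduct, Fin.sum_univ_three] using this
  · have := congrFun h 2
    simpa [Matrix.mulVec, dotProduct, Fin.sum_univ_three] using this

theorem det_rel {M : Matrix (Fin 3) (Fin 3) ℝ} {p1 p2 p3 r1 r2 r3 : ℝ × ℝ} {c1 c2 c3 : ℝ}
    (h1 : M.mulVec ![p1.1, p1.2, 1] = c1 • ![r1.1, r1.2, 1])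
    (h2 : M.mulVec ![p2.1, p2.2, 1] = c2 • ![r2.1, r2.2, 1])
    (h3 : M.mulVec ![p3.1, p3.2, 1] = c3 • ![r3.1, r3.2, 1]) :
    M.det * D p1 p2 p3 = c1 * c2 * c3 * D r1 r2 r3 := by
  obtain ⟨a1, b1, d1⟩ := maps_eqs h1
  obtain ⟨a2, b2, d2⟩ := maps_eqs h2
  obtain ⟨a3, b3, d3⟩ := maps_eqs h3
  have key : c1 * c2 * c3 * D r1 r2 r3 =
      c1 * ((c2 * r2.1) * (c3 * r3.2) - (c2 * r2.2) * (c3 * r3.1))
      - c2 * ((c1 * r1.1) * (c3 * r3.2) - (c1 * r1.2) * (c3 * r3.1))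
      + c3 * ((c1 * r1.1) * (c2 * r2.2) - (c1 * r1.2) * (c2 * r2.1)) := by
    unfold D
    ring
  rw [key, ← a1, ← a2, ← a3, ← b1, ← b2, ← b3, ← d1, ← d2, ← d3, Matrix.det_fin_three]
  unfold D
  ring

/-- rational numbers of bounded height -/
noncomputable def F (T : ℕ) : Finset ℚ :=
  ((Finset.Icc (-(T : ℤ)) T) ×ˢ (Finset.Icc 1 T)).image (fun p : ℤ × ℕ => (p.1 : ℚ) / p.2)

theorem F_card (T : ℕ) : (F T).card ≤ (2 * T + 1) ^ 2 := by
  unfold F
  refine le_trans Finset.card_image_le ?_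
  rw [Finset.card_product, Int.card_Icc, Nat.card_Icc]
  have h : ((T : ℤ) + 1 - -(T : ℤ)).toNat = 2 * T + 1 := by omega
  rw [h, Nat.add_sub_cancel]
  nlinarith

theorem mem_F {T : ℕ} {q : ℚ} (h1 : |q.num| ≤ T) (h2 : q.den ≤ T) : q ∈ F T := by
  unfold F
  rw [Finset.mem_image]
  refine ⟨(q.num, q.den), ?_, ?_⟩
  · rw [Finset.mem_product, Finset.mem_Icc, Finset.mem_Icc]
    exact ⟨abs_le.mp h1, q.pos, h2⟩
  · exact Rat.num_div_den q

/-- the quotients `A / B` take few values when all their double ratios are rational -/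
theorem count_ratio {e : ℕ} (he : e.Prime) {B0 : ℕ} (S : Finset (ℝ × ℝ)) (A B : ℝ × ℝ → ℝ)
    (hA : ∀ q ∈ S, A q ∈ Bd e B0) (hB : ∀ q ∈ S, B q ∈ Bd e B0)
    (hA0 : ∀ q ∈ S, A q ≠ 0) (hB0 : ∀ q ∈ S, B q ≠ 0)
    (hr : ∀ q ∈ S, ∀ q' ∈ S, ∃ ρ : ℚ, A q * B q' = ρ * (B q * A q')) :
    (S.image (fun q => A q / B q)).card ≤ (2 * (2 * e * B0 * B0) + 1) ^ 2 := by
  classical
  rcases S.eq_empty_or_nonempty with hS | ⟨q0, hq0⟩
  · subst hS
    simp
  · refine le_trans ?_ (F_card (2 * e * B0 * B0))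
    refine le_trans (Finset.card_le_card (t := (F (2 * e * B0 * B0)).image
      (fun ρ : ℚ => (ρ : ℝ) * (A q0 / B q0))) ?_) Finset.card_image_le
    intro v hv
    rw [Finset.mem_image] at hv
    obtain ⟨q, hq, rfl⟩ := hv
    obtain ⟨ρ, hρ⟩ := hr q hq q0 hq0
    have h1 : A q * B q0 ∈ Bd e (2 * e * B0 * B0) := Bd.mul he.ne_zero (hA q hq) (hB q0 hq0)
    have h2 : B q * A q0 ∈ Bd e (2 * e * B0 * B0) := Bd.mul he.ne_zero (hB q hq) (hA q0 hq0)
    have h3 := Bd.rat he h1 h2 (mul_ne_zero (hA0 q hq) (hB0 q0 hq0))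
      (mul_ne_zero (hB0 q hq) (hA0 q0 hq0)) ρ hρ
    rw [Finset.mem_image]
    refine ⟨ρ, mem_F h3.1 h3.2, ?_⟩
    have b1 := hB0 q hq
    have b2 := hB0 q0 hq0
    field_simp
    linear_combination -hρ

theorem D_mem {e H : ℕ} (he : e ≠ 0) {p q s : ℝ × ℝ} (hp : p.1 ∈ Bd e H ∧ p.2 ∈ Bd e H)
    (hq : q.1 ∈ Bd e H ∧ q.2 ∈ Bd e H) (hs : s.1 ∈ Bd e H ∧ s.2 ∈ Bd e H) :
    D p q s ∈ Bd e (16 * e * H ^ 2) := by
  have h := Bd.sub (Bd.mul he (Bd.sub hq.1 hp.1) (Bd.sub hs.2 hp.2))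
    (Bd.mul he (Bd.sub hq.2 hp.2) (Bd.sub hs.1 hp.1))
  refine Bd.mono ?_ h
  apply le_of_eq
  ring

/-- the data of a set which is mapped to rational points -/
structure Good (e H : ℕ) (M : Matrix (Fin 3) (Fin 3) ℝ) (S : Finset (ℝ × ℝ)) : Prop where
  he : e.Prime
  hH : 1 ≤ H
  det : M.det ≠ 0
  coord : ∀ p ∈ S, p.1 ∈ Bd e H ∧ p.2 ∈ Bd e H
  rat : ∀ p ∈ S, ∃ q : ℚ × ℚ, ProjMaps M p ((q.1 : ℝ), (q.2 : ℝ))

theorem D_swap (p q s : ℝ × ℝ) : D q p s = - D p q s := by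
  unfold D
  ring

/-- rationality of the double ratio in the pencil of lines through `p1` -/
theorem pencil_rat {M : Matrix (Fin 3) (Fin 3) ℝ} (hM : M.det ≠ 0) {p1 p2 p3 q q' : ℝ × ℝ}
    {r1 r2 r3 s s' : ℚ × ℚ}
    (h1 : ProjMaps M p1 ((r1.1 : ℝ), (r1.2 : ℝ))) (h2 : ProjMaps M p2 ((r2.1 : ℝ), (r2.2 : ℝ)))
    (h3 : ProjMaps M p3 ((r3.1 : ℝ), (r3.2 : ℝ))) (h : ProjMaps M q ((s.1 : ℝ), (s.2 : ℝ)))
    (h' : ProjMaps M q' ((s'.1 : ℝ), (s'.2 : ℝ)))
    (n1 : D p1 p3 q ≠ 0) (n2 : D p1 p2 q' ≠ 0) :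
    ∃ ρ : ℚ, D p1 p2 q * D p1 p3 q' = ρ * (D p1 p3 q * D p1 p2 q') := by
  obtain ⟨c1, c1n, h1⟩ := h1
  obtain ⟨c2, c2n, h2⟩ := h2
  obtain ⟨c3, c3n, h3⟩ := h3
  obtain ⟨c, cn, h⟩ := h
  obtain ⟨c', cn', h'⟩ := h'
  have e1 := det_rel h1 h2 h
  have e2 := det_rel h1 h3 h'
  have e3 := det_rel h1 h3 h
  have e4 := det_rel h1 h2 h'
  -- rational versions of the area form
  let Dq : ℚ × ℚ → ℚ × ℚ → ℚ × ℚ → ℚ := fun p q s =>
    (q.1 - p.1) * (s.2 - p.2) - (q.2 - p.2) * (s.1 - p.1)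
  have hD : ∀ a b d : ℚ × ℚ, D ((a.1 : ℝ), (a.2 : ℝ)) ((b.1 : ℝ), (b.2 : ℝ))
      ((d.1 : ℝ), (d.2 : ℝ)) = ((Dq a b d : ℚ) : ℝ) := by
    intro a b d
    simp only [D, Dq]
    push_cast
    ring
  rw [hD] at e1 e2 e3 e4
  have m3 : ((Dq r1 r3 s : ℚ) : ℝ) ≠ 0 := by
    intro h0
    rw [h0, mul_zero] at e3
    exact (mul_ne_zero hM n1) e3
  have m4 : ((Dq r1 r2 s' : ℚ) : ℝ) ≠ 0 := by
    intro h0
    rw [h0, mul_zero] at e4
    exact (mul_ne_zero hM n2) e4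
  refine ⟨(Dq r1 r2 s * Dq r1 r3 s') / (Dq r1 r3 s * Dq r1 r2 s'), ?_⟩
  push_cast
  have hM2 : M.det ^ 2 ≠ 0 := pow_ne_zero 2 hM
  apply mul_left_cancel₀ hM2
  have l1 : M.det ^ 2 * (D p1 p2 q * D p1 p3 q') =
      (c1 * c2 * c * (Dq r1 r2 s : ℚ)) * (c1 * c3 * c' * (Dq r1 r3 s' : ℚ)) := by
    rw [← e1, ← e2]
    ring
  have l2 : M.det ^ 2 * (D p1 p3 q * D p1 p2 q') =
      (c1 * c3 * c * (Dq r1 r3 s : ℚ)) * (c1 * c2 * c' * (Dq r1 r2 s' : ℚ)) := by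
    rw [← e3, ← e4]
    ring
  calc M.det ^ 2 * (D p1 p2 q * D p1 p3 q') =
      (c1 * c2 * c * (Dq r1 r2 s : ℚ)) * (c1 * c3 * c' * (Dq r1 r3 s' : ℚ)) := l1
    _ = (((Dq r1 r2 s : ℚ) : ℝ) * ((Dq r1 r3 s' : ℚ) : ℝ)) /
        (((Dq r1 r3 s : ℚ) : ℝ) * ((Dq r1 r2 s' : ℚ) : ℝ)) *
        ((c1 * c3 * c * (Dq r1 r3 s : ℚ)) * (c1 * c2 * c' * (Dq r1 r2 s' : ℚ))) := by
        field_simp
    _ = _ := by
        rw [← l2]
        ring

/-- images of distinct points are distinct -/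
theorem maps_inj {M : Matrix (Fin 3) (Fin 3) ℝ} (hM : M.det ≠ 0) {p1 p2 r : ℝ × ℝ}
    (h1 : ProjMaps M p1 r) (h2 : ProjMaps M p2 r) : p1 = p2 := by
  obtain ⟨c1, c1n, h1⟩ := h1
  obtain ⟨c2, c2n, h2⟩ := h2
  have h3 : M.mulVec (c2 • ![p1.1, p1.2, 1] - c1 • ![p2.1, p2.2, 1]) = 0 := by
    rw [Matrix.mulVec_sub, Matrix.mulVec_smul, Matrix.mulVec_smul, h1, h2, smul_smul, smul_smul,
      mul_comm c1 c2, sub_self]
  have h4 := Matrix.eq_zero_of_mulVec_eq_zero hM h3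
  have g0 := congrFun h4 0
  have g1 := congrFun h4 1
  have g2 := congrFun h4 2
  simp at g0 g1 g2
  have hc : c2 = c1 := by linarith
  subst hc
  ext
  · have : c2 * (p1.1 - p2.1) = 0 := by linarith
    rcases mul_eq_zero.mp this with h | h
    · exact absurd h c2n
    · linarith
  · have : c2 * (p1.2 - p2.2) = 0 := by linarith
    rcases mul_eq_zero.mp this with h | h
    · exact absurd h c2n
    · linarith

/-- rationality of double ratios on a line -/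
theorem line_rat {M : Matrix (Fin 3) (Fin 3) ℝ} (hM : M.det ≠ 0) {p1 p2 : ℝ × ℝ}
    (hp : p1 ≠ p2) {r1 r2 : ℚ × ℚ}
    (h1 : ProjMaps M p1 ((r1.1 : ℝ), (r1.2 : ℝ))) (h2 : ProjMaps M p2 ((r2.1 : ℝ), (r2.2 : ℝ)))
    (f : ℝ × ℝ → ℝ)
    (haff : ∀ (a b c : ℝ) (q : ℝ × ℝ), D p1 p2 q = 0 →
      (a * q.1 + b * q.2 + c) * (f p2 - f p1) =
        (a * p1.1 + b * p1.2 + c) * (f p2 - f q) + (a * p2.1 + b * p2.2 + c) * (f q - f p1))
    (q q' : ℝ × ℝ) (hq : D p1 p2 q = 0) (hq' : D p1 p2 q' = 0)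
    (n2 : f q - f p2 ≠ 0) (n1' : f q' - f p1 ≠ 0)
    {s s' : ℚ × ℚ} (h : ProjMaps M q ((s.1 : ℝ), (s.2 : ℝ)))
    (h' : ProjMaps M q' ((s'.1 : ℝ), (s'.2 : ℝ))) :
    ∃ ρ : ℚ, (f q - f p1) * (f q' - f p2) = ρ * ((f q - f p2) * (f q' - f p1)) := by
  have hr : r1 ≠ r2 := by
    rintro rfl
    exact hp (maps_inj hM h1 h2)
  obtain ⟨c1, c1n, h1⟩ := h1
  obtain ⟨c2, c2n, h2⟩ := h2
  obtain ⟨c, cn, h⟩ := h
  obtain ⟨c', cn', h'⟩ := h'
  obtain ⟨a1, b1, d1⟩ := maps_eqs h1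
  obtain ⟨a2, b2, d2⟩ := maps_eqs h2
  obtain ⟨a3, b3, d3⟩ := maps_eqs h
  obtain ⟨a4, b4, d4⟩ := maps_eqs h'
  simp only at a1 b1 a2 b2 a3 b3 a4 b4
  -- the relation for a point and a coordinate function
  have rel : ∀ (m0 m1 m2 : ℝ) (t : ℝ × ℝ) (ct x1 x2 xt : ℝ), D p1 p2 t = 0 →
      m0 * p1.1 + m1 * p1.2 + m2 = c1 * x1 → m0 * p2.1 + m1 * p2.2 + m2 = c2 * x2 →
      m0 * t.1 + m1 * t.2 + m2 = ct * xt → M 2 0 * t.1 + M 2 1 * t.2 + M 2 2 = ct →
      c2 * (x2 - xt) * (f t - f p1) = c1 * (x1 - xt) * (f t - f p2) := by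
    intro m0 m1 m2 t ct x1 x2 xt ht g1 g2 g3 g4
    have k1 := haff m0 m1 m2 t ht
    have k2 := haff (M 2 0) (M 2 1) (M 2 2) t ht
    rw [g1, g2, g3] at k1
    rw [g4, d1, d2] at k2
    linear_combination xt * k2 - k1
  have fin : ∀ x1 x2 xs xs' : ℚ, x1 ≠ x2 →
      c2 * ((x2 : ℝ) - xs) * (f q - f p1) = c1 * ((x1 : ℝ) - xs) * (f q - f p2) →
      c2 * ((x2 : ℝ) - xs') * (f q' - f p1) = c1 * ((x1 : ℝ) - xs') * (f q' - f p2) →
      ∃ ρ : ℚ, (f q - f p1) * (f q' - f p2) = ρ * ((f q - f p2) * (f q' - f p1)) := by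
    intro x1 x2 xs xs' hx g1 g2
    have hx' : (x1 : ℝ) ≠ x2 := by exact_mod_cast hx
    have m1 : (x2 : ℝ) - xs ≠ 0 := by
      intro h0
      rw [h0, mul_zero, zero_mul] at g1
      have g3 : (x1 : ℝ) - xs = 0 := by
        rcases mul_eq_zero.mp g1.symm with g | g
        · rcases mul_eq_zero.mp g with g | g
          · exact absurd g c1n
          · exact g
        · exact absurd g n2
      exact hx' (by linarith)
    have m2 : (x1 : ℝ) - xs' ≠ 0 := by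
      intro h0
      rw [h0, mul_zero, zero_mul] at g2
      have g3 : (x2 : ℝ) - xs' = 0 := by
        rcases mul_eq_zero.mp g2 with g | g
        · rcases mul_eq_zero.mp g with g | g
          · exact absurd g c2n
          · exact g
        · exact absurd g n1'
      exact hx' (by linarith)
    refine ⟨((x1 - xs) * (x2 - xs')) / ((x2 - xs) * (x1 - xs')), ?_⟩
    push_cast
    have m12 : c1 * c2 * (((x2 : ℝ) - xs) * (x1 - xs')) ≠ 0 :=
      mul_ne_zero (mul_ne_zero c1n c2n) (mul_ne_zero m1 m2)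
    apply mul_left_cancel₀ m12
    have e1 : c1 * c2 * (((x2 : ℝ) - xs) * (x1 - xs')) *
        ((f q - f p1) * (f q' - f p2)) =
        (c2 * ((x2 : ℝ) - xs) * (f q - f p1)) * (c1 * ((x1 : ℝ) - xs') * (f q' - f p2)) := by
      ring
    rw [e1, g1, ← g2]
    field_simp
  by_cases hr1 : r1.1 = r2.1
  · have hr2 : r1.2 ≠ r2.2 := by
      intro h2
      exact hr (Prod.ext hr1 h2)
    exact fin r1.2 r2.2 s.2 s'.2 hr2 (rel _ _ _ q c _ _ _ hq b1 b2 b3 d3)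
      (rel _ _ _ q' c' _ _ _ hq' b1 b2 b4 d4)
  · exact fin r1.1 r2.1 s.1 s'.1 hr1 (rel _ _ _ q c _ _ _ hq a1 a2 a3 d3)
      (rel _ _ _ q' c' _ _ _ hq' a1 a2 a4 d4)

/-- the bound for the number of values -/
def K (e H : ℕ) : ℕ := (2 * (2 * e * (16 * e * H ^ 2) * (16 * e * H ^ 2)) + 1) ^ 2

theorem Good.line_aux {e H : ℕ} {M : Matrix (Fin 3) (Fin 3) ℝ} {S : Finset (ℝ × ℝ)}
    (G : Good e H M S) {p1 p2 : ℝ × ℝ} (hp1 : p1 ∈ S) (hp2 : p2 ∈ S)
    (f : ℝ × ℝ → ℝ) (hf : f p1 ≠ f p2) (hfB : ∀ p ∈ S, f p ∈ Bd e H)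
    (haff : ∀ (a b c : ℝ) (q : ℝ × ℝ), D p1 p2 q = 0 →
      (a * q.1 + b * q.2 + c) * (f p2 - f p1) =
        (a * p1.1 + b * p1.2 + c) * (f p2 - f q) + (a * p2.1 + b * p2.2 + c) * (f q - f p1)) :
    (S.filter (fun q => D p1 p2 q = 0)).card ≤ K e H + 2 := by
  classical
  have hp : p1 ≠ p2 := fun h => hf (by rw [h])
  have hinj : ∀ q q' : ℝ × ℝ, D p1 p2 q = 0 → D p1 p2 q' = 0 → f q = f q' → q = q' := by
    intro q q' hq hq' hfq
    have a1 := haff 1 0 0 q hq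
    have a2 := haff 1 0 0 q' hq'
    have a3 := haff 0 1 0 q hq
    have a4 := haff 0 1 0 q' hq'
    rw [hfq] at a1 a3
    have hne : f p2 - f p1 ≠ 0 := sub_ne_zero.mpr hf.symm
    ext
    · apply mul_right_cancel₀ hne
      linarith
    · apply mul_right_cancel₀ hne
      linarith
  set T := S.filter (fun q => D p1 p2 q = 0 ∧ q ≠ p1 ∧ q ≠ p2) with hT
  have hTm : ∀ q ∈ T, q ∈ S ∧ D p1 p2 q = 0 ∧ f q - f p1 ≠ 0 ∧ f q - f p2 ≠ 0 := by
    intro q hq
    rw [hT, Finset.mem_filter] at hq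
    obtain ⟨h1, h2, h3, h4⟩ := hq
    refine ⟨h1, h2, ?_, ?_⟩
    · intro h0
      exact h3 (hinj q p1 h2 (by unfold D; ring) (by linarith))
    · intro h0
      exact h4 (hinj q p2 h2 (by unfold D; ring) (by linarith))
  have hsub : S.filter (fun q => D p1 p2 q = 0) ⊆ T ∪ {p1, p2} := by
    intro q hq
    rw [Finset.mem_filter] at hq
    rw [Finset.mem_union, hT, Finset.mem_filter, Finset.mem_insert, Finset.mem_singleton]
    by_cases h1 : q = p1
    · right; left; exact h1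
    · by_cases h2 : q = p2
      · right; right; exact h2
      · left; exact ⟨hq.1, hq.2, h1, h2⟩
  have hcard : T.card ≤ K e H := by
    have hinjT : Set.InjOn (fun q => (f q - f p1) / (f q - f p2)) (T : Set (ℝ × ℝ)) := by
      intro q hq q' hq' heq
      obtain ⟨_, h2, h3, h4⟩ := hTm q hq
      obtain ⟨_, h2', h3', h4'⟩ := hTm q' hq'
      apply hinj q q' h2 h2'
      simp only at heq
      rw [div_eq_div_iff h4 h4'] at heq
      have : (f p2 - f p1) * (f q - f q') = 0 := by linarith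
      rcases mul_eq_zero.mp this with h | h
      · exact absurd (by linarith : f p1 = f p2) hf
      · linarith
    rw [← Finset.card_image_of_injOn hinjT]
    have hle : 2 * H ≤ 16 * e * H ^ 2 := by
      have h1 := G.he.one_lt
      have h2 := G.hH
      nlinarith [Nat.mul_le_mul h2 h2, Nat.mul_le_mul h1.le (Nat.mul_le_mul h2 h2)]
    apply count_ratio G.he T (fun q => f q - f p1) (fun q => f q - f p2)
    · intro q hq
      refine Bd.mono ?_ (Bd.sub (hfB q (hTm q hq).1) (hfB p1 hp1))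
      omega
    · intro q hq
      refine Bd.mono ?_ (Bd.sub (hfB q (hTm q hq).1) (hfB p2 hp2))
      omega
    · intro q hq
      exact (hTm q hq).2.2.1
    · intro q hq
      exact (hTm q hq).2.2.2
    · intro q hq q' hq'
      obtain ⟨g1, g2, g3, g4⟩ := hTm q hq
      obtain ⟨g1', g2', g3', g4'⟩ := hTm q' hq'
      obtain ⟨r1, hr1⟩ := G.rat p1 hp1
      obtain ⟨r2, hr2⟩ := G.rat p2 hp2
      obtain ⟨s, hs⟩ := G.rat q g1
      obtain ⟨s', hs'⟩ := G.rat q' g1'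
      exact line_rat G.det hp hr1 hr2 f haff q q' g2 g2' g4 g3' hs hs'
  calc (S.filter (fun q => D p1 p2 q = 0)).card ≤ (T ∪ {p1, p2}).card :=
        Finset.card_le_card hsub
    _ ≤ T.card + ({p1, p2} : Finset (ℝ × ℝ)).card := Finset.card_union_le _ _
    _ ≤ K e H + 2 := by
        have := Finset.card_le_two (a := p1) (b := p2)
        omega

theorem Good.line {e H : ℕ} {M : Matrix (Fin 3) (Fin 3) ℝ} {S : Finset (ℝ × ℝ)}
    (G : Good e H M S) {p1 p2 : ℝ × ℝ} (hp1 : p1 ∈ S) (hp2 : p2 ∈ S) (hp : p1 ≠ p2) :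
    (S.filter (fun q => D p1 p2 q = 0)).card ≤ K e H + 2 := by
  by_cases h : p1.1 = p2.1
  · have h2 : p1.2 ≠ p2.2 := fun h2 => hp (Prod.ext h h2)
    apply G.line_aux hp1 hp2 Prod.snd h2 (fun p hp => (G.coord p hp).2)
    intro a b c q hq
    unfold D at hq
    linear_combination -a * hq
  · apply G.line_aux hp1 hp2 Prod.fst h (fun p hp => (G.coord p hp).1)
    intro a b c q hq
    unfold D at hq
    linear_combination b * hq

theorem Good.card_le {e H : ℕ} {M : Matrix (Fin 3) (Fin 3) ℝ} {S : Finset (ℝ × ℝ)}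
    (G : Good e H M S) : S.card ≤ (K e H + 3) ^ 2 := by
  classical
  by_cases h2 : ∃ p1 ∈ S, ∃ p2 ∈ S, p1 ≠ p2
  swap
  · have : S.card ≤ 1 := by
      rw [Finset.card_le_one]
      intro a ha b hb
      by_contra hne
      exact h2 ⟨a, ha, b, hb, hne⟩
    nlinarith [Nat.zero_le (K e H)]
  obtain ⟨p1, hp1, p2, hp2, hp12⟩ := h2
  have L12 := G.line hp1 hp2 hp12
  by_cases h3 : ∃ p3 ∈ S, D p1 p2 p3 ≠ 0
  swap
  · push Not at h3
    have : S.filter (fun q => D p1 p2 q = 0) = S := Finset.filter_true_of_mem h3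
    rw [this] at L12
    nlinarith
  obtain ⟨p3, hp3, hD⟩ := h3
  have hp13 : p1 ≠ p3 := by
    rintro rfl
    apply hD
    unfold D
    ring
  have hp23 : p2 ≠ p3 := by
    rintro rfl
    apply hD
    unfold D
    ring
  have L13 := G.line hp1 hp3 hp13
  have L23 := G.line hp2 hp3 hp23
  set T := S.filter (fun q => D p1 p2 q ≠ 0 ∧ D p1 p3 q ≠ 0 ∧ D p2 p3 q ≠ 0) with hT
  have hTm : ∀ q ∈ T, q ∈ S ∧ D p1 p2 q ≠ 0 ∧ D p1 p3 q ≠ 0 ∧ D p2 p3 q ≠ 0 := by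
    intro q hq
    rw [hT, Finset.mem_filter] at hq
    exact hq
  have hsub : S ⊆ T ∪ (S.filter (fun q => D p1 p2 q = 0) ∪ (S.filter (fun q => D p1 p3 q = 0) ∪
      S.filter (fun q => D p2 p3 q = 0))) := by
    intro q hq
    simp only [Finset.mem_union, hT, Finset.mem_filter]
    tauto
  have hsum : ∀ q : ℝ × ℝ, D p1 p2 q - D p1 p3 q + D p2 p3 q = D p1 p2 p3 := by
    intro q
    unfold D
    ring
  have hTcard : T.card ≤ K e H * K e H := by
    have c1 : (T.image (fun q => D p1 p2 q / D p1 p3 q)).card ≤ K e H := by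
      apply count_ratio G.he T (fun q => D p1 p2 q) (fun q => D p1 p3 q)
      · intro q hq
        exact D_mem G.he.ne_zero (G.coord p1 hp1) (G.coord p2 hp2) (G.coord q (hTm q hq).1)
      · intro q hq
        exact D_mem G.he.ne_zero (G.coord p1 hp1) (G.coord p3 hp3) (G.coord q (hTm q hq).1)
      · intro q hq
        exact (hTm q hq).2.1
      · intro q hq
        exact (hTm q hq).2.2.1
      · intro q hq q' hq'
        obtain ⟨r1, hr1⟩ := G.rat p1 hp1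
        obtain ⟨r2, hr2⟩ := G.rat p2 hp2
        obtain ⟨r3, hr3⟩ := G.rat p3 hp3
        obtain ⟨s, hs⟩ := G.rat q (hTm q hq).1
        obtain ⟨s', hs'⟩ := G.rat q' (hTm q' hq').1
        exact pencil_rat G.det hr1 hr2 hr3 hs hs' (hTm q hq).2.2.1 (hTm q' hq').2.1
    have c2 : (T.image (fun q => D p2 p1 q / D p2 p3 q)).card ≤ K e H := by
      apply count_ratio G.he T (fun q => D p2 p1 q) (fun q => D p2 p3 q)
      · intro q hq
        exact D_mem G.he.ne_zero (G.coord p2 hp2) (G.coord p1 hp1) (G.coord q (hTm q hq).1)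
      · intro q hq
        exact D_mem G.he.ne_zero (G.coord p2 hp2) (G.coord p3 hp3) (G.coord q (hTm q hq).1)
      · intro q hq
        rw [D_swap]
        exact neg_ne_zero.mpr (hTm q hq).2.1
      · intro q hq
        exact (hTm q hq).2.2.2
      · intro q hq q' hq'
        obtain ⟨r1, hr1⟩ := G.rat p1 hp1
        obtain ⟨r2, hr2⟩ := G.rat p2 hp2
        obtain ⟨r3, hr3⟩ := G.rat p3 hp3
        obtain ⟨s, hs⟩ := G.rat q (hTm q hq).1
        obtain ⟨s', hs'⟩ := G.rat q' (hTm q' hq').1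
        refine pencil_rat G.det hr2 hr1 hr3 hs hs' (hTm q hq).2.2.2 ?_
        rw [D_swap]
        exact neg_ne_zero.mpr (hTm q' hq').2.1
    have hinj : Set.InjOn (fun q => (D p1 p2 q / D p1 p3 q, D p2 p1 q / D p2 p3 q))
        (T : Set (ℝ × ℝ)) := by
      intro q hq q' hq' heq
      obtain ⟨_, a1, b1, d1⟩ := hTm q hq
      obtain ⟨_, a2, b2, d2⟩ := hTm q' hq'
      simp only [Prod.mk.injEq] at heq
      obtain ⟨e1, e2⟩ := heq
      rw [div_eq_div_iff b1 b2] at e1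
      rw [D_swap p1 p2 q, D_swap p1 p2 q', div_eq_div_iff d1 d2] at e2
      have s1 := hsum q
      have s2 := hsum q'
      -- equality of the first area
      have k1 : D p1 p2 q = D p1 p2 q' := by
        apply mul_right_cancel₀ hD
        calc D p1 p2 q * D p1 p2 p3 = D p1 p2 q * (D p1 p2 q' - D p1 p3 q' + D p2 p3 q') := by
              rw [s2]
          _ = D p1 p2 q' * (D p1 p2 q - D p1 p3 q + D p2 p3 q) := by
              linear_combination -e1 - e2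
          _ = D p1 p2 q' * D p1 p2 p3 := by rw [s1]
      have k2 : D p1 p3 q = D p1 p3 q' := by
        rw [k1] at e1
        exact (mul_left_cancel₀ a2 e1).symm
      have hne : D p1 p2 p3 ≠ 0 := hD
      unfold D at k1 k2 hne
      ext
      · apply mul_left_cancel₀ hne
        linear_combination (p3.1 - p1.1) * k1 - (p2.1 - p1.1) * k2
      · apply mul_left_cancel₀ hne
        linear_combination (p3.2 - p1.2) * k1 - (p2.2 - p1.2) * k2
    rw [← Finset.card_image_of_injOn hinj]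
    refine le_trans (Finset.card_le_card (t := (T.image (fun q => D p1 p2 q / D p1 p3 q)) ×ˢ
      (T.image (fun q => D p2 p1 q / D p2 p3 q))) ?_) ?_
    · intro v hv
      rw [Finset.mem_image] at hv
      obtain ⟨q, hq, rfl⟩ := hv
      rw [Finset.mem_product]
      exact ⟨Finset.mem_image_of_mem _ hq, Finset.mem_image_of_mem _ hq⟩
    · rw [Finset.card_product]
      exact Nat.mul_le_mul c1 c2
  have hfin : S.card ≤ T.card + ((S.filter (fun q => D p1 p2 q = 0)).card +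
      ((S.filter (fun q => D p1 p3 q = 0)).card + (S.filter (fun q => D p2 p3 q = 0)).card)) := by
    refine le_trans (Finset.card_le_card hsub) ?_
    refine le_trans (Finset.card_union_le _ _) ?_
    gcongr
    refine le_trans (Finset.card_union_le _ _) ?_
    gcongr
    exact Finset.card_union_le _ _
  nlinarith

end Pool.Agent.TH351.ProjRat
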