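import Mathlib
import Pool.Agent.TH351.ProjRat

set_option autoImplicit false

/-!
The configuration over `ℤ[2^(1/e)]`: counting.
-/

namespace Pool.Agent.TH351.LatticeConf

open Pool.Agent.TH351.RootRing Pool.Agent.TH351.ProjRat

/-- numbers with coordinates bounded by `H`, as a finite set -/
noncomputable def box (e H : ℕ) : Finset ℝ :=
  (Fintype.piFinset fun _ : Fin e => Finset.Icc (-(H : ℤ)) H).image (ev e)

theorem mem_box {e H : ℕ} {r : ℝ} : r ∈ box e H ↔ r ∈ Bd e H := by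
  unfold box Bd
  rw [Finset.mem_image, Set.mem_ofPred_eq]
  constructor
  · rintro ⟨x, hx, rfl⟩
    rw [Fintype.mem_piFinset] at hx
    exact ⟨x, fun i => abs_le.mpr (Finset.mem_Icc.mp (hx i)), rfl⟩
  · rintro ⟨x, hx, rfl⟩
    refine ⟨x, ?_, rfl⟩
    rw [Fintype.mem_piFinset]
    intro i
    exact Finset.mem_Icc.mpr (abs_le.mp (hx i))

theorem box_card {e : ℕ} (he : e.Prime) (H : ℕ) : (box e H).card = (2 * H + 1) ^ e := by
  unfold box
  rw [Finset.card_image_of_injective]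
  · rw [Fintype.card_piFinset]
    simp only [Int.card_Icc, Finset.prod_const, Finset.card_univ, Fintype.card_fin]
    congr 1
    omega
  · intro x y h
    exact ev_inj e he x y h

/-- the line with dual point `q` -/
def lineOf (q : ℝ × ℝ) : Set (ℝ × ℝ) := {p | p.2 = q.1 * p.1 - q.2}

theorem lineOf_inj : Function.Injective lineOf := by
  intro q q' h
  have h0 : ((0 : ℝ), -q.2) ∈ lineOf q := by
    simp [lineOf]
  have h1 : ((1 : ℝ), q.1 - q.2) ∈ lineOf q := by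
    simp [lineOf]
  rw [h] at h0 h1
  simp only [lineOf, Set.mem_ofPred_eq] at h0 h1
  ext
  · linarith
  · linarith

/-- the points -/
noncomputable def Ps (e N : ℕ) : Finset (ℝ × ℝ) := box e N ×ˢ box e (4 * e * N ^ 2)

/-- the dual points of the lines -/
noncomputable def Qs (e N : ℕ) : Finset (ℝ × ℝ) := box e N ×ˢ box e (2 * e * N ^ 2)

open Classical in
/-- the lines -/
noncomputable def Ls (e N : ℕ) : Finset (Set (ℝ × ℝ)) := (Qs e N).image lineOf

theorem Ps_card {e : ℕ} (he : e.Prime) (N : ℕ) :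
    (Ps e N).card = (2 * N + 1) ^ e * (8 * e * N ^ 2 + 1) ^ e := by
  unfold Ps
  rw [Finset.card_product, box_card he, box_card he]
  congr 2
  ring

theorem Ls_card {e : ℕ} (he : e.Prime) (N : ℕ) :
    (Ls e N).card = (2 * N + 1) ^ e * (4 * e * N ^ 2 + 1) ^ e := by
  unfold Ls
  rw [Finset.card_image_of_injective _ lineOf_inj]
  unfold Qs
  rw [Finset.card_product, box_card he, box_card he]
  congr 2
  ring

theorem inc_ge {e : ℕ} (he : e.Prime) (N : ℕ) :
    (2 * N + 1) ^ e * ((2 * N + 1) ^ e * (4 * e * N ^ 2 + 1) ^ e) ≤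
      {x : (ℝ × ℝ) × Set (ℝ × ℝ) | x.1 ∈ Ps e N ∧ x.2 ∈ Ls e N ∧ x.1 ∈ x.2}.ncard := by
  classical
  have hc : (box e N ×ˢ Qs e N).card =
      (2 * N + 1) ^ e * ((2 * N + 1) ^ e * (4 * e * N ^ 2 + 1) ^ e) := by
    unfold Qs
    rw [Finset.card_product, Finset.card_product, box_card he, box_card he]
    congr 3
    ring
  rw [← hc]
  set g : ℝ × (ℝ × ℝ) → (ℝ × ℝ) × Set (ℝ × ℝ) :=
    fun z => ((z.1, z.2.1 * z.1 - z.2.2), lineOf z.2) with hg
  have hinj : Function.Injective g := by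
    rintro ⟨x, q⟩ ⟨x', q'⟩ h
    simp only [hg, Prod.mk.injEq] at h
    have := lineOf_inj h.2
    rw [this, h.1.1]
  rw [← Finset.card_image_of_injective _ hinj, ← Set.ncard_coe_finset]
  apply Set.ncard_le_ncard
  · intro z hz
    rw [Finset.mem_coe, Finset.mem_image] at hz
    obtain ⟨⟨x, q⟩, hx, rfl⟩ := hz
    rw [Finset.mem_product] at hx
    obtain ⟨hx1, hx2⟩ := hx
    have hq := hx2
    unfold Qs at hx2
    rw [Finset.mem_product] at hx2
    simp only at hx1 hx2 hq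
    refine ⟨?_, ?_, ?_⟩
    · simp only [hg, Ps, Finset.mem_product]
      refine ⟨hx1, ?_⟩
      rw [mem_box] at hx1 hx2 ⊢
      have hx2' := mem_box.mp hx2.2
      have h := Bd.sub (Bd.mul he.ne_zero hx2.1 hx1) hx2'
      refine Bd.mono ?_ h
      apply le_of_eq
      ring
    · simp only [hg, Ls]
      exact Finset.mem_image_of_mem _ hq
    · simp only [hg, lineOf, Set.mem_ofPred_eq]
  · apply Set.Finite.subset ((Ps e N ×ˢ Ls e N).finite_toSet)
    rintro x ⟨h1, h2, _⟩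
    rw [Finset.mem_coe, Finset.mem_product]
    exact ⟨h1, h2⟩

/-- the numerical inequality for the number of incidences -/
theorem arith (e N : ℕ) (he : 1 ≤ e) (m n I : ℝ)
    (hm : m = (((2 * N + 1) ^ e * (8 * e * N ^ 2 + 1) ^ e : ℕ) : ℝ))
    (hn : n = (((2 * N + 1) ^ e * (4 * e * N ^ 2 + 1) ^ e : ℕ) : ℝ))
    (hI : (((2 * N + 1) ^ e * ((2 * N + 1) ^ e * (4 * e * N ^ 2 + 1) ^ e) : ℕ) : ℝ) ≤ I) :
    1 / (4 * (e : ℝ)) ^ e * (m ^ ((2 : ℝ) / 3) * n ^ ((2 : ℝ) / 3)) ≤ I := by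
  set A : ℝ := (((2 * N + 1) ^ e : ℕ) : ℝ) with hA
  set B : ℝ := (((4 * e * N ^ 2 + 1) ^ e : ℕ) : ℝ) with hB
  set B' : ℝ := (((8 * e * N ^ 2 + 1) ^ e : ℕ) : ℝ) with hB'
  have hA0 : 0 < A := by rw [hA]; positivity
  have hB0 : 0 < B := by rw [hB]; positivity
  have hB'0 : 0 < B' := by rw [hB']; positivity
  have hm' : m = A * B' := by rw [hm, hA, hB']; push_cast; ring
  have hn' : n = A * B := by rw [hn, hA, hB]; push_cast; ring
  have hI' : A * (A * B) ≤ I := by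
    refine le_trans (le_of_eq ?_) hI
    rw [hA, hB]; push_cast; ring
  have he1 : (1 : ℝ) ≤ e := by exact_mod_cast he
  have h1 : B' ≤ 2 ^ e * B := by
    rw [hB, hB']
    push_cast
    rw [← mul_pow]
    apply pow_le_pow_left₀ (by positivity)
    nlinarith
  have h2 : B ≤ (e : ℝ) ^ e * A ^ 2 := by
    rw [hB, hA]
    push_cast
    rw [← pow_mul, mul_comm e 2, pow_mul, ← mul_pow]
    apply pow_le_pow_left₀ (by positivity)
    have hN : (0 : ℝ) ≤ N := by positivity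
    nlinarith [mul_nonneg (by positivity : (0 : ℝ) ≤ e) hN]
  set q : ℝ := (4 * (e : ℝ)) ^ e with hq
  have hq1 : 1 ≤ q := by
    rw [hq]
    apply one_le_pow₀
    linarith
  have hq2 : q = (2 ^ e) ^ 2 * (e : ℝ) ^ e := by
    rw [hq, mul_pow, ← pow_mul, mul_comm e 2, pow_mul]
    norm_num
  have hmpos : 0 < m := by rw [hm']; positivity
  have hnpos : 0 < n := by rw [hn']; positivity
  have e1 : (m ^ ((2 : ℝ) / 3)) ^ 3 = m ^ 2 := by
    rw [← Real.rpow_natCast, ← Real.rpow_mul hmpos.le, ← Real.rpow_natCast]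
    norm_num
  have e2 : (n ^ ((2 : ℝ) / 3)) ^ 3 = n ^ 2 := by
    rw [← Real.rpow_natCast, ← Real.rpow_mul hnpos.le, ← Real.rpow_natCast]
    norm_num
  refine le_trans ?_ hI'
  have hpos : 0 ≤ 1 / q * (m ^ ((2 : ℝ) / 3) * n ^ ((2 : ℝ) / 3)) := by positivity
  refine le_of_pow_le_pow_left₀ (n := 3) (by norm_num) (by positivity) ?_
  rw [mul_pow, mul_pow, e1, e2, hm', hn']
  -- main estimate
  have h3 : B' ^ 2 ≤ (2 ^ e) ^ 2 * B ^ 2 := by
    rw [← mul_pow]
    exact pow_le_pow_left₀ hB'0.le h1 2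
  have h4 : B' ^ 2 ≤ q * (A ^ 2 * B) := by
    calc B' ^ 2 ≤ (2 ^ e) ^ 2 * B ^ 2 := h3
      _ = (2 ^ e) ^ 2 * B * B := by ring
      _ ≤ (2 ^ e) ^ 2 * B * ((e : ℝ) ^ e * A ^ 2) := by
          apply mul_le_mul_of_nonneg_left h2
          positivity
      _ = q * (A ^ 2 * B) := by rw [hq2]; ring
  have h5 : (1 / q) ^ 3 ≤ 1 / q := by
    have : (1 : ℝ) / q ≤ 1 := by
      rw [div_le_one (by linarith)]
      exact hq1
    calc (1 / q) ^ 3 = (1 / q) * (1 / q) ^ 2 := by ring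
      _ ≤ (1 / q) * 1 := by
          apply mul_le_mul_of_nonneg_left _ (by positivity)
          apply pow_le_one₀ (by positivity) this
      _ = 1 / q := by ring
  calc (1 / q) ^ 3 * ((A * B') ^ 2 * (A * B) ^ 2)
      ≤ (1 / q) * ((A * B') ^ 2 * (A * B) ^ 2) := by
        apply mul_le_mul_of_nonneg_right h5
        positivity
    _ = (1 / q) * (A ^ 4 * B ^ 2) * B' ^ 2 := by ring
    _ ≤ (1 / q) * (A ^ 4 * B ^ 2) * (q * (A ^ 2 * B)) := by
        apply mul_le_mul_of_nonneg_left h4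
        positivity
    _ = (A * (A * B)) ^ 3 := by
        have : q ≠ 0 := by linarith
        field_simp

/-- the set is small compared to `N ^ 33` -/
theorem K_bound (e N : ℕ) (hN : 1 ≤ N) (hN' : (262144 * e ^ 7 + 4) ^ 4 ≤ N) :
    (K e (4 * e * N ^ 2) + 3) ^ 2 ≤ N ^ 33 := by
  unfold K
  have h1 : 2 * (2 * e * (16 * e * (4 * e * N ^ 2) ^ 2) * (16 * e * (4 * e * N ^ 2) ^ 2)) + 1 =
      262144 * e ^ 7 * N ^ 8 + 1 := by ring
  rw [h1]
  set c := 262144 * e ^ 7 with hc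
  have hN8 : 1 ≤ N ^ 8 := Nat.one_le_pow _ _ hN
  have h2 : (c * N ^ 8 + 1) ^ 2 + 3 ≤ ((c + 4) * N ^ 8) ^ 2 := by
    generalize N ^ 8 = t at hN8
    nlinarith [Nat.zero_le (c * t), Nat.mul_le_mul hN8 hN8]
  calc ((c * N ^ 8 + 1) ^ 2 + 3) ^ 2 ≤ (((c + 4) * N ^ 8) ^ 2) ^ 2 := Nat.pow_le_pow_left h2 2
    _ = (c + 4) ^ 4 * N ^ 32 := by ring
    _ ≤ N * N ^ 32 := Nat.mul_le_mul_right _ hN'
    _ = N ^ 33 := by ring

end Pool.Agent.TH351.LatticeConf
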